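import Mathlib
import Pool.Agent.AHC.Conj

/-!
# Evaluation of polynomials with varying coefficients
-/

namespace Pool.Agent.AHI

open MvPolynomial Pool.Agent.AHC
open scoped ContDiff ComplexConjugate

variable {n : ℕ}

/-- evaluation of a polynomial after applying `φ` to its coefficients -/
noncomputable def ev (P : MvPolynomial (Fin n) ℂ) (φ : ℂ → ℂ) (z : Fin n → ℂ) : ℂ :=
  ∑ u ∈ P.support, φ (coeff u P) * ∏ i, z i ^ u i

theorem ev_ringEquiv (σ : ℂ ≃+* ℂ) (P : MvPolynomial (Fin n) ℂ) (z : Fin n → ℂ) :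
    ev P σ z = eval z (map (σ : ℂ →+* ℂ) P) := by
  rw [eval_map, eval₂_eq']
  rfl

theorem ev_id (P : MvPolynomial (Fin n) ℂ) (z : Fin n → ℂ) : ev P id z = eval z P := by
  rw [eval_eq']
  rfl

theorem ev_congr {P : MvPolynomial (Fin n) ℂ} {φ ψ : ℂ → ℂ} (h : ∀ c ∈ P.coeffs, φ c = ψ c)
    (z : Fin n → ℂ) : ev P φ z = ev P ψ z := by
  refine Finset.sum_congr rfl fun u hu => ?_
  rw [h _ (by rw [mem_coeffs_iff]; exact ⟨u, hu, rfl⟩)]

/-- extension of a function on a finite set by the identity -/
noncomputable def ext (X : Finset ℂ) (θ : X → ℂ) : ℂ → ℂ :=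
  fun c => if h : c ∈ X then θ ⟨c, h⟩ else c

/-- the inclusion of `X` -/
def inc (X : Finset ℂ) : X → ℂ := fun x => x

/-- the restriction of an automorphism to `X` -/
noncomputable def res (X : Finset ℂ) (σ : ℂ ≃+* ℂ) : X → ℂ := fun x => σ x

theorem ext_inc (X : Finset ℂ) : ext X (inc X) = id := by
  funext c
  simp only [ext, inc, id]
  split_ifs <;> rfl

theorem ext_res {X : Finset ℂ} (σ : ℂ ≃+* ℂ) {c : ℂ} (hc : c ∈ X) : ext X (res X σ) c = σ c := by
  simp only [ext, res, dif_pos hc]

theorem ev_res {X : Finset ℂ} (σ : ℂ ≃+* ℂ) {P : MvPolynomial (Fin n) ℂ}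
    (hP : P.coeffs ⊆ X) (z : Fin n → ℂ) :
    ev P (ext X (res X σ)) z = eval z (map (σ : ℂ →+* ℂ) P) := by
  rw [← ev_ringEquiv]
  exact ev_congr (fun c hc => ext_res σ (hP hc)) z

theorem ev_inc (X : Finset ℂ) (P : MvPolynomial (Fin n) ℂ) (z : Fin n → ℂ) :
    ev P (ext X (inc X)) z = eval z P := by
  rw [ext_inc, ev_id]

theorem contDiff_ext {k : WithTop ℕ∞} (X : Finset ℂ) (c : ℂ) :
    ContDiff ℝ k fun θ : X → ℂ => ext X θ c := by
  unfold ext
  split_ifs with h
  · exact contDiff_apply ℝ ℂ (⟨c, h⟩ : X)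
  · exact contDiff_const

theorem contDiff_ev {k : WithTop ℕ∞} (X : Finset ℂ) (P : MvPolynomial (Fin n) ℂ) :
    ContDiff ℝ k fun x : (X → ℂ) × (Fin n → ℂ) => ev P (ext X x.1) x.2 := by
  unfold ev
  refine ContDiff.sum fun u _ => ?_
  refine ContDiff.mul ((contDiff_ext X _).comp contDiff_fst) ?_
  refine contDiff_prod fun i _ => ?_
  exact ((contDiff_apply ℝ ℂ i).comp contDiff_snd).pow _

theorem contDiff_eval {k : WithTop ℕ∞} (P : MvPolynomial (Fin n) ℂ) :
    ContDiff ℝ k fun z : Fin n → ℂ => eval z P := by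
  have h : (fun z : Fin n → ℂ => eval z P) = fun z => ev P id z := by
    funext z
    rw [ev_id]
  rw [h]
  unfold ev
  refine ContDiff.sum fun u _ => ?_
  refine ContDiff.mul contDiff_const ?_
  refine contDiff_prod fun i _ => ?_
  exact (contDiff_apply ℝ ℂ i).pow _

/-- the derivative of a polynomial in the direction `v` -/
theorem hasDerivAt_eval_line (P : MvPolynomial (Fin n) ℂ) (z v : Fin n → ℂ) (s : ℝ) :
    HasDerivAt (fun s : ℝ => eval (fun i => z i + s * v i) P)
      (∑ l, eval (fun i => z i + s * v i) (pderiv l P) * v l) s := by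
  induction P using MvPolynomial.induction_on with
  | C x => simpa using hasDerivAt_const s x
  | add P Q hP hQ =>
    have h := hP.add hQ
    have h1 : (∑ l, eval (fun i => z i + s * v i) (pderiv l (P + Q)) * v l) =
        (∑ l, eval (fun i => z i + s * v i) (pderiv l P) * v l) +
        ∑ l, eval (fun i => z i + s * v i) (pderiv l Q) * v l := by
      rw [← Finset.sum_add_distrib]
      refine Finset.sum_congr rfl fun l _ => ?_
      rw [map_add, map_add, add_mul]
    rw [h1]
    refine h.congr_of_eventuallyEq (Filter.Eventually.of_forall fun t => ?_)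
    simp
  | mul_X P i hP =>
    have h2 : HasDerivAt (fun s : ℝ => z i + s * v i) (v i) s := by
      have h3 : HasDerivAt (fun s : ℝ => (s : ℂ)) 1 s := Complex.ofRealCLM.hasDerivAt
      simpa using (h3.mul_const (v i)).const_add (z i)
    have h := hP.mul h2
    have h1 : (∑ l, eval (fun i => z i + s * v i) (pderiv l (P * X i)) * v l) =
        (∑ l, eval (fun i => z i + s * v i) (pderiv l P) * v l) * (z i + s * v i) +
        eval (fun i => z i + s * v i) P * v i := by
      have h4 : ∀ l, eval (fun i => z i + s * v i) (pderiv l (P * X i)) * v l =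
          eval (fun i => z i + s * v i) (pderiv l P) * v l * (z i + s * v i) +
          (if l = i then eval (fun i => z i + s * v i) P * v i else 0) := by
        intro l
        rw [pderiv_mul, map_add, map_mul, map_mul, eval_X, pderiv_X]
        by_cases hl : l = i
        · subst hl
          simp
          ring
        · rw [Pi.single_eq_of_ne (fun h => hl h.symm)]
          simp [hl]
          ring
      simp only [h4]
      rw [Finset.sum_add_distrib, Finset.sum_mul, Finset.sum_ite_eq' Finset.univ i]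
      simp
    rw [h1]
    refine h.congr_of_eventuallyEq (Filter.Eventually.of_forall fun t => ?_)
    simp

end Pool.Agent.AHI
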