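import Mathlib
import Pool.Agent.AHI.Ev

/-!
# Solving the equations of a nearby variety in the normal directions
-/

namespace Pool.Agent.AHI

open MvPolynomial Pool.Agent.AHC Filter
open scoped ContDiff ComplexConjugate Topology

variable {N r : ℕ}

/-- a combination of the conjugate gradients -/
noncomputable def nv (P : Fin r → CPoly N) (z : Fin (N + 1) → ℂ) (c : Fin r → ℂ) :
    Fin (N + 1) → ℂ :=
  fun l => ∑ a, c a * conj (eval z (pderiv l (P a)))

/-- the equations in the normal directions -/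
noncomputable def Hf (X : Finset ℂ) (P : Fin r → CPoly N) :
    ((X → ℂ) × (Fin (N + 1) → ℂ)) × (Fin r → ℂ) → (Fin r → ℂ) :=
  fun x b => ev (P b) (ext X x.1.1) (fun l => x.1.2 l + nv P x.1.2 x.2 l)

theorem contDiff_nv {k : WithTop ℕ∞} (P : Fin r → CPoly N) :
    ContDiff ℝ k fun x : (Fin (N + 1) → ℂ) × (Fin r → ℂ) => nv P x.1 x.2 := by
  unfold nv
  rw [contDiff_pi]
  intro l
  refine ContDiff.sum fun a _ => ?_
  refine ContDiff.mul ((contDiff_apply ℝ ℂ a).comp contDiff_snd) ?_
  exact Complex.conjCLE.contDiff.comp ((contDiff_eval _).comp contDiff_fst)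

theorem contDiff_Hf {k : WithTop ℕ∞} (X : Finset ℂ) (P : Fin r → CPoly N) :
    ContDiff ℝ k (Hf X P) := by
  unfold Hf
  rw [contDiff_pi]
  intro b
  have h1 : ContDiff ℝ k fun x : ((X → ℂ) × (Fin (N + 1) → ℂ)) × (Fin r → ℂ) =>
      (fun l => x.1.2 l + nv P x.1.2 x.2 l) := by
    rw [contDiff_pi]
    intro l
    refine ContDiff.add ?_ ?_
    · exact (contDiff_apply ℝ ℂ l).comp (contDiff_snd.comp contDiff_fst)
    · exact (contDiff_apply ℝ ℂ l).comp ((contDiff_nv P).comp
        ((contDiff_snd.comp contDiff_fst).prodMk contDiff_snd))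
  exact (contDiff_ev X (P b)).comp ((contDiff_fst.comp contDiff_fst).prodMk h1)

theorem nv_smul (P : Fin r → CPoly N) (z : Fin (N + 1) → ℂ) (c : Fin r → ℂ) (s : ℝ) (l) :
    nv P z (s • c) l = s * nv P z c l := by
  simp only [nv, Pi.smul_apply, Complex.real_smul, Finset.mul_sum, mul_assoc]

theorem nv_zero (P : Fin r → CPoly N) (z : Fin (N + 1) → ℂ) : nv P z 0 = 0 := by
  funext l
  simp [nv]

/-- the derivative of the equations in the direction of the coefficients -/
theorem fderiv_Hf (X : Finset ℂ) (P : Fin r → CPoly N) (z : Fin (N + 1) → ℂ) (c : Fin r → ℂ)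
    (b : Fin r) :
    fderiv ℝ (Hf X P) ((inc X, z), 0) (0, c) b = ∑ l, eval z (pderiv l (P b)) * nv P z c l := by
  have h1 : HasFDerivAt (Hf X P) (fderiv ℝ (Hf X P) ((inc X, z), 0)) ((inc X, z), 0) :=
    (((contDiff_Hf (k := 1) X P).differentiable (by norm_num)) _).hasFDerivAt
  have h2 : HasDerivAt (fun s : ℝ => (((inc X, z), (0 : Fin r → ℂ)) + s • ((0, c) :
      ((X → ℂ) × (Fin (N + 1) → ℂ)) × (Fin r → ℂ)))) ((0, c) :
      ((X → ℂ) × (Fin (N + 1) → ℂ)) × (Fin r → ℂ)) 0 := by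
    have := ((hasDerivAt_id (0 : ℝ)).smul_const ((0, c) :
      ((X → ℂ) × (Fin (N + 1) → ℂ)) × (Fin r → ℂ))).const_add ((inc X, z), (0 : Fin r → ℂ))
    simpa using this
  have h3 : HasFDerivAt (Hf X P) (fderiv ℝ (Hf X P) ((inc X, z), 0))
      (((inc X, z), (0 : Fin r → ℂ)) + (0 : ℝ) • ((0, c) :
      ((X → ℂ) × (Fin (N + 1) → ℂ)) × (Fin r → ℂ))) := by
    simpa using h1
  have h4 := h3.comp_hasDerivAt (0 : ℝ) h2
  have h5 := (hasDerivAt_pi.1 h4) b
  have h6 := hasDerivAt_eval_line (P b) z (nv P z c) 0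
  have h7 : (fun s : ℝ => (Hf X P ∘ fun s : ℝ => (((inc X, z), (0 : Fin r → ℂ)) + s • ((0, c) :
      ((X → ℂ) × (Fin (N + 1) → ℂ)) × (Fin r → ℂ)))) s b) =
      fun s : ℝ => eval (fun i => z i + s * nv P z c i) (P b) := by
    funext s
    simp only [Function.comp_apply, Hf, Prod.fst_add, Prod.snd_add, Prod.smul_fst, Prod.smul_snd,
      smul_zero, add_zero, zero_add]
    rw [ev_inc]
    simp only [nv_smul]
  rw [h7] at h5
  have h8 := h5.unique h6
  simpa using h8

theorem conj_mul_nv (P : Fin r → CPoly N) (z : Fin (N + 1) → ℂ) (c : Fin r → ℂ)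
    (h : ∀ b, ∑ l, eval z (pderiv l (P b)) * nv P z c l = 0) : nv P z c = 0 := by
  have h1 : ∑ l, conj (nv P z c l) * nv P z c l = 0 := by
    have h2 : ∀ l, conj (nv P z c l) * nv P z c l =
        ∑ b, conj (c b) * (eval z (pderiv l (P b)) * nv P z c l) := by
      intro l
      have h3 : conj (nv P z c l) = ∑ b, conj (c b) * eval z (pderiv l (P b)) := by
        simp only [nv, map_sum, map_mul, Complex.conj_conj]
      rw [h3, Finset.sum_mul]
      exact Finset.sum_congr rfl fun b _ => mul_assoc _ _ _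
    simp only [h2]
    rw [Finset.sum_comm]
    refine Finset.sum_eq_zero fun b _ => ?_
    rw [← Finset.mul_sum, h b, mul_zero]
  have h2 : ∑ l, Complex.normSq (nv P z c l) = 0 := by
    have h3 : ((∑ l, Complex.normSq (nv P z c l) : ℝ) : ℂ) = 0 := by
      rw [← h1]
      push_cast
      refine Finset.sum_congr rfl fun l _ => ?_
      rw [mul_comm, Complex.mul_conj]
    exact_mod_cast h3
  rw [Finset.sum_eq_zero_iff_of_nonneg (fun _ _ => Complex.normSq_nonneg _)] at h2
  funext l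
  exact Complex.normSq_eq_zero.1 (h2 l (Finset.mem_univ l))

theorem nv_injective {P : Fin r → CPoly N} {z : Fin (N + 1) → ℂ}
    (hli : LinearIndependent ℂ (fun (a : Fin r) (l : Fin (N + 1)) => eval z (pderiv l (P a))))
    {c : Fin r → ℂ} (h : nv P z c = 0) : c = 0 := by
  rw [Fintype.linearIndependent_iff] at hli
  have h1 := hli (fun a => conj (c a)) (by
    funext l
    have h2 := congrArg (starRingEnd ℂ) (congrFun h l)
    simp only [nv, Pi.zero_apply, map_zero, map_sum, map_mul, Complex.conj_conj] at h2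
    simpa using h2)
  funext a
  have h3 := h1 a
  simpa using h3

theorem isInvertible_of_injective {V : Type} [NormedAddCommGroup V] [NormedSpace ℝ V]
    [FiniteDimensional ℝ V] (f : V →L[ℝ] V) (h : ∀ v, f v = 0 → v = 0) : f.IsInvertible := by
  have hinj : Function.Injective (f : V →ₗ[ℝ] V) := by
    rw [← LinearMap.ker_eq_bot, LinearMap.ker_eq_bot']
    exact h
  refine ⟨(LinearEquiv.ofInjectiveEndo (f : V →ₗ[ℝ] V) hinj).toContinuousLinearEquiv, ?_⟩
  ext v
  rfl

/-- the implicit function theorem for the equations in the normal directions -/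
theorem exists_kappa (X : Finset ℂ) (P : Fin r → CPoly N) (z : Fin (N + 1) → ℂ)
    (hli : LinearIndependent ℂ (fun (a : Fin r) (l : Fin (N + 1)) => eval z (pderiv l (P a))))
    (h0 : ∀ a, eval z (P a) = 0) :
    ∃ κ : (X → ℂ) × (Fin (N + 1) → ℂ) → (Fin r → ℂ),
      (∀ᶠ x in 𝓝 (inc X, z), ContDiffAt ℝ ω κ x) ∧ κ (inc X, z) = 0 ∧
      (∀ᶠ x in 𝓝 (inc X, z), Hf X P (x, κ x) = 0) ∧
      ∀ᶠ y in 𝓝 ((inc X, z), (0 : Fin r → ℂ)), Hf X P y = 0 ↔ κ y.1 = y.2 := by
  have hu : Hf X P ((inc X, z), 0) = 0 := by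
    funext b
    simp only [Hf, nv_zero, Pi.zero_apply, add_zero]
    rw [ev_inc]
    exact h0 b
  have cdf : ContDiffAt ℝ ω (Hf X P) ((inc X, z), 0) := (contDiff_Hf X P).contDiffAt
  have pn : (ω : WithTop ℕ∞) ≠ 0 := by simp
  have hinv : (fderiv ℝ (Hf X P) ((inc X, z), 0) ∘L
      .inr ℝ ((X → ℂ) × (Fin (N + 1) → ℂ)) (Fin r → ℂ)).IsInvertible := by
    refine isInvertible_of_injective _ fun c hc => ?_
    refine nv_injective hli (conj_mul_nv P z c fun b => ?_)
    rw [← fderiv_Hf X P z c b]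
    have := congrFun hc b
    simpa using this
  refine ⟨cdf.implicitFunction pn hinv, ?_, ?_, ?_, ?_⟩
  · exact (cdf.contDiffAt_implicitFunction pn hinv).eventually (by simp)
  · exact cdf.implicitFunction_apply_self pn hinv
  · have h := cdf.eventually_apply_implicitFunction pn hinv
    rw [hu] at h
    exact h
  · have h := cdf.eventually_apply_eq_iff_implicitFunction pn hinv
    rw [hu] at h
    exact h

end Pool.Agent.AHI
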