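import Mathlib
import Pool.Agent.AHI.Impl

/-!
# Normal vectors leading to the conjugate variety: local existence and uniqueness
-/

namespace Pool.Agent.AHI

open MvPolynomial Pool.Agent.AHC Filter
open scoped ContDiff ComplexConjugate Topology

variable {N m : ℕ}

/-- the space of vectors normal to the cone at `z` -/
noncomputable def Nrm (F : Fin m → CPoly N) (z : Fin (N + 1) → ℂ) :
    Submodule ℂ (Fin (N + 1) → ℂ) :=
  Submodule.span ℂ (Set.range fun (i : Fin m) (l : Fin (N + 1)) => conj (eval z (pderiv l (F i))))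

/-- `n` is a normal vector at `z` and `z + n` lies on the conjugate cone -/
def RN (F : Fin m → CPoly N) (β : ℂ ≃+* ℂ) (z n : Fin (N + 1) → ℂ) : Prop :=
  n ∈ Nrm F z ∧ OnCone (conjEqs β F) (fun l => z l + n l)

/-- local complete intersection data -/
structure Cert (F : Fin m → CPoly N) where
  r : ℕ
  j : Fin r → Fin m
  h : CPoly N
  A : Fin m → Fin r → CPoly N
  eq : ∀ i, ∑ a, A i a * F (j a) = h * F i

/-- the certificate is valid at `z` -/
structure Cert.Valid {F : Fin m → CPoly N} (C : Cert F) (z : Fin (N + 1) → ℂ) : Prop where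
  li : LinearIndependent ℂ (fun (a : Fin C.r) (l : Fin (N + 1)) => eval z (pderiv l (F (C.j a))))
  ne : eval z C.h ≠ 0

/-- the chosen equations -/
def Cert.P {F : Fin m → CPoly N} (C : Cert F) : Fin C.r → CPoly N := fun a => F (C.j a)

theorem exists_cert {F : Fin m → CPoly N} (hF : IsSmoothProjective F) {z : Fin (N + 1) → ℂ}
    (hz0 : z ≠ 0) (hz : OnCone F z) : ∃ C : Cert F, C.Valid z := by
  obtain ⟨r, j, h, h1, h2, h3⟩ := hF.smooth z hz0 hz
  have h4 : ∀ i, ∃ c : Fin r → CPoly N, ∑ a, c a * F (j a) = h * F i := by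
    intro i
    exact (Ideal.mem_span_range_iff_exists_fun).1 (h3 i)
  choose A hA using h4
  exact ⟨⟨r, j, h, A, hA⟩, ⟨h1, h2⟩⟩

theorem nv_mem_Nrm {F : Fin m → CPoly N} (C : Cert F) (z : Fin (N + 1) → ℂ) (c : Fin C.r → ℂ) :
    nv C.P z c ∈ Nrm F z := by
  have h : nv C.P z c = ∑ a, c a • (fun l => conj (eval z (pderiv l (F (C.j a))))) := by
    funext l
    simp only [nv, Cert.P, Finset.sum_apply, Pi.smul_apply, smul_eq_mul]
  rw [h]
  refine Submodule.sum_mem _ fun a _ => Submodule.smul_mem _ _ (Submodule.subset_span ⟨C.j a, rfl⟩)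

/-- the gradients of all equations are combinations of the chosen ones on the cone -/
theorem grad_eq {F : Fin m → CPoly N} (C : Cert F) {z : Fin (N + 1) → ℂ} (hz : OnCone F z)
    (hh : eval z C.h ≠ 0) (i : Fin m) (l : Fin (N + 1)) :
    eval z (pderiv l (F i)) = ∑ a, (eval z (C.A i a) / eval z C.h) *
      eval z (pderiv l (F (C.j a))) := by
  have h1 := congrArg (fun Q => eval z (pderiv l Q)) (C.eq i)
  simp only [map_sum, pderiv_mul, map_add, map_mul, hz i, mul_zero, zero_add] at h1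
  have h2 : ∀ a, eval z (pderiv l (C.A i a)) * eval z (F (C.j a)) +
      eval z (C.A i a) * eval z (pderiv l (F (C.j a))) =
      eval z (C.A i a) * eval z (pderiv l (F (C.j a))) := by
    intro a
    rw [hz (C.j a), mul_zero, zero_add]
  simp only [h2] at h1
  have h3 : eval z C.h * eval z (pderiv l (F i)) =
      eval z C.h * ∑ a, (eval z (C.A i a) / eval z C.h) * eval z (pderiv l (F (C.j a))) := by
    rw [← h1, Finset.mul_sum]
    refine Finset.sum_congr rfl fun a _ => ?_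
    field_simp
  exact mul_left_cancel₀ hh h3

theorem exists_nv_of_mem {F : Fin m → CPoly N} (C : Cert F) {z n : Fin (N + 1) → ℂ}
    (hz : OnCone F z) (hh : eval z C.h ≠ 0) (hn : n ∈ Nrm F z) : ∃ c, n = nv C.P z c := by
  induction hn using Submodule.span_induction with
  | mem x hx =>
    obtain ⟨i, rfl⟩ := hx
    refine ⟨fun a => conj (eval z (C.A i a) / eval z C.h), ?_⟩
    funext l
    simp only [nv, Cert.P]
    rw [grad_eq C hz hh i l, map_sum]
    exact Finset.sum_congr rfl fun a _ => map_mul _ _ _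
  | zero => exact ⟨0, (nv_zero _ _).symm⟩
  | add x y _ _ hx hy =>
    obtain ⟨c, rfl⟩ := hx
    obtain ⟨d, rfl⟩ := hy
    refine ⟨c + d, ?_⟩
    funext l
    simp only [nv, Pi.add_apply, add_mul, Finset.sum_add_distrib]
  | smul a x _ hx =>
    obtain ⟨c, rfl⟩ := hx
    refine ⟨a • c, ?_⟩
    funext l
    simp only [nv, Pi.smul_apply, smul_eq_mul, Finset.mul_sum, mul_assoc]

/-- on the open set where the denominator does not vanish the chosen equations define the
conjugate cone -/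
theorem onCone_of_chosen {F : Fin m → CPoly N} (C : Cert F) (β : ℂ ≃+* ℂ) {y : Fin (N + 1) → ℂ}
    (hh : eval y (map (β : ℂ →+* ℂ) C.h) ≠ 0)
    (hy : ∀ a, eval y (map (β : ℂ →+* ℂ) (F (C.j a))) = 0) : OnCone (conjEqs β F) y := by
  intro i
  have h1 := congrArg (fun Q => eval y (map (β : ℂ →+* ℂ) Q)) (C.eq i)
  simp only [map_sum, map_mul, hy, mul_zero, Finset.sum_const_zero] at h1
  exact (mul_eq_zero.1 h1.symm).resolve_left hh

/-- the coefficients which matter -/
structure Covers (X : Finset ℂ) (F : Fin m → CPoly N) (C : Cert F) : Prop where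
  F : ∀ i, (F i).coeffs ⊆ X
  h : C.h.coeffs ⊆ X

/-- small normal vectors have small coefficients -/
theorem nv_bound {r : ℕ} {P : Fin r → CPoly N} {z : Fin (N + 1) → ℂ}
    (hli : LinearIndependent ℂ (fun (a : Fin r) (l : Fin (N + 1)) => eval z (pderiv l (P a)))) :
    ∃ K : ℝ, 0 < K ∧ ∀ᶠ y in 𝓝 z, ∀ c : Fin r → ℂ, ‖c‖ ≤ K * ‖nv P y c‖ := by
  let L : (Fin r → ℂ) →ₗ[ℂ] (Fin (N + 1) → ℂ) :=
    { toFun := nv P z
      map_add' := fun c d => by
        funext l
        simp only [nv, Pi.add_apply, add_mul, Finset.sum_add_distrib]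
      map_smul' := fun a c => by
        funext l
        simp only [nv, Pi.smul_apply, smul_eq_mul, Finset.mul_sum, mul_assoc, RingHom.id_apply] }
  have hL : LinearMap.ker L = ⊥ := by
    rw [LinearMap.ker_eq_bot']
    intro c hc
    exact nv_injective hli hc
  obtain ⟨K, hK0, hK⟩ := L.exists_antilipschitzWith hL
  have hK' : ∀ c, ‖c‖ ≤ K * ‖nv P z c‖ := by
    intro c
    have := hK.le_mul_dist c 0
    simpa [L, nv_zero] using this
  have hKpos : (0 : ℝ) < K := hK0
  have hc : ∀ (l : Fin (N + 1)) (a : Fin r), ∀ᶠ y in 𝓝 z,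
      ‖conj (eval y (pderiv l (P a))) - conj (eval z (pderiv l (P a)))‖ <
        1 / (2 * K * (r + 1)) := by
    intro l a
    have h1 : ContinuousAt (fun y : Fin (N + 1) → ℂ => conj (eval y (pderiv l (P a)))) z :=
      (Complex.continuous_conj.comp (contDiff_eval (k := 0) _).continuous).continuousAt
    have h2 := Metric.tendsto_nhds.1 h1 (1 / (2 * K * (r + 1))) (by positivity)
    simpa [dist_eq_norm] using h2
  refine ⟨2 * K, by positivity, ?_⟩
  have hc' : ∀ᶠ y in 𝓝 z, ∀ (l : Fin (N + 1)) (a : Fin r),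
      ‖conj (eval y (pderiv l (P a))) - conj (eval z (pderiv l (P a)))‖ <
        1 / (2 * K * (r + 1)) := by
    rw [Filter.eventually_all]
    intro l
    rw [Filter.eventually_all]
    exact hc l
  filter_upwards [hc'] with y hy c
  have h3 : ‖nv P y c - nv P z c‖ ≤ 1 / (2 * K) * ‖c‖ := by
    rw [pi_norm_le_iff_of_nonneg (by positivity)]
    intro l
    have h4 : (nv P y c - nv P z c) l =
        ∑ a, c a * (conj (eval y (pderiv l (P a))) - conj (eval z (pderiv l (P a)))) := by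
      simp only [nv, Pi.sub_apply, mul_sub, Finset.sum_sub_distrib]
    rw [h4]
    calc ‖∑ a, c a * (conj (eval y (pderiv l (P a))) - conj (eval z (pderiv l (P a))))‖
        ≤ ∑ a : Fin r, ‖c‖ * (1 / (2 * K * (r + 1))) := by
          refine (norm_sum_le _ _).trans (Finset.sum_le_sum fun a _ => ?_)
          rw [norm_mul]
          exact mul_le_mul (norm_le_pi_norm c a) (hy l a).le (norm_nonneg _) (norm_nonneg _)
      _ = ‖c‖ * (r / (2 * K * (r + 1))) := by
          rw [Finset.sum_const, Finset.card_univ, Fintype.card_fin, nsmul_eq_mul]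
          ring
      _ ≤ 1 / (2 * K) * ‖c‖ := by
          rw [mul_comm]
          refine mul_le_mul_of_nonneg_right ?_ (norm_nonneg _)
          rw [div_le_div_iff₀ (by positivity) (by positivity)]
          nlinarith
  have h5 : ‖nv P z c‖ ≤ ‖nv P y c‖ + 1 / (2 * K) * ‖c‖ := by
    have h6 : ‖nv P z c‖ ≤ ‖nv P y c‖ + ‖nv P y c - nv P z c‖ := by
      have := norm_sub_norm_le (nv P z c) (nv P y c)
      rw [norm_sub_rev] at this
      linarith
    linarith
  have h7 : K * ‖nv P z c‖ ≤ K * ‖nv P y c‖ + 1 / 2 * ‖c‖ := by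
    have h8 := mul_le_mul_of_nonneg_left h5 hKpos.le
    have h9 : (K : ℝ) * (‖nv P y c‖ + 1 / (2 * K) * ‖c‖) = K * ‖nv P y c‖ + 1 / 2 * ‖c‖ := by
      field_simp
    linarith
  have h10 := hK' c
  linarith

/-- local uniqueness of small normal vectors leading to the conjugate variety -/
theorem local_unique {F : Fin m → CPoly N} (C : Cert F) {X : Finset ℂ} (hX : Covers X F C)
    {z : Fin (N + 1) → ℂ} (hz : OnCone F z) (hC : C.Valid z) :
    ∀ᶠ x : ((X → ℂ) × ((Fin (N + 1) → ℂ) × (Fin (N + 1) → ℂ))) × (Fin (N + 1) → ℂ) in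
      𝓝 ((inc X, (0, 0)), z), ∀ β : ℂ ≃+* ℂ, res X β = x.1.1 → OnCone F x.2 →
        RN F β x.2 x.1.2.1 → RN F β x.2 x.1.2.2 → x.1.2.1 = x.1.2.2 := by
  obtain ⟨κ, -, -, -, hκ⟩ := exists_kappa X C.P z hC.li (fun a => hz (C.j a))
  obtain ⟨K, hK, hKe⟩ := nv_bound (P := C.P) hC.li
  have hne : ∀ᶠ y in 𝓝 z, eval y C.h ≠ 0 :=
    (contDiff_eval (k := 0) C.h).continuous.continuousAt.eventually_ne hC.ne
  obtain ⟨ε, hε, hκε⟩ := Metric.eventually_nhds_iff.1 hκ
  have e1 : ∀ᶠ x : ((X → ℂ) × ((Fin (N + 1) → ℂ) × (Fin (N + 1) → ℂ))) × (Fin (N + 1) → ℂ) in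
      𝓝 ((inc X, (0, 0)), z), dist x.1.1 (inc X) < ε :=
    (continuous_fst.comp continuous_fst).continuousAt.eventually (Metric.ball_mem_nhds _ hε)
  have e2 : ∀ᶠ x : ((X → ℂ) × ((Fin (N + 1) → ℂ) × (Fin (N + 1) → ℂ))) × (Fin (N + 1) → ℂ) in
      𝓝 ((inc X, (0, 0)), z), dist x.2 z < ε :=
    continuous_snd.continuousAt.eventually (Metric.ball_mem_nhds _ hε)
  have e3 : ∀ᶠ x : ((X → ℂ) × ((Fin (N + 1) → ℂ) × (Fin (N + 1) → ℂ))) × (Fin (N + 1) → ℂ) in
      𝓝 ((inc X, (0, 0)), z), dist x.1.2.1 0 < ε / K :=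
    (continuous_fst.comp (continuous_snd.comp continuous_fst)).continuousAt.eventually
      (Metric.ball_mem_nhds _ (by positivity))
  have e4 : ∀ᶠ x : ((X → ℂ) × ((Fin (N + 1) → ℂ) × (Fin (N + 1) → ℂ))) × (Fin (N + 1) → ℂ) in
      𝓝 ((inc X, (0, 0)), z), dist x.1.2.2 0 < ε / K :=
    (continuous_snd.comp (continuous_snd.comp continuous_fst)).continuousAt.eventually
      (Metric.ball_mem_nhds _ (by positivity))
  have e5 : ∀ᶠ x : ((X → ℂ) × ((Fin (N + 1) → ℂ) × (Fin (N + 1) → ℂ))) × (Fin (N + 1) → ℂ) in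
      𝓝 ((inc X, (0, 0)), z), eval x.2 C.h ≠ 0 ∧ ∀ c : Fin C.r → ℂ,
        ‖c‖ ≤ K * ‖nv C.P x.2 c‖ := by
    have ht : Tendsto (fun x : ((X → ℂ) × ((Fin (N + 1) → ℂ) × (Fin (N + 1) → ℂ))) ×
        (Fin (N + 1) → ℂ) => x.2) (𝓝 ((inc X, (0, 0)), z)) (𝓝 z) := continuous_snd.continuousAt
    exact ht.eventually (hne.and hKe)
  filter_upwards [e1, e2, e3, e4, e5] with x h1 h2 h3 h4 h5 β hβ hx hn hn'
  have key : ∀ n, dist n 0 < ε / K → RN F β x.2 n → n = nv C.P x.2 (κ (x.1.1, x.2)) := by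
    intro n hnε hn
    obtain ⟨c, hc⟩ := exists_nv_of_mem C hx h5.1 hn.1
    have hcn : ‖c‖ < ε := by
      rw [dist_zero_right] at hnε
      calc ‖c‖ ≤ K * ‖nv C.P x.2 c‖ := h5.2 c
        _ = K * ‖n‖ := by rw [hc]
        _ < K * (ε / K) := mul_lt_mul_of_pos_left hnε hK
        _ = ε := by field_simp
    have hH : Hf X C.P ((x.1.1, x.2), c) = 0 := by
      funext b
      simp only [Hf, Pi.zero_apply, Cert.P]
      rw [← hβ, ev_res β (hX.F _)]
      have := hn.2 (C.j b)
      rw [hc] at this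
      exact this
    have hd : dist ((x.1.1, x.2), c) ((inc X, z), (0 : Fin C.r → ℂ)) < ε := by
      rw [Prod.dist_eq, Prod.dist_eq]
      refine max_lt (max_lt h1 h2) ?_
      rw [dist_zero_right]
      exact hcn
    rw [(hκε hd).1 hH, ← hc]
  rw [key _ h3 hn, key _ h4 hn']

/-- local existence of small normal vectors leading to the conjugate variety -/
theorem local_exists {F : Fin m → CPoly N} (C : Cert F) {X : Finset ℂ} (hX : Covers X F C)
    {z : Fin (N + 1) → ℂ} (hz : OnCone F z) (hC : C.Valid z) {ρ : ℝ} (hρ : 0 < ρ) :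
    ∃ ν : (X → ℂ) × (Fin (N + 1) → ℂ) → (Fin (N + 1) → ℂ), ∀ᶠ x in 𝓝 (inc X, z),
      ContDiffAt ℝ ω ν x ∧ ∀ β : ℂ ≃+* ℂ, res X β = x.1 → OnCone F x.2 →
        RN F β x.2 (ν x) ∧ ‖ν x‖ < ρ := by
  obtain ⟨κ, hκ1, hκ2, hκ3, -⟩ := exists_kappa X C.P z hC.li (fun a => hz (C.j a))
  let ν : (X → ℂ) × (Fin (N + 1) → ℂ) → (Fin (N + 1) → ℂ) := fun x => nv C.P x.2 (κ x)
  have hν : ∀ᶠ x in 𝓝 (inc X, z), ContDiffAt ℝ ω ν x := by
    filter_upwards [hκ1] with x hx
    exact (contDiff_nv C.P).contDiffAt.comp x (contDiffAt_snd.prodMk hx)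
  have hνz : ν (inc X, z) = 0 := by
    simp only [ν, hκ2, nv_zero]
  have hcont : ContinuousAt ν (inc X, z) := hν.self_of_nhds.continuousAt
  have h1 : ∀ᶠ x in 𝓝 (inc X, z), ‖ν x‖ < ρ := by
    have := Metric.tendsto_nhds.1 hcont ρ hρ
    rw [hνz] at this
    simpa [dist_zero_right] using this
  have h2 : ∀ᶠ x in 𝓝 (inc X, z), ev C.h (ext X x.1) (fun l => x.2 l + ν x l) ≠ 0 := by
    have h3 : ContinuousAt (fun x : (X → ℂ) × (Fin (N + 1) → ℂ) =>
        ev C.h (ext X x.1) (fun l => x.2 l + ν x l)) (inc X, z) := by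
      have h4 : ContinuousAt (fun x : (X → ℂ) × (Fin (N + 1) → ℂ) =>
          (x.1, (fun l => x.2 l + ν x l : Fin (N + 1) → ℂ))) (inc X, z) := by
        refine continuousAt_fst.prodMk ?_
        exact continuousAt_snd.add hcont
      exact ContinuousAt.comp (x := (inc X, z))
        (g := fun y : (X → ℂ) × (Fin (N + 1) → ℂ) => ev C.h (ext X y.1) y.2)
        (contDiff_ev (k := 0) X C.h).continuous.continuousAt h4
    refine h3.eventually_ne ?_
    simp only [hνz, Pi.zero_apply, add_zero]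
    rw [ev_inc]
    exact hC.ne
  refine ⟨ν, ?_⟩
  filter_upwards [hν, hκ3, h1, h2] with x hx1 hx2 hx3 hx4
  refine ⟨hx1, fun β hβ hx => ⟨⟨nv_mem_Nrm C _ _, ?_⟩, hx3⟩⟩
  refine onCone_of_chosen C β ?_ fun a => ?_
  · rw [← ev_res β hX.h, hβ]
    exact hx4
  · rw [← ev_res β (hX.F _), hβ]
    exact congrFun hx2 a

end Pool.Agent.AHI
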