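import Mathlib
import Pool.Agent.AHI.Nrm

/-!
# The canonical map from a smooth projective variety to a nearby conjugate
-/

namespace Pool.Agent.AHI

open MvPolynomial Pool.Agent.AHC Filter
open scoped ContDiff ComplexConjugate Topology LinearAlgebra.Projectivization

variable {N m : ℕ}

/-- the square of the Euclidean norm -/
noncomputable def sq (z : Fin (N + 1) → ℂ) : ℝ := ∑ l, Complex.normSq (z l)

/-- the Euclidean norm -/
noncomputable def en (z : Fin (N + 1) → ℂ) : ℝ := Real.sqrt (sq z)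

theorem sq_nonneg (z : Fin (N + 1) → ℂ) : 0 ≤ sq z :=
  Finset.sum_nonneg fun _ _ => Complex.normSq_nonneg _

theorem sq_eq_zero {z : Fin (N + 1) → ℂ} : sq z = 0 ↔ z = 0 := by
  unfold sq
  rw [Finset.sum_eq_zero_iff_of_nonneg (fun _ _ => Complex.normSq_nonneg _)]
  constructor
  · intro h
    funext l
    exact Complex.normSq_eq_zero.1 (h l (Finset.mem_univ l))
  · rintro rfl l _
    simp

theorem sq_pos {z : Fin (N + 1) → ℂ} (h : z ≠ 0) : 0 < sq z :=
  lt_of_le_of_ne (sq_nonneg z) (fun h0 => h (sq_eq_zero.1 h0.symm))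

theorem en_pos {z : Fin (N + 1) → ℂ} (h : z ≠ 0) : 0 < en z := Real.sqrt_pos.2 (sq_pos h)

theorem en_sq (z : Fin (N + 1) → ℂ) : en z ^ 2 = sq z := Real.sq_sqrt (sq_nonneg z)

theorem sq_smul (c : ℂ) (z : Fin (N + 1) → ℂ) : sq (c • z) = Complex.normSq c * sq z := by
  simp only [sq, Pi.smul_apply, smul_eq_mul, map_mul, Finset.mul_sum]

/-- normalization -/
noncomputable def unit (z : Fin (N + 1) → ℂ) : Fin (N + 1) → ℂ := ((en z : ℂ)⁻¹) • z

theorem sq_unit {z : Fin (N + 1) → ℂ} (h : z ≠ 0) : sq (unit z) = 1 := by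
  unfold unit
  rw [sq_smul, map_inv₀, Complex.normSq_ofReal, ← en_sq]
  have := (en_pos h).ne'
  field_simp

theorem smul_unit {z : Fin (N + 1) → ℂ} (h : z ≠ 0) : (en z : ℂ) • unit z = z := by
  unfold unit
  rw [smul_smul, mul_inv_cancel₀ (by exact_mod_cast (en_pos h).ne'), one_smul]

/-- the points of Euclidean norm one on the cone -/
def Sph (F : Fin m → CPoly N) : Set (Fin (N + 1) → ℂ) := {z | sq z = 1 ∧ OnCone F z}

theorem continuous_sq : Continuous (sq : (Fin (N + 1) → ℂ) → ℝ) :=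
  continuous_finsetSum _ fun l _ => Complex.continuous_normSq.comp (continuous_apply l)

theorem norm_le_one_of_sq {z : Fin (N + 1) → ℂ} (h : sq z = 1) : ‖z‖ ≤ 1 := by
  rw [pi_norm_le_iff_of_nonneg zero_le_one]
  intro l
  have h1 : Complex.normSq (z l) ≤ 1 := by
    rw [← h]
    exact Finset.single_le_sum (f := fun l => Complex.normSq (z l))
      (fun _ _ => Complex.normSq_nonneg _) (Finset.mem_univ l)
  rw [Complex.normSq_eq_norm_sq] at h1
  nlinarith [norm_nonneg (z l)]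

theorem isCompact_Sph (F : Fin m → CPoly N) : IsCompact (Sph F) := by
  refine Metric.isCompact_of_isClosed_isBounded ?_ ?_
  · refine IsClosed.inter (isClosed_eq continuous_sq continuous_const) ?_
    have h : {z : Fin (N + 1) → ℂ | OnCone F z} = ⋂ i, {z | eval z (F i) = 0} := by
      ext z
      simp [OnCone]
    change IsClosed {z : Fin (N + 1) → ℂ | OnCone F z}
    rw [h]
    exact isClosed_iInter fun i =>
      isClosed_eq (contDiff_eval (k := 0) (F i)).continuous continuous_const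
  · refine (Metric.isBounded_closedBall (x := (0 : Fin (N + 1) → ℂ)) (r := 1)).subset ?_
    intro z hz
    rw [mem_closedBall_zero_iff]
    exact norm_le_one_of_sq hz.1

theorem ne_zero_of_sq {z : Fin (N + 1) → ℂ} (h : sq z = 1) : z ≠ 0 := by
  rintro rfl
  have : sq (0 : Fin (N + 1) → ℂ) = 0 := sq_eq_zero.2 rfl
  rw [this] at h
  exact zero_ne_one h

theorem eval_smul_of_homogeneous {n d : ℕ} {P : MvPolynomial (Fin n) ℂ} (h : P.IsHomogeneous d)
    (c : ℂ) (z : Fin n → ℂ) : eval (c • z) P = c ^ d * eval z P := by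
  rw [eval_eq', eval_eq', Finset.mul_sum]
  refine Finset.sum_congr rfl fun u hu => ?_
  have h1 : ∑ i, u i = d := by
    have h2 := h (mem_support_iff.1 hu)
    rw [Finsupp.weight_apply, Finsupp.sum_fintype _ _ (by simp)] at h2
    simpa using h2
  simp only [Pi.smul_apply, smul_eq_mul, mul_pow, Finset.prod_mul_distrib,
    Finset.prod_pow_eq_pow_sum, h1]
  ring

theorem OnCone.smul {F : Fin m → CPoly N} (hF : ∀ i, ∃ d, (F i).IsHomogeneous d) (c : ℂ)
    {z : Fin (N + 1) → ℂ} (h : OnCone F z) : OnCone F (c • z) := by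
  intro i
  obtain ⟨d, hd⟩ := hF i
  rw [eval_smul_of_homogeneous hd, h i, mul_zero]

theorem homogeneous_conjEqs {F : Fin m → CPoly N} (hF : ∀ i, ∃ d, (F i).IsHomogeneous d)
    (β : ℂ ≃+* ℂ) : ∀ i, ∃ d, (conjEqs β F i).IsHomogeneous d := by
  intro i
  obtain ⟨d, hd⟩ := hF i
  exact ⟨d, hd.map _⟩

theorem unit_mem_Sph {F : Fin m → CPoly N} (hF : ∀ i, ∃ d, (F i).IsHomogeneous d)
    {z : Fin (N + 1) → ℂ} (h0 : z ≠ 0) (h : OnCone F z) : unit z ∈ Sph F :=
  ⟨sq_unit h0, OnCone.smul hF _ h⟩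

theorem Nrm_smul {F : Fin m → CPoly N} (hF : ∀ i, ∃ d, (F i).IsHomogeneous d) {c : ℂ}
    {z n : Fin (N + 1) → ℂ} (hn : n ∈ Nrm F (c • z)) : n ∈ Nrm F z := by
  refine (Submodule.span_le.2 ?_) hn
  rintro _ ⟨i, rfl⟩
  obtain ⟨d, hd⟩ := hF i
  have h1 : (fun l : Fin (N + 1) => conj (eval (c • z) (pderiv l (F i)))) =
      conj (c ^ (d - 1)) • fun l : Fin (N + 1) => conj (eval z (pderiv l (F i))) := by
    funext l
    rw [eval_smul_of_homogeneous hd.pderiv, map_mul]
    rfl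
  change (fun l : Fin (N + 1) => conj (eval (c • z) (pderiv l (F i)))) ∈ Nrm F z
  rw [h1]
  exact Submodule.smul_mem _ _ (Submodule.subset_span ⟨i, rfl⟩)

theorem RN.smul {F : Fin m → CPoly N} (hF : ∀ i, ∃ d, (F i).IsHomogeneous d) {β : ℂ ≃+* ℂ}
    {c : ℂ} (hc : c ≠ 0) {z n : Fin (N + 1) → ℂ} (h : RN F β z n) : RN F β (c • z) (c • n) := by
  refine ⟨?_, ?_⟩
  · have h1 : z = c⁻¹ • (c • z) := by rw [smul_smul, inv_mul_cancel₀ hc, one_smul]
    have h2 : n ∈ Nrm F (c⁻¹ • (c • z)) := by rw [← h1]; exact h.1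
    exact Submodule.smul_mem _ _ (Nrm_smul hF h2)
  · have h1 := OnCone.smul (homogeneous_conjEqs hF β) c h.2
    have h2 : (c • fun l => z l + n l) = fun l => (c • z) l + (c • n) l := by
      funext l
      simp only [Pi.smul_apply, smul_eq_mul, mul_add]
    rwa [h2] at h1

theorem RN_refl {F : Fin m → CPoly N} {z : Fin (N + 1) → ℂ} (hz : OnCone F z) :
    RN F (RingEquiv.refl ℂ) z 0 := by
  refine ⟨Submodule.zero_mem _, ?_⟩
  have h0 : ((RingEquiv.refl ℂ : ℂ ≃+* ℂ) : ℂ →+* ℂ) = RingHom.id ℂ := rfl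
  have h1 : conjEqs (RingEquiv.refl ℂ) F = F := by
    funext i
    simp only [conjEqs, h0, MvPolynomial.map_id]
  rw [h1]
  simpa using hz

theorem Cert.Valid.eventually {F : Fin m → CPoly N} {C : Cert F} {z : Fin (N + 1) → ℂ}
    (h : C.Valid z) : ∀ᶠ y in 𝓝 z, C.Valid y := by
  obtain ⟨K, hK, hKe⟩ := nv_bound (P := C.P) h.li
  have hne : ∀ᶠ y in 𝓝 z, eval y C.h ≠ 0 :=
    (contDiff_eval (k := 0) C.h).continuous.continuousAt.eventually_ne h.ne
  filter_upwards [hKe, hne] with y hy1 hy2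
  refine ⟨?_, hy2⟩
  rw [Fintype.linearIndependent_iff]
  intro c hc a
  have h1 : nv C.P y (fun a => conj (c a)) = 0 := by
    funext l
    have h2 := congrArg (starRingEnd ℂ) (congrFun hc l)
    simp only [Finset.sum_apply, Pi.smul_apply, smul_eq_mul, Pi.zero_apply, map_zero, map_sum,
      map_mul] at h2
    exact h2
  have h3 := hy1 (fun a => conj (c a))
  rw [h1, norm_zero, mul_zero] at h3
  have h4 := congrFun (norm_le_zero_iff.1 h3) a
  simpa using h4

/-- a finite set of coefficients is enough for all points -/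
theorem exists_X {F : Fin m → CPoly N} (hF : IsSmoothProjective F) (Y : Finset ℂ) :
    ∃ X : Finset ℂ, Y ⊆ X ∧ ∀ z ∈ Sph F, ∃ C : Cert F, C.Valid z ∧ Covers X F C := by
  classical
  have key : ∃ X : Finset ℂ, Y ⊆ X ∧ ∀ z ∈ Sph F, ∃ C : Cert F, C.Valid z ∧ Covers X F C := by
    refine (isCompact_Sph F).induction_on (p := fun s => ∃ X : Finset ℂ, Y ⊆ X ∧
      ∀ z ∈ s, ∃ C : Cert F, C.Valid z ∧ Covers X F C) ?_ ?_ ?_ ?_
    · exact ⟨Y, subset_rfl, by simp⟩
    · rintro s t hst ⟨X, h1, h2⟩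
      exact ⟨X, h1, fun z hz => h2 z (hst hz)⟩
    · rintro s t ⟨X, h1, h2⟩ ⟨X', h1', h2'⟩
      refine ⟨X ∪ X', h1.trans Finset.subset_union_left, ?_⟩
      rintro z (hz | hz)
      · obtain ⟨C, hC, hX⟩ := h2 z hz
        exact ⟨C, hC, fun i => (hX.F i).trans Finset.subset_union_left,
          hX.h.trans Finset.subset_union_left⟩
      · obtain ⟨C, hC, hX⟩ := h2' z hz
        exact ⟨C, hC, fun i => (hX.F i).trans Finset.subset_union_right,
          hX.h.trans Finset.subset_union_right⟩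
    · intro z hz
      obtain ⟨C, hC⟩ := exists_cert hF (ne_zero_of_sq hz.1) hz.2
      refine ⟨{y | C.Valid y}, mem_nhdsWithin_of_mem_nhds hC.eventually,
        Y ∪ (Finset.univ.biUnion fun i => (F i).coeffs) ∪ C.h.coeffs, ?_, ?_⟩
      · exact Finset.subset_union_left.trans Finset.subset_union_left
      · intro y hy
        refine ⟨C, hy, fun i => ?_, Finset.subset_union_right⟩
        refine Finset.Subset.trans ?_ Finset.subset_union_left
        refine Finset.Subset.trans ?_ Finset.subset_union_right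
        exact Finset.subset_biUnion_of_mem (fun i => (F i).coeffs) (Finset.mem_univ i)
  exact key

/-- the data needed for the canonical map -/
structure Good (F : Fin m → CPoly N) (X : Finset ℂ) (ρ : ℝ) : Prop where
  smooth : IsSmoothProjective F
  cert : ∀ z ∈ Sph F, ∃ C : Cert F, C.Valid z ∧ Covers X F C
  pos : 0 < ρ
  small : ρ ≤ 1 / (N + 1)
  uniq : ∀ β : ℂ ≃+* ℂ, dist (res X β) (inc X) < ρ → ∀ z ∈ Sph F, ∀ n n', ‖n‖ < ρ → ‖n'‖ < ρ →
    RN F β z n → RN F β z n' → n = n'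

theorem exists_good {F : Fin m → CPoly N} (hF : IsSmoothProjective F) (Y : Finset ℂ) :
    ∃ (X : Finset ℂ) (ρ : ℝ), Y ⊆ X ∧ Good F X ρ := by
  obtain ⟨X, hY, hX⟩ := exists_X hF Y
  have h1 := (isCompact_Sph F).eventually_forall_of_forall_eventually
    (x₀ := (inc X, ((0 : Fin (N + 1) → ℂ), (0 : Fin (N + 1) → ℂ))))
    (P := fun a z => ∀ β : ℂ ≃+* ℂ, res X β = a.1 → OnCone F z →
        RN F β z a.2.1 → RN F β z a.2.2 → a.2.1 = a.2.2) (by
      intro z hz
      obtain ⟨C, hC, hXC⟩ := hX z hz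
      exact local_unique C hXC hz.2 hC)
  obtain ⟨ε, hε, h2⟩ := Metric.eventually_nhds_iff.1 h1
  refine ⟨X, min ε (1 / (N + 1)), hY, hF, hX, lt_min hε (by positivity), min_le_right _ _, ?_⟩
  intro β hβ z hz n n' hn hn' h3 h4
  refine h2 (y := (res X β, (n, n'))) ?_ z hz β rfl hz.2 h3 h4
  rw [Prod.dist_eq, Prod.dist_eq]
  refine max_lt (hβ.trans_le (min_le_left _ _)) (max_lt ?_ ?_)
  · rw [dist_zero_right]
    exact hn.trans_le (min_le_left _ _)
  · rw [dist_zero_right]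
    exact hn'.trans_le (min_le_left _ _)

/-- a point of the unit sphere moved by a small vector is not zero -/
theorem add_ne_zero {ρ : ℝ} (hρ' : ρ ≤ 1 / (N + 1)) {z n : Fin (N + 1) → ℂ}
    (hz : sq z = 1) (hn : ‖n‖ < ρ) : z + n ≠ 0 := by
  intro h
  have h1 : z = -n := eq_neg_of_add_eq_zero_left h
  have h5 : 0 < sq z := by rw [hz]; exact one_pos
  have h6 : ‖n‖ < 1 / (N + 1) := hn.trans_le hρ'
  have h7 : sq z ≤ (N + 1) * ‖n‖ ^ 2 := by
    unfold sq
    have h3 : ∀ l, Complex.normSq (z l) ≤ ‖n‖ ^ 2 := by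
      intro l
      rw [Complex.normSq_eq_norm_sq, h1]
      have h4 : ‖(-n) l‖ ≤ ‖n‖ := by
        rw [Pi.neg_apply, norm_neg]
        exact norm_le_pi_norm n l
      exact pow_le_pow_left₀ (norm_nonneg _) h4 2
    calc ∑ l, Complex.normSq (z l) ≤ ∑ _l : Fin (N + 1), ‖n‖ ^ 2 :=
          Finset.sum_le_sum fun l _ => h3 l
      _ = (N + 1) * ‖n‖ ^ 2 := by simp
  have h8 : (N + 1) * ‖n‖ ^ 2 < 1 := by
    have h9 : (0 : ℝ) < N + 1 := by positivity
    have h10 : (N + 1) * ‖n‖ < 1 := by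
      rw [lt_div_iff₀ h9] at h6
      linarith
    have h11 : ‖n‖ < 1 := by
      have : (1 : ℝ) / (N + 1) ≤ 1 := by
        rw [div_le_one h9]
        have : (0 : ℝ) ≤ N := by positivity
        linarith
      linarith
    nlinarith [norm_nonneg n]
  linarith

/-- the canonical normal vector -/
noncomputable def nb (F : Fin m → CPoly N) (ρ : ℝ) (β : ℂ ≃+* ℂ) (z : Fin (N + 1) → ℂ) :
    Fin (N + 1) → ℂ :=
  open Classical in if h : ∃ n, ‖n‖ < ρ ∧ RN F β z n then h.choose else 0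

theorem Good.nb_eq {F : Fin m → CPoly N} {X : Finset ℂ} {ρ : ℝ} (hG : Good F X ρ)
    {β : ℂ ≃+* ℂ} (hβ : dist (res X β) (inc X) < ρ) {z n : Fin (N + 1) → ℂ} (hz : z ∈ Sph F)
    (hn : ‖n‖ < ρ) (h : RN F β z n) : nb F ρ β z = n := by
  classical
  have hex : ∃ n, ‖n‖ < ρ ∧ RN F β z n := ⟨n, hn, h⟩
  unfold nb
  rw [dif_pos hex]
  exact hG.uniq β hβ z hz _ _ hex.choose_spec.1 hn hex.choose_spec.2 h

/-- the canonical map on projective space (meaningful on the variety) -/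
noncomputable def Phi (F : Fin m → CPoly N) (ρ : ℝ) (β : ℂ ≃+* ℂ)
    (y : ℙ ℂ (Fin (N + 1) → ℂ)) : ℙ ℂ (Fin (N + 1) → ℂ) :=
  open Classical in
  if h : unit y.rep + nb F ρ β (unit y.rep) ≠ 0 then Projectivization.mk ℂ _ h else y

theorem Good.Phi_mk {F : Fin m → CPoly N} {X : Finset ℂ} {ρ : ℝ} (hG : Good F X ρ)
    {β : ℂ ≃+* ℂ} (hβ : dist (res X β) (inc X) < ρ) {v n : Fin (N + 1) → ℂ} (hv : v ≠ 0)
    (hvc : OnCone F v) (hn : ‖n‖ < ρ) (h : RN F β (unit v) n) :
    ∃ h' : v + (en v : ℂ) • n ≠ 0, Phi F ρ β (Projectivization.mk ℂ v hv) =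
      Projectivization.mk ℂ (v + (en v : ℂ) • n) h' := by
  classical
  have hhom := hG.smooth.homogeneous
  have henv : (en v : ℂ) ≠ 0 := by exact_mod_cast (en_pos hv).ne'
  have h1 : v + (en v : ℂ) • n = (en v : ℂ) • (unit v + n) := by
    rw [smul_add, smul_unit hv]
  have h2 : unit v + n ≠ 0 := add_ne_zero hG.small (sq_unit hv) hn
  have h3 : v + (en v : ℂ) • n ≠ 0 := by
    rw [h1]
    exact smul_ne_zero henv h2
  refine ⟨h3, ?_⟩
  set y := Projectivization.mk ℂ v hv with hy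
  have hrep0 : y.rep ≠ 0 := y.rep_nonzero
  obtain ⟨a, ha⟩ := Projectivization.exists_smul_eq_mk_rep ℂ v hv
  have ha' : (a : ℂ) • v = y.rep := ha
  have ha0 : (a : ℂ) ≠ 0 := a.ne_zero
  -- the unit representative
  have henr : (en y.rep : ℂ) ≠ 0 := by exact_mod_cast (en_pos hrep0).ne'
  let u : ℂ := (en y.rep : ℂ)⁻¹ * a * en v
  have hu : unit y.rep = u • unit v := by
    unfold unit
    rw [← ha', smul_smul, smul_smul]
    congr 1
    simp only [u]
    rw [← ha']
    field_simp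
  have hu0 : u ≠ 0 := mul_ne_zero (mul_ne_zero (inv_ne_zero henr) ha0) henv
  have hun : ‖u‖ = 1 := by
    have h4 := sq_unit hrep0
    rw [hu, sq_smul, sq_unit hv, mul_one, Complex.normSq_eq_norm_sq] at h4
    nlinarith [norm_nonneg u]
  have hS : u • unit v ∈ Sph F := by
    refine ⟨?_, OnCone.smul hhom _ (OnCone.smul hhom _ hvc)⟩
    rw [← hu]
    exact sq_unit hrep0
  have hnb : nb F ρ β (unit y.rep) = u • n := by
    rw [hu]
    refine hG.nb_eq hβ hS ?_ (RN.smul hhom hu0 h)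
    rw [norm_smul, hun, one_mul]
    exact hn
  have h5 : unit y.rep + nb F ρ β (unit y.rep) = (u * (en v : ℂ)⁻¹) • (v + (en v : ℂ) • n) := by
    rw [hnb, hu, h1, smul_smul, mul_assoc, inv_mul_cancel₀ henv, mul_one, smul_add]
  have h6 : u * (en v : ℂ)⁻¹ ≠ 0 := mul_ne_zero hu0 (inv_ne_zero henv)
  have h7 : unit y.rep + nb F ρ β (unit y.rep) ≠ 0 := by
    rw [h5]
    exact smul_ne_zero h6 h3
  unfold Phi
  rw [dif_pos h7, Projectivization.mk_eq_mk_iff']
  exact ⟨u * (en v : ℂ)⁻¹, h5.symm⟩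

end Pool.Agent.AHI
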