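import Mathlib
import Pool.Agent.AHI.Can

/-!
# Lifts of the simplices moved to the conjugate variety, smooth in the coefficients
-/

namespace Pool.Agent.AHI

open MvPolynomial Pool.Agent.AHC Filter
open scoped ContDiff ComplexConjugate Topology LinearAlgebra.Projectivization Manifold

variable {N m : ℕ}

theorem contDiff_normSq {k : WithTop ℕ∞} : ContDiff ℝ k fun z : ℂ => Complex.normSq z := by
  have h : (fun z : ℂ => Complex.normSq z) = fun z => z.re * z.re + z.im * z.im := by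
    funext z
    exact Complex.normSq_apply z
  rw [h]
  exact (Complex.reCLM.contDiff.mul Complex.reCLM.contDiff).add
    (Complex.imCLM.contDiff.mul Complex.imCLM.contDiff)

theorem contDiff_sq {k : WithTop ℕ∞} : ContDiff ℝ k (sq : (Fin (N + 1) → ℂ) → ℝ) := by
  unfold sq
  exact ContDiff.sum fun l _ => contDiff_normSq.comp (contDiff_apply ℝ ℂ l)

theorem contDiffAt_en {k : WithTop ℕ∞} {z : Fin (N + 1) → ℂ} (hz : z ≠ 0) :
    ContDiffAt ℝ k (fun z : Fin (N + 1) → ℂ => (en z : ℂ)) z := by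
  have h1 : ContDiffAt ℝ k (en : (Fin (N + 1) → ℂ) → ℝ) z :=
    (contDiff_sq.contDiffAt).sqrt (sq_pos hz).ne'
  exact Complex.ofRealCLM.contDiff.contDiffAt.comp z h1

theorem contDiffAt_unit {k : WithTop ℕ∞} {z : Fin (N + 1) → ℂ} (hz : z ≠ 0) :
    ContDiffAt ℝ k (unit : (Fin (N + 1) → ℂ) → (Fin (N + 1) → ℂ)) z := by
  unfold unit
  rw [contDiffAt_pi]
  intro l
  simp only [Pi.smul_apply, smul_eq_mul]
  refine ContDiffAt.mul ?_ (contDiff_apply ℝ ℂ l).contDiffAt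
  exact (contDiffAt_en hz).inv (by exact_mod_cast (en_pos hz).ne')

/-- local form of the smooth family of lifts -/
theorem local_lift {F : Fin m → CPoly N} {X : Finset ℂ} {ρ : ℝ} (hG : Good F X ρ) {q : ℕ}
    {v : (Fin (q + 1) → ℝ) → (Fin (N + 1) → ℂ)} (hv : ContDiff ℝ ∞ v)
    {t : Fin (q + 1) → ℝ} (hvt : v t ≠ 0) (hvc : OnCone F (v t)) :
    ∃ ε > 0, ∃ g : (X → ℂ) × (Fin (q + 1) → ℝ) → (Fin (N + 1) → ℂ),
      ContDiffOn ℝ ∞ g (Metric.ball (inc X) ε ×ˢ Metric.ball t ε) ∧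
      ∀ β : ℂ ≃+* ℂ, res X β ∈ Metric.ball (inc X) ε → ∀ t' ∈ Metric.ball t ε, OnCone F (v t') →
        v t' ≠ 0 ∧ ∃ n, ‖n‖ < ρ ∧ RN F β (unit (v t')) n ∧
          g (res X β, t') = v t' + (en (v t') : ℂ) • n := by
  have hS := unit_mem_Sph hG.smooth.homogeneous hvt hvc
  obtain ⟨C, hC, hX⟩ := hG.cert _ hS
  obtain ⟨ν, hν⟩ := local_exists C hX hS.2 hC hG.pos
  have hvcont : ContinuousAt v t := hv.continuous.continuousAt
  have hucont : ContinuousAt (fun t' => unit (v t')) t :=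
    ContinuousAt.comp (x := t) (g := unit) (contDiffAt_unit (k := 0) hvt).continuousAt hvcont
  have h1 : Tendsto (fun x : (X → ℂ) × (Fin (q + 1) → ℝ) => (x.1, unit (v x.2)))
      (𝓝 (inc X, t)) (𝓝 (inc X, unit (v t))) := by
    refine Tendsto.prodMk_nhds ?_ ?_
    · exact continuous_fst.continuousAt
    · exact hucont.tendsto.comp continuous_snd.continuousAt
  have h2 := h1.eventually hν
  have h3 : ∀ᶠ x : (X → ℂ) × (Fin (q + 1) → ℝ) in 𝓝 (inc X, t), v x.2 ≠ 0 := by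
    have h4 : Tendsto (fun x : (X → ℂ) × (Fin (q + 1) → ℝ) => v x.2) (𝓝 (inc X, t))
      (𝓝 (v t)) := hvcont.tendsto.comp continuous_snd.continuousAt
    exact h4.eventually_ne hvt
  obtain ⟨ε, hε, h4⟩ := Metric.eventually_nhds_iff.1 (h2.and h3)
  have hmem : ∀ x : (X → ℂ) × (Fin (q + 1) → ℝ), x.1 ∈ Metric.ball (inc X) ε →
      x.2 ∈ Metric.ball t ε → dist x (inc X, t) < ε := by
    intro x hx1 hx2
    rw [Prod.dist_eq]
    exact max_lt hx1 hx2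
  refine ⟨ε, hε, fun x => v x.2 + (en (v x.2) : ℂ) • ν (x.1, unit (v x.2)), ?_, ?_⟩
  · rintro x ⟨hx1, hx2⟩
    obtain ⟨⟨h5, -⟩, h6⟩ := h4 (hmem x hx1 hx2)
    refine ContDiffAt.contDiffWithinAt ?_
    have hv2 : ContDiffAt ℝ ∞ (fun x : (X → ℂ) × (Fin (q + 1) → ℝ) => v x.2) x :=
      hv.contDiffAt.comp x contDiffAt_snd
    refine ContDiffAt.add hv2 ?_
    have hen : ContDiffAt ℝ ∞ (fun x : (X → ℂ) × (Fin (q + 1) → ℝ) => (en (v x.2) : ℂ)) x :=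
      ContDiffAt.comp (g := fun z : Fin (N + 1) → ℂ => (en z : ℂ)) x (contDiffAt_en h6) hv2
    have hun : ContDiffAt ℝ ∞ (fun x : (X → ℂ) × (Fin (q + 1) → ℝ) => unit (v x.2)) x :=
      ContDiffAt.comp (g := unit) x (contDiffAt_unit h6) hv2
    have hνx : ContDiffAt ℝ ∞ (fun x : (X → ℂ) × (Fin (q + 1) → ℝ) => ν (x.1, unit (v x.2))) x :=
      ContDiffAt.comp (g := ν) x (h5.of_le (by simp)) (contDiffAt_fst.prodMk hun)
    rw [contDiffAt_pi] at hνx ⊢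
    intro l
    simp only [Pi.smul_apply, smul_eq_mul]
    exact hen.mul (hνx l)
  · intro β hβ t' ht' hc
    obtain ⟨⟨-, h5⟩, h6⟩ := h4 (hmem (res X β, t') hβ ht')
    refine ⟨h6, ν (res X β, unit (v t')), ?_⟩
    have h7 := h5 β rfl (OnCone.smul hG.smooth.homogeneous _ hc)
    exact ⟨h7.2, h7.1, rfl⟩

/-- a smooth family of lifts -/
theorem exists_V {F : Fin m → CPoly N} {X : Finset ℂ} {ρ : ℝ} (hG : Good F X ρ) {q : ℕ}
    {v : (Fin (q + 1) → ℝ) → (Fin (N + 1) → ℂ)} (hv : ContDiff ℝ ∞ v)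
    (hv0 : ∀ t ∈ stdSimplex ℝ (Fin (q + 1)), v t ≠ 0)
    (hvc : ∀ t ∈ stdSimplex ℝ (Fin (q + 1)), OnCone F (v t)) :
    ∃ δ > 0, ∃ V : (X → ℂ) × (Fin (q + 1) → ℝ) → (Fin (N + 1) → ℂ), ContDiff ℝ ∞ V ∧
      δ < ρ ∧ ∀ β : ℂ ≃+* ℂ, dist (res X β) (inc X) < δ → ∀ t ∈ stdSimplex ℝ (Fin (q + 1)),
        ∃ n, ‖n‖ < ρ ∧ RN F β (unit (v t)) n ∧ V (res X β, t) = v t + (en (v t) : ℂ) • n := by
  set K := stdSimplex ℝ (Fin (q + 1)) with hK
  have key : ∃ δ > 0, ∀ t ∈ K, ∃ ε > 0, ∃ g : (X → ℂ) × (Fin (q + 1) → ℝ) → (Fin (N + 1) → ℂ),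
      ContDiffOn ℝ ∞ g (Metric.ball (inc X) δ ×ˢ Metric.ball t ε) ∧
      ∀ β : ℂ ≃+* ℂ, res X β ∈ Metric.ball (inc X) δ → ∀ t' ∈ Metric.ball t ε, t' ∈ K →
        ∃ n, ‖n‖ < ρ ∧ RN F β (unit (v t')) n ∧ g (res X β, t') = v t' + (en (v t') : ℂ) • n := by
    refine (isCompact_stdSimplex ℝ (Fin (q + 1))).induction_on (p := fun s => ∃ δ > 0, ∀ t ∈ s,
      ∃ ε > 0, ∃ g : (X → ℂ) × (Fin (q + 1) → ℝ) → (Fin (N + 1) → ℂ),
      ContDiffOn ℝ ∞ g (Metric.ball (inc X) δ ×ˢ Metric.ball t ε) ∧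
      ∀ β : ℂ ≃+* ℂ, res X β ∈ Metric.ball (inc X) δ → ∀ t' ∈ Metric.ball t ε, t' ∈ K →
        ∃ n, ‖n‖ < ρ ∧ RN F β (unit (v t')) n ∧ g (res X β, t') = v t' + (en (v t') : ℂ) • n)
      ?_ ?_ ?_ ?_
    · exact ⟨1, one_pos, by simp⟩
    · rintro s s' hs ⟨δ, hδ, h⟩
      exact ⟨δ, hδ, fun t ht => h t (hs ht)⟩
    · rintro s s' ⟨δ, hδ, h⟩ ⟨δ', hδ', h'⟩
      refine ⟨min δ δ', lt_min hδ hδ', ?_⟩
      rintro t (ht | ht)
      · obtain ⟨ε, hε, g, h1, h2⟩ := h t ht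
        refine ⟨ε, hε, g, h1.mono (Set.prod_mono (Metric.ball_subset_ball (min_le_left _ _))
          subset_rfl), fun β hβ => h2 β (Metric.ball_subset_ball (min_le_left _ _) hβ)⟩
      · obtain ⟨ε, hε, g, h1, h2⟩ := h' t ht
        refine ⟨ε, hε, g, h1.mono (Set.prod_mono (Metric.ball_subset_ball (min_le_right _ _))
          subset_rfl), fun β hβ => h2 β (Metric.ball_subset_ball (min_le_right _ _) hβ)⟩
    · intro t ht
      obtain ⟨ε, hε, g, h1, h2⟩ := local_lift hG hv (hv0 t ht) (hvc t ht)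
      refine ⟨Metric.ball t (ε / 2), mem_nhdsWithin_of_mem_nhds (Metric.ball_mem_nhds _
        (by positivity)), ε, hε, ?_⟩
      intro t1 ht1
      have hsub : Metric.ball t1 (ε / 2) ⊆ Metric.ball t ε := by
        intro t2 ht2
        have h3 := dist_triangle t2 t1 t
        rw [Metric.mem_ball] at ht1 ht2 ⊢
        linarith
      refine ⟨ε / 2, by positivity, g, h1.mono (Set.prod_mono subset_rfl hsub), ?_⟩
      intro β hβ t' ht' ht'K
      exact (h2 β hβ t' (hsub ht') (hvc t' ht'K)).2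
  obtain ⟨δ0, hδ0, hloc0⟩ := key
  have hρ := hG.pos
  set δ := min δ0 (ρ / 2) with hδdef
  have hδ : 0 < δ := lt_min hδ0 (by positivity)
  have hδρ : δ < ρ := (min_le_right _ _).trans_lt (by linarith)
  have hδδ0 : δ ≤ δ0 := min_le_left _ _
  -- the constraint sets
  let T : (X → ℂ) × (Fin (q + 1) → ℝ) → Set (Fin (N + 1) → ℂ) := fun x =>
    {y | ∀ β : ℂ ≃+* ℂ, res X β = x.1 → x.1 ∈ Metric.closedBall (inc X) (δ / 2) → x.2 ∈ K →
      ∀ n, ‖n‖ < ρ → RN F β (unit (v x.2)) n → y = v x.2 + (en (v x.2) : ℂ) • n}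
  have hT : ∀ x, Convex ℝ (T x) := by
    intro x y hy y' hy' a b _ _ hab β h1 h2 h3 n h4 h5
    rw [hy β h1 h2 h3 n h4 h5, hy' β h1 h2 h3 n h4 h5, ← add_smul, hab, one_smul]
  have hHloc : ∀ x : (X → ℂ) × (Fin (q + 1) → ℝ), ∃ U ∈ 𝓝 x,
      ∃ g : (X → ℂ) × (Fin (q + 1) → ℝ) → (Fin (N + 1) → ℂ),
        ContMDiffOn 𝓘(ℝ, (X → ℂ) × (Fin (q + 1) → ℝ)) 𝓘(ℝ, Fin (N + 1) → ℂ)
          ((⊤ : ℕ∞) : WithTop ℕ∞) g U ∧ ∀ y ∈ U, g y ∈ T y := by
    intro x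
    by_cases hx : x.1 ∈ Metric.closedBall (inc X) (δ / 2) ∧ x.2 ∈ K
    · obtain ⟨ε, hε, g, h1, h2⟩ := hloc0 x.2 hx.2
      refine ⟨Metric.ball (inc X) δ ×ˢ Metric.ball x.2 ε, ?_, g, ?_, ?_⟩
      · refine prod_mem_nhds ?_ (Metric.ball_mem_nhds _ hε)
        refine Metric.isOpen_ball.mem_nhds ?_
        rw [Metric.mem_ball]
        have := Metric.mem_closedBall.1 hx.1
        linarith
      · rw [contMDiffOn_iff_contDiffOn]
        exact h1.mono (Set.prod_mono (Metric.ball_subset_ball hδδ0) subset_rfl)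
      · rintro ⟨θ, t⟩ ⟨hθ, ht⟩ β hβ _ htK n hn hRN
        have hβ' : res X β = θ := hβ
        obtain ⟨n', h3, h4, h5⟩ := h2 β (by rw [hβ']; exact Metric.ball_subset_ball hδδ0 hθ) t ht
          htK
        have hS := unit_mem_Sph hG.smooth.homogeneous (hv0 t htK) (hvc t htK)
        have h6 : n = n' := hG.uniq β (by rw [hβ']; exact (Metric.mem_ball.1 hθ).trans hδρ) _ hS
          n n' hn h3 hRN h4
        rw [h6, ← hβ']
        exact h5
    · refine ⟨{y | ¬ (y.1 ∈ Metric.closedBall (inc X) (δ / 2) ∧ y.2 ∈ K)}, ?_, fun _ => 0,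
        contMDiffOn_const, ?_⟩
      · refine IsOpen.mem_nhds ?_ hx
        have : IsClosed {y : (X → ℂ) × (Fin (q + 1) → ℝ) |
            y.1 ∈ Metric.closedBall (inc X) (δ / 2) ∧ y.2 ∈ K} :=
          (Metric.isClosed_closedBall.preimage continuous_fst).inter
            ((isClosed_stdSimplex ℝ (Fin (q + 1))).preimage continuous_snd)
        exact this.isOpen_compl
      · rintro y hy β _ h1 h2
        exact absurd ⟨h1, h2⟩ hy
  obtain ⟨V, hV⟩ := exists_contMDiffMap_forall_mem_convex_of_local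
    (I := 𝓘(ℝ, (X → ℂ) × (Fin (q + 1) → ℝ))) (F := Fin (N + 1) → ℂ) (n := (⊤ : ℕ∞)) hT hHloc
  refine ⟨δ / 2, by positivity, V, ?_, by linarith, ?_⟩
  · have h1 := V.contMDiff
    rw [contMDiff_iff_contDiff] at h1
    exact h1
  · intro β hβ t ht
    obtain ⟨ε, hε, g, -, h2⟩ := hloc0 t ht
    obtain ⟨n, h3, h4, -⟩ := h2 β (Metric.mem_ball.2 (by linarith)) t (Metric.mem_ball_self hε) ht
    exact ⟨n, h3, h4, hV (res X β, t) β rfl (Metric.mem_closedBall.2 hβ.le) ht n h3 h4⟩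

theorem res_refl (X : Finset ℂ) : res X (RingEquiv.refl ℂ) = inc X := rfl

/-- a smooth family of lifts: full statement -/
theorem exists_family {F : Fin m → CPoly N} {X : Finset ℂ} {ρ : ℝ} (hG : Good F X ρ)
    {p : ℕ} {I : Fin (p + 1) → Fin (N + 1)} {q : ℕ} {s : Simplex N q}
    {v : (Fin (q + 1) → ℝ) → (Fin (N + 1) → ℂ)} (hv : IsLift F I s v) :
    ∃ V : (X → ℂ) × (Fin (q + 1) → ℝ) → (Fin (N + 1) → ℂ), ContDiff ℝ ∞ V ∧
      (∀ t ∈ stdSimplex ℝ (Fin (q + 1)), V (inc X, t) = v t) ∧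
      ∀ᶠ θ in 𝓝 (inc X), ∀ β : ℂ ≃+* ℂ, res X β = θ →
        IsLift (conjEqs β F) I (fun t => Phi F ρ β (s t)) (fun t => V (θ, t)) := by
  have hv0 : ∀ t ∈ stdSimplex ℝ (Fin (q + 1)), v t ≠ 0 := fun t ht =>
    (hv.lifts ⟨t, ht⟩).1
  obtain ⟨δ, hδ, V, hV, hδρ, h1⟩ := exists_V hG hv.smooth hv0 hv.onCone
  have hinc : ∀ t ∈ stdSimplex ℝ (Fin (q + 1)), V (inc X, t) = v t := by
    intro t ht
    obtain ⟨n, h2, h3, h4⟩ := h1 (RingEquiv.refl ℂ) (by rw [res_refl, dist_self]; exact hδ) t ht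
    have hS := unit_mem_Sph hG.smooth.homogeneous (hv0 t ht) (hv.onCone t ht)
    have h5 : n = 0 := hG.uniq (RingEquiv.refl ℂ) (by rw [res_refl, dist_self]; exact hG.pos) _ hS
      n 0 h2 (by rw [norm_zero]; exact hG.pos) h3 (RN_refl hS.2)
    rw [res_refl] at h4
    rw [h4, h5, smul_zero, add_zero]
  refine ⟨V, hV, hinc, ?_⟩
  have h2 : ∀ᶠ θ in 𝓝 (inc X), ∀ t ∈ stdSimplex ℝ (Fin (q + 1)), ∀ a, V (θ, t) (I a) ≠ 0 := by
    refine (isCompact_stdSimplex ℝ (Fin (q + 1))).eventually_forall_of_forall_eventually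
      (P := fun θ t => ∀ a, V (θ, t) (I a) ≠ 0) ?_
    intro t ht
    rw [Filter.eventually_all]
    intro a
    have h3 : Continuous fun x : (X → ℂ) × (Fin (q + 1) → ℝ) => V x (I a) :=
      (continuous_apply (I a)).comp hV.continuous
    refine h3.continuousAt.eventually_ne ?_
    rw [hinc t ht]
    exact hv.inOpen t ht a
  filter_upwards [h2, Metric.ball_mem_nhds (inc X) hδ] with θ h3 h4 β hβ
  have h5 : dist (res X β) (inc X) < δ := by rw [hβ]; exact h4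
  refine ⟨?_, ?_, h3, ?_⟩
  · exact hV.comp (contDiff_const.prodMk contDiff_id)
  · intro t ht
    obtain ⟨n, h6, h7, h8⟩ := h1 β h5 t ht
    rw [← hβ]
    rw [h8]
    have h9 : v t + (en (v t) : ℂ) • n = (en (v t) : ℂ) • fun l => unit (v t) l + n l := by
      have h10 : (fun l => unit (v t) l + n l) = unit (v t) + n := rfl
      rw [h10, smul_add, smul_unit (hv0 t ht)]
    rw [h9]
    exact OnCone.smul (homogeneous_conjEqs hG.smooth.homogeneous β) _ h7.2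
  · intro t
    obtain ⟨n, h6, h7, h8⟩ := h1 β h5 t t.2
    obtain ⟨h9, h10⟩ := hv.lifts t
    obtain ⟨h11, h12⟩ := hG.Phi_mk (h5.trans hδρ) h9 (hv.onCone t t.2) h6 h7
    rw [← hβ]
    simp only [h8, h10]
    exact ⟨h11, h12⟩

end Pool.Agent.AHI
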