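import Mathlib
import Pool.Agent.AHI.Lft

/-!
# Convergence of the integrals
-/

namespace Pool.Agent.AHI

open MvPolynomial Pool.Agent.AHC Filter MeasureTheory
open scoped ContDiff ComplexConjugate Topology LinearAlgebra.Projectivization

variable {N m q : ℕ}

/-- continuity of an integral depending on a parameter, over a compact set -/
theorem tendsto_setIntegral_of_continuousOn {E : Type} [NormedAddCommGroup E]
    {Φ : E × (Fin q → ℝ) → ℂ} {O : Set (E × (Fin q → ℝ))} (hO : IsOpen O)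
    (hΦ : ContinuousOn Φ O) {θ₀ : E} {K : Set (Fin q → ℝ)} (hK : IsCompact K)
    (h : ∀ t ∈ K, (θ₀, t) ∈ O) :
    Tendsto (fun θ => ∫ t in K, Φ (θ, t)) (𝓝 θ₀) (𝓝 (∫ t in K, Φ (θ₀, t))) := by
  have hc0 : ContinuousOn (fun t => Φ (θ₀, t)) K :=
    hΦ.comp (Continuous.continuousOn (by fun_prop)) h
  obtain ⟨M, hM⟩ := (hK.image_of_continuousOn hc0.norm).bddAbove
  have hM' : ∀ t ∈ K, ‖Φ (θ₀, t)‖ ≤ M := fun t ht => hM ⟨t, ht, rfl⟩
  have h1 : ∀ᶠ θ in 𝓝 θ₀, ∀ t ∈ K, (θ, t) ∈ O ∧ ‖Φ (θ, t)‖ < M + 1 := by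
    refine hK.eventually_forall_of_forall_eventually
      (P := fun θ t => (θ, t) ∈ O ∧ ‖Φ (θ, t)‖ < M + 1) ?_
    intro t ht
    have h2 : ∀ᶠ x in 𝓝 (θ₀, t), x ∈ O := hO.mem_nhds (h t ht)
    have h3 : ContinuousAt (fun x => ‖Φ x‖) (θ₀, t) :=
      (hΦ.continuousAt (hO.mem_nhds (h t ht))).norm
    have h4 : ∀ᶠ x in 𝓝 (θ₀, t), ‖Φ x‖ < M + 1 :=
      h3.eventually_lt_const (by have := hM' t ht; linarith)
    exact h2.and h4
  have hKm : MeasurableSet K := hK.measurableSet
  refine tendsto_integral_filter_of_dominated_convergence (fun _ => M + 1) ?_ ?_ ?_ ?_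
  · filter_upwards [h1] with θ hθ
    refine ContinuousOn.aestronglyMeasurable ?_ hKm
    exact hΦ.comp (Continuous.continuousOn (by fun_prop)) fun t ht => (hθ t ht).1
  · filter_upwards [h1] with θ hθ
    filter_upwards [ae_restrict_mem hKm] with t ht
    exact (hθ t ht).2.le
  · rw [integrable_const_iff]
    right
    rw [isFiniteMeasure_restrict]
    exact hK.measure_lt_top.ne
  · filter_upwards [ae_restrict_mem hKm] with t ht
    have h2 : ContinuousAt Φ (θ₀, t) := hΦ.continuousAt (hO.mem_nhds (h t ht))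
    have h3 : Tendsto (fun θ : E => (θ, t)) (𝓝 θ₀) (𝓝 (θ₀, t)) :=
      (Continuous.tendsto (by fun_prop) θ₀)
    exact h2.tendsto.comp h3

theorem contDiff_bary {k : WithTop ℕ∞} : ContDiff ℝ k (bary : (Fin q → ℝ) → (Fin (q + 1) → ℝ)) := by
  rw [contDiff_pi]
  intro i
  unfold bary
  refine Fin.cases ?_ (fun j => ?_) i
  · simp only [Fin.cons_zero]
    exact contDiff_const.sub (ContDiff.sum fun i _ => contDiff_apply ℝ ℝ i)
  · simp only [Fin.cons_succ]
    exact contDiff_apply ℝ ℝ j

theorem bary_mem {t : Fin q → ℝ} (ht : t ∈ simplexDomain q) :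
    bary t ∈ stdSimplex ℝ (Fin (q + 1)) := by
  constructor
  · intro i
    unfold bary
    refine Fin.cases ?_ (fun j => ?_) i
    · simp only [Fin.cons_zero]
      linarith [ht.2]
    · simp only [Fin.cons_succ]
      exact ht.1 j
  · unfold bary
    rw [Fin.sum_univ_succ]
    simp

theorem isClosed_simplexDomain : IsClosed (simplexDomain q) := by
  have h1 : simplexDomain q = (⋂ i, {t : Fin q → ℝ | 0 ≤ t i}) ∩ {t | ∑ i, t i ≤ 1} := by
    ext t
    simp [simplexDomain]
  rw [h1]
  refine IsClosed.inter (isClosed_iInter fun i => isClosed_le continuous_const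
    (continuous_apply i)) ?_
  exact isClosed_le (continuous_finsetSum _ fun i _ => continuous_apply i) continuous_const

theorem isCompact_simplexDomain : IsCompact (simplexDomain q) := by
  refine Metric.isCompact_of_isClosed_isBounded isClosed_simplexDomain ?_
  refine (Metric.isBounded_closedBall (x := (0 : Fin q → ℝ)) (r := 1)).subset ?_
  intro t ht
  rw [mem_closedBall_zero_iff, pi_norm_le_iff_of_nonneg zero_le_one]
  intro i
  rw [Real.norm_eq_abs, abs_of_nonneg (ht.1 i)]
  exact (Finset.single_le_sum (f := t) (fun j _ => ht.1 j) (Finset.mem_univ i)).trans ht.2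

theorem convex_simplexDomain : Convex ℝ (simplexDomain q) := by
  intro x hx y hy a b ha hb hab
  refine ⟨fun i => ?_, ?_⟩
  · simp only [Pi.add_apply, Pi.smul_apply, smul_eq_mul]
    exact add_nonneg (mul_nonneg ha (hx.1 i)) (mul_nonneg hb (hy.1 i))
  · simp only [Pi.add_apply, Pi.smul_apply, smul_eq_mul, Finset.sum_add_distrib,
      ← Finset.mul_sum]
    nlinarith [hx.2, hy.2]

theorem ae_mem_interior :
    ∀ᵐ t ∂(volume.restrict (simplexDomain q)), t ∈ interior (simplexDomain q) := by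
  have h1 : volume (frontier (simplexDomain q)) = 0 := convex_simplexDomain.addHaar_frontier _
  have h2 : ∀ᵐ t ∂(volume.restrict (simplexDomain q)), t ∉ frontier (simplexDomain q) :=
    ae_restrict_of_ae (measure_eq_zero_iff_ae_notMem.1 h1)
  filter_upwards [h2, ae_restrict_mem isClosed_simplexDomain.measurableSet] with t ht1 ht2
  by_contra h3
  exact ht1 ⟨subset_closure ht2, h3⟩

/-- the integral depends only on the lift over the simplex -/
theorem termIntegral_congr {f : RatFun N} {g : Fin q → RatFun N}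
    {v v' : (Fin (q + 1) → ℝ) → (Fin (N + 1) → ℂ)}
    (h : ∀ t ∈ stdSimplex ℝ (Fin (q + 1)), v t = v' t) :
    termIntegral f g v = termIntegral f g v' := by
  unfold termIntegral
  refine integral_congr_ae ?_
  filter_upwards [ae_mem_interior] with t ht
  have h1 : ∀ᶠ s in 𝓝 t, s ∈ simplexDomain q := mem_interior_iff_mem_nhds.1 ht
  have h2 : ∀ b, (fun s : Fin q → ℝ => (g b).val (v (bary s))) =ᶠ[𝓝 t]
      fun s => (g b).val (v' (bary s)) := by
    intro b
    filter_upwards [h1] with s hs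
    rw [h _ (bary_mem hs)]
  rw [h _ (bary_mem (interior_subset ht))]
  congr 2
  ext a b
  simp only [Matrix.of_apply]
  rw [(h2 b).fderiv_eq]

theorem formIntegral_congr {w : AlgForm N q} {v v' : (Fin (q + 1) → ℝ) → (Fin (N + 1) → ℂ)}
    (h : ∀ t ∈ stdSimplex ℝ (Fin (q + 1)), v t = v' t) :
    formIntegral w v = formIntegral w v' := by
  unfold formIntegral
  congr 1
  exact List.map_congr_left fun x _ => termIntegral_congr h

/-- the value of a rational function with changed coefficients -/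
noncomputable def valE (X : Finset ℂ) (f : RatFun N) (θ : X → ℂ) (z : Fin (N + 1) → ℂ) : ℂ :=
  ev f.num (ext X θ) z / ∏ i, z i ^ f.den i

theorem valE_res {X : Finset ℂ} {f : RatFun N} (hf : f.num.coeffs ⊆ X) (β : ℂ ≃+* ℂ)
    (z : Fin (N + 1) → ℂ) : valE X f (res X β) z = (f.conj β).val z := by
  unfold valE RatFun.val RatFun.conj
  rw [ev_res β hf]

/-- the term integral with changed coefficients -/
noncomputable def TI (X : Finset ℂ) (f : RatFun N) (g : Fin q → RatFun N) (θ : X → ℂ)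
    (v : (Fin (q + 1) → ℝ) → (Fin (N + 1) → ℂ)) : ℂ :=
  ∫ t in simplexDomain q, valE X f θ (v (bary t)) *
    Matrix.det (Matrix.of fun a b : Fin q =>
      fderiv ℝ (fun s : Fin q → ℝ => valE X (g b) θ (v (bary s))) t (Pi.single a 1))

theorem TI_res {X : Finset ℂ} {f : RatFun N} {g : Fin q → RatFun N} (hf : f.num.coeffs ⊆ X)
    (hg : ∀ b, (g b).num.coeffs ⊆ X) (β : ℂ ≃+* ℂ)
    (v : (Fin (q + 1) → ℝ) → (Fin (N + 1) → ℂ)) :
    TI X f g (res X β) v = termIntegral (f.conj β) (fun b => (g b).conj β) v := by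
  unfold TI termIntegral
  simp only [valE_res hf, valE_res (hg _)]

/-- the composition of a rational function with the family of lifts -/
theorem contDiffAt_valE {X : Finset ℂ} {f : RatFun N} {p : ℕ} {I : Fin (p + 1) → Fin (N + 1)}
    (hf : f.IsRegularOn I) {V : (X → ℂ) × (Fin (q + 1) → ℝ) → (Fin (N + 1) → ℂ)}
    (hV : ContDiff ℝ ∞ V) {x : (X → ℂ) × (Fin q → ℝ)}
    (hx : ∀ a, V (x.1, bary x.2) (I a) ≠ 0) :
    ContDiffAt ℝ ∞ (fun x : (X → ℂ) × (Fin q → ℝ) => valE X f x.1 (V (x.1, bary x.2))) x := by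
  have h1 : ContDiff ℝ ∞ fun x : (X → ℂ) × (Fin q → ℝ) => V (x.1, bary x.2) :=
    hV.comp (contDiff_fst.prodMk (contDiff_bary.comp contDiff_snd))
  unfold valE
  have h2 : ContDiff ℝ ∞ fun x : (X → ℂ) × (Fin q → ℝ) =>
      ev f.num (ext X x.1) (V (x.1, bary x.2)) :=
    (contDiff_ev X f.num).comp (contDiff_fst.prodMk h1)
  have h3 : ContDiff ℝ ∞ fun x : (X → ℂ) × (Fin q → ℝ) =>
      ∏ i, V (x.1, bary x.2) i ^ f.den i :=
    contDiff_prod fun i _ => ((contDiff_apply ℝ ℂ i).comp h1).pow _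
  have h4 : ∏ i, V (x.1, bary x.2) i ^ f.den i ≠ 0 := by
    rw [Finset.prod_ne_zero_iff]
    intro i _
    by_cases hi : f.den i = 0
    · rw [hi, pow_zero]
      exact one_ne_zero
    · obtain ⟨a, rfl⟩ := hf.2 i hi
      exact pow_ne_zero _ (hx a)
  simp only [div_eq_mul_inv]
  exact h2.contDiffAt.mul (h3.contDiffAt.inv h4)

theorem tendsto_TI {X : Finset ℂ} {f : RatFun N} {g : Fin q → RatFun N} {p : ℕ}
    {I : Fin (p + 1) → Fin (N + 1)} (hf : f.IsRegularOn I) (hg : ∀ b, (g b).IsRegularOn I)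
    {V : (X → ℂ) × (Fin (q + 1) → ℝ) → (Fin (N + 1) → ℂ)} (hV : ContDiff ℝ ∞ V)
    (hne : ∀ t ∈ stdSimplex ℝ (Fin (q + 1)), ∀ a, V (inc X, t) (I a) ≠ 0) :
    Tendsto (fun θ => TI X f g θ fun t => V (θ, t)) (𝓝 (inc X))
      (𝓝 (TI X f g (inc X) fun t => V (inc X, t))) := by
  let O : Set ((X → ℂ) × (Fin q → ℝ)) := {x | ∀ a, V (x.1, bary x.2) (I a) ≠ 0}
  have h1 : Continuous fun x : (X → ℂ) × (Fin q → ℝ) => V (x.1, bary x.2) :=
    hV.continuous.comp (continuous_fst.prodMk
      ((contDiff_bary (k := 0)).continuous.comp continuous_snd))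
  have hO : IsOpen O := by
    have : O = ⋂ a, {x | V (x.1, bary x.2) (I a) ≠ 0} := by
      ext x
      simp [O]
    rw [this]
    exact isOpen_iInter_of_finite fun a =>
      isOpen_ne_fun ((continuous_apply (I a)).comp h1) continuous_const
  let G : Fin q → (X → ℂ) × (Fin q → ℝ) → ℂ := fun b x => valE X (g b) x.1 (V (x.1, bary x.2))
  have hG : ∀ b, ContDiffOn ℝ ∞ (G b) O := fun b x hx =>
    (contDiffAt_valE (hg b) hV hx).contDiffWithinAt
  have hA : ContinuousOn (fun x : (X → ℂ) × (Fin q → ℝ) => valE X f x.1 (V (x.1, bary x.2))) O :=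
    fun x hx => (contDiffAt_valE hf hV hx).continuousAt.continuousWithinAt
  have hB : ∀ b, ContinuousOn (fun x => fderiv ℝ (G b) x) O := fun b =>
    (hG b).continuousOn_fderiv_of_isOpen hO (by simp)
  have hfd : ∀ b, ∀ x ∈ O, ∀ a : Fin q,
      fderiv ℝ (fun s : Fin q → ℝ => valE X (g b) x.1 (V (x.1, bary s))) x.2 (Pi.single a 1) =
        fderiv ℝ (G b) x (0, Pi.single a 1) := by
    intro b x hx a
    have h2 : HasFDerivAt (G b) (fderiv ℝ (G b) x) (x.1, x.2) :=
      ((contDiffAt_valE (hg b) hV hx).differentiableAt (by simp)).hasFDerivAt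
    have h3 : HasFDerivAt (fun s : Fin q → ℝ => (x.1, s))
        (ContinuousLinearMap.inr ℝ (X → ℂ) (Fin q → ℝ)) x.2 := hasFDerivAt_prodMk_right x.1 x.2
    have h4 := h2.comp x.2 h3
    have h5 : (fun s : Fin q → ℝ => valE X (g b) x.1 (V (x.1, bary s))) =
        G b ∘ fun s : Fin q → ℝ => (x.1, s) := rfl
    rw [h5, h4.fderiv]
    rfl
  let Φ : (X → ℂ) × (Fin q → ℝ) → ℂ := fun x => valE X f x.1 (V (x.1, bary x.2)) *
    Matrix.det (Matrix.of fun a b : Fin q => fderiv ℝ (G b) x (0, Pi.single a 1))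
  have hΦ : ContinuousOn Φ O := by
    refine hA.mul ?_
    rw [continuousOn_iff_continuous_domRestrict]
    refine Continuous.matrix_det ?_
    refine continuous_matrix fun a b => ?_
    have h6 := continuousOn_iff_continuous_domRestrict.1 ((hB b).clm_apply
      (continuousOn_const (c := ((0 : X → ℂ), (Pi.single a 1 : Fin q → ℝ)))))
    exact h6
  have hmem : ∀ t ∈ simplexDomain q, (inc X, t) ∈ O := fun t ht a => hne _ (bary_mem ht) a
  have h7 := tendsto_setIntegral_of_continuousOn hO hΦ isCompact_simplexDomain hmem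
  have h8 : ∀ᶠ θ in 𝓝 (inc X), ∀ t ∈ simplexDomain q, (θ, t) ∈ O := by
    refine isCompact_simplexDomain.eventually_forall_of_forall_eventually
      (P := fun θ t => (θ, t) ∈ O) fun t ht => hO.mem_nhds (hmem t ht)
  have h9 : ∀ θ, (∀ t ∈ simplexDomain q, (θ, t) ∈ O) →
      ∫ t in simplexDomain q, Φ (θ, t) = TI X f g θ fun t => V (θ, t) := by
    intro θ hθ
    unfold TI
    refine setIntegral_congr_fun isClosed_simplexDomain.measurableSet fun t ht => ?_
    simp only [Φ]
    congr 2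
    ext a b
    simp only [Matrix.of_apply]
    exact (hfd b (θ, t) (hθ t ht) a).symm
  rw [← h9 _ hmem]
  refine h7.congr' ?_
  filter_upwards [h8] with θ hθ
  exact h9 θ hθ

/-- the filter of automorphisms close to the identity (pointwise, in the usual topology) -/
noncomputable def nearId : Filter (ℂ ≃+* ℂ) := comap (fun β : ℂ ≃+* ℂ => (β : ℂ → ℂ)) (𝓝 id)

theorem tendsto_res (X : Finset ℂ) : Tendsto (res X) nearId (𝓝 (inc X)) := by
  rw [tendsto_pi_nhds]
  intro x
  have h1 : Tendsto (fun β : ℂ ≃+* ℂ => (β : ℂ → ℂ)) nearId (𝓝 id) := tendsto_comap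
  exact (tendsto_pi_nhds.1 h1) x

/-- convergence of the integrals of the conjugate forms over the moved simplices -/
theorem tendsto_formIntegral {X : Finset ℂ} {w : AlgForm N q} {p : ℕ}
    {I : Fin (p + 1) → Fin (N + 1)}
    (hreg : ∀ x ∈ w, x.1.IsRegularOn I ∧ ∀ b, (x.2 b).IsRegularOn I)
    (hcoef : ∀ x ∈ w, x.1.num.coeffs ⊆ X ∧ ∀ b, (x.2 b).num.coeffs ⊆ X)
    {V : (X → ℂ) × (Fin (q + 1) → ℝ) → (Fin (N + 1) → ℂ)} (hV : ContDiff ℝ ∞ V)
    {v : (Fin (q + 1) → ℝ) → (Fin (N + 1) → ℂ)}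
    (hVv : ∀ t ∈ stdSimplex ℝ (Fin (q + 1)), V (inc X, t) = v t)
    (hne : ∀ t ∈ stdSimplex ℝ (Fin (q + 1)), ∀ a, v t (I a) ≠ 0) :
    Tendsto (fun β : ℂ ≃+* ℂ => formIntegral
      (w.map fun x => (x.1.conj β, fun b => (x.2 b).conj β)) fun t => V (res X β, t)) nearId
      (𝓝 (formIntegral w v)) := by
  induction w with
  | nil => simpa [formIntegral] using tendsto_const_nhds
  | cons x w ih =>
    have h1 := ih (fun y hy => hreg y (List.mem_cons_of_mem _ hy))
      (fun y hy => hcoef y (List.mem_cons_of_mem _ hy))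
    have h2 : Tendsto (fun β : ℂ ≃+* ℂ => termIntegral (x.1.conj β) (fun b => (x.2 b).conj β)
        fun t => V (res X β, t)) nearId (𝓝 (termIntegral x.1 x.2 v)) := by
      have h3 := tendsto_TI (hreg x (List.mem_cons_self)).1 (hreg x (List.mem_cons_self)).2 hV
        (fun t ht a => by rw [hVv t ht]; exact hne t ht a)
      have hc := hcoef x List.mem_cons_self
      have h4 : TI X x.1 x.2 (inc X) (fun t => V (inc X, t)) = termIntegral x.1 x.2 v := by
        have h5 := TI_res hc.1 hc.2 (RingEquiv.refl ℂ) fun t => V (inc X, t)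
        rw [res_refl] at h5
        rw [h5]
        have h0 : ((RingEquiv.refl ℂ : ℂ ≃+* ℂ) : ℂ →+* ℂ) = RingHom.id ℂ := rfl
        have h6 : ∀ f : RatFun N, f.conj (RingEquiv.refl ℂ) = f := by
          intro f
          simp only [RatFun.conj, h0, MvPolynomial.map_id]
        simp only [h6]
        exact termIntegral_congr hVv
      rw [h4] at h3
      have h7 : (fun β : ℂ ≃+* ℂ => termIntegral (x.1.conj β) (fun b => (x.2 b).conj β)
          fun t => V (res X β, t)) =
          fun β => TI X x.1 x.2 (res X β) fun t => V (res X β, t) := by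
        funext β
        rw [TI_res hc.1 hc.2 β]
      rw [h7]
      exact Tendsto.comp (g := fun θ => TI X x.1 x.2 θ fun t => V (θ, t)) h3 (tendsto_res X)
    have h5 := h2.add h1
    have h6 : ∀ β : ℂ ≃+* ℂ, formIntegral
        ((x :: w).map fun x => (x.1.conj β, fun b => (x.2 b).conj β)) (fun t => V (res X β, t)) =
        termIntegral (x.1.conj β) (fun b => (x.2 b).conj β) (fun t => V (res X β, t)) +
        formIntegral (w.map fun x => (x.1.conj β, fun b => (x.2 b).conj β))
          (fun t => V (res X β, t)) := by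
      intro β
      simp only [formIntegral, List.map_cons, List.sum_cons]
    have h8 : formIntegral (x :: w) v = termIntegral x.1 x.2 v + formIntegral w v := by
      simp only [formIntegral, List.map_cons, List.sum_cons]
    rw [h8]
    exact h5.congr fun β => (h6 β).symm

end Pool.Agent.AHI
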