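import Mathlib
import Pool.Agent.AHC.Defs

/-!
# The chain complex of the Čech–singular double complex; universal coefficients
-/

namespace Pool.Agent.AHI

open Pool.Agent.AHC
open scoped LinearAlgebra.Projectivization

variable {N : ℕ}

/-- the double alternating sum over the iterated faces vanishes -/
theorem sum_dd {n : ℕ} {R : Type} [CommRing R] (f : Fin (n + 2) → Fin (n + 1) → R)
    (hf : ∀ a b a' b', (a.succAbove ∘ b.succAbove : Fin n → Fin (n + 2)) =
      a'.succAbove ∘ b'.succAbove → f a b = f a' b') :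
    ∑ a : Fin (n + 2), ∑ b : Fin (n + 1), (-1) ^ (a : ℕ) * ((-1) ^ (b : ℕ) * f a b) = 0 := by
  rw [← Finset.sum_product']
  let g : Fin (n + 2) × Fin (n + 1) → Fin (n + 2) × Fin (n + 1) := fun x =>
    if h : (x.2 : ℕ) < x.1 then
      (⟨x.2, by omega⟩, ⟨x.1 - 1, by omega⟩)
    else (⟨x.2 + 1, by omega⟩, ⟨x.1, by omega⟩)
  refine Finset.sum_involution (fun x _ => g x) ?_ ?_ (fun _ _ => Finset.mem_univ _) ?_
  · rintro ⟨a, b⟩ -
    by_cases h : (b : ℕ) < a
    · have hg : g (a, b) = (⟨b, by omega⟩, ⟨a - 1, by omega⟩) := dif_pos h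
      rw [hg]
      have h1 : f a b = f ⟨b, by omega⟩ ⟨a - 1, by omega⟩ := by
        apply hf
        funext x
        apply Fin.ext
        simp only [Function.comp_apply, Fin.succAbove, Fin.lt_def, Fin.val_castSucc]
        split_ifs <;> simp_all <;> omega
      simp only [h1]
      have h2 : (-1 : R) ^ (a : ℕ) = -(-1) ^ ((a : ℕ) - 1) := by
        obtain ⟨k, hk⟩ : ∃ k, (a : ℕ) = k + 1 := ⟨a - 1, by omega⟩
        rw [hk, pow_succ]
        simp
      rw [h2]
      ring
    · have hg : g (a, b) = (⟨b + 1, by omega⟩, ⟨a, by omega⟩) := dif_neg h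
      rw [hg]
      have h1 : f a b = f ⟨b + 1, by omega⟩ ⟨a, by omega⟩ := by
        apply hf
        funext x
        apply Fin.ext
        simp only [Function.comp_apply, Fin.succAbove, Fin.lt_def, Fin.val_castSucc]
        split_ifs <;> simp_all <;> omega
      simp only [h1, pow_succ]
      ring
  · rintro ⟨a, b⟩ - - h
    by_cases h' : (b : ℕ) < a
    · have hg : g (a, b) = (⟨b, by omega⟩, ⟨a - 1, by omega⟩) := dif_pos h'
      rw [hg] at h
      have h1 := congrArg (fun x => (x.1 : ℕ)) h
      simp only [] at h1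
      omega
    · have hg : g (a, b) = (⟨b + 1, by omega⟩, ⟨a, by omega⟩) := dif_neg h'
      rw [hg] at h
      have h1 := congrArg (fun x => (x.1 : ℕ)) h
      simp only [] at h1
      omega
  · rintro ⟨a, b⟩ -
    by_cases h' : (b : ℕ) < a
    · have hg : g (a, b) = (⟨b, by omega⟩, ⟨a - 1, by omega⟩) := dif_pos h'
      rw [hg]
      have h2 : ¬ (((⟨(a : ℕ) - 1, by omega⟩ : Fin (n + 1)) : ℕ) <
          ((⟨b, by omega⟩ : Fin (n + 2)) : ℕ)) := by
        simp only []
        omega
      simp only [g]
      rw [dif_neg h2]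
      ext
      · simp only []
        omega
      · rfl
    · have hg : g (a, b) = (⟨b + 1, by omega⟩, ⟨a, by omega⟩) := dif_neg h'
      rw [hg]
      have h2 : (((⟨(a : ℕ), by omega⟩ : Fin (n + 1)) : ℕ) <
          ((⟨b + 1, by omega⟩ : Fin (n + 2)) : ℕ)) := by
        simp only []
        omega
      simp only [g]
      rw [dif_pos h2]
      ext
      · rfl
      · simp

theorem face_apply {q : ℕ} (i : Fin (q + 2)) (t : stdSimplex ℝ (Fin (q + 1))) (k : Fin (q + 2)) :
    (face i t : Fin (q + 2) → ℝ) k = ∑ j, if i.succAbove j = k then (t : Fin (q + 1) → ℝ) j else 0 := by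
  change (i.insertNth (0 : ℝ) (t : Fin (q + 1) → ℝ) : Fin (q + 2) → ℝ) k = _
  refine i.succAboveCases ?_ (fun l => ?_) k
  · rw [Fin.insertNth_apply_same]
    symm
    refine Finset.sum_eq_zero fun j _ => ?_
    rw [if_neg (Fin.succAbove_ne i j)]
  · rw [Fin.insertNth_apply_succAbove]
    rw [Finset.sum_eq_single l]
    · simp
    · intro j _ hj
      rw [if_neg (fun h => hj (Fin.succAbove_right_injective h))]
    · simp

theorem face_face {q : ℕ} {a a' : Fin (q + 3)} {b b' : Fin (q + 2)}
    (h : (a.succAbove ∘ b.succAbove : Fin (q + 1) → Fin (q + 3)) = a'.succAbove ∘ b'.succAbove) :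
    face a ∘ face b = (face a' ∘ face b' : stdSimplex ℝ (Fin (q + 1)) → _) := by
  have key : ∀ (a : Fin (q + 3)) (b : Fin (q + 2)) (t : stdSimplex ℝ (Fin (q + 1))) (k),
      (face a (face b t) : Fin (q + 3) → ℝ) k =
        ∑ j, if (a.succAbove ∘ b.succAbove) j = k then (t : Fin (q + 1) → ℝ) j else 0 := by
    intro a b t k
    rw [face_apply]
    simp only [face_apply]
    have h1 : ∀ l, (if a.succAbove l = k then
        (∑ j, if b.succAbove j = l then (t : Fin (q + 1) → ℝ) j else 0) else 0) =
        ∑ j, if b.succAbove j = l then (if a.succAbove l = k then (t : Fin (q + 1) → ℝ) j else 0)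
          else 0 := by
      intro l
      split_ifs with h
      · rfl
      · simp
    simp only [h1]
    rw [Finset.sum_comm]
    refine Finset.sum_congr rfl fun j _ => ?_
    rw [Finset.sum_ite_eq]
    simp
  funext t
  apply Subtype.ext
  funext k
  have h1 := key a b t k
  have h2 := key a' b' t k
  rw [h] at h1
  exact h1.trans h2.symm

/-- the total differential squares to zero -/
theorem totD_totD {R : Type} [CommRing R] (b : SingCochain N R) (p q : ℕ)
    (I : Fin (p + 1) → Fin (N + 1)) (s : Simplex N q) :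
    totD (fun p q I (s : Simplex N q) => totD b p q I s) p q I s = 0 := by
  have hcc : ∀ p q (I : Fin (p + 1) → Fin (N + 1)) (s : Simplex N q),
      cechD (fun p q I (s : Simplex N q) => cechD b p q I s) p q I s = 0 := by
    intro p q I s
    match p, I with
    | 0, _ => rfl
    | 1, _ => simp [cechD]
    | p + 2, I =>
      simp only [cechD, Finset.mul_sum]
      refine sum_dd (fun a b' => b p q ((I ∘ a.succAbove) ∘ b'.succAbove) s) ?_
      intro a b' a' b'' h
      have : ∀ (a : Fin (p + 3)) (b : Fin (p + 2)), (I ∘ a.succAbove) ∘ b.succAbove =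
        I ∘ (a.succAbove ∘ b.succAbove) := fun _ _ => rfl
      simp only [this, h]
  have hss : ∀ p q (I : Fin (p + 1) → Fin (N + 1)) (s : Simplex N q),
      singD (fun p q I (s : Simplex N q) => singD b p q I s) p q I s = 0 := by
    intro p q I s
    match q, s with
    | 0, _ => rfl
    | 1, _ => simp [singD]
    | q + 2, s =>
      simp only [singD, Finset.mul_sum]
      refine sum_dd (fun a b' => b p q I ((s ∘ face a) ∘ face b')) ?_
      intro a b' a' b'' h
      have h1 : ∀ (a : Fin (q + 3)) (b : Fin (q + 2)), (s ∘ face a) ∘ face b =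
        s ∘ (face a ∘ face b) := fun _ _ => rfl
      simp only [h1, face_face h]
  have hcs : ∀ p q (I : Fin (p + 1) → Fin (N + 1)) (s : Simplex N q),
      cechD (fun p q I (s : Simplex N q) => singD b p q I s) p q I s =
      singD (fun p q I (s : Simplex N q) => cechD b p q I s) p q I s := by
    intro p q I s
    match p, q, I, s with
    | 0, 0, _, _ => rfl
    | 0, q + 1, _, _ => simp [cechD, singD]
    | p + 1, 0, _, _ => simp [cechD, singD]
    | p + 1, q + 1, I, s =>
      simp only [cechD, singD, Finset.mul_sum]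
      rw [Finset.sum_comm]
      refine Finset.sum_congr rfl fun a _ => Finset.sum_congr rfl fun c _ => ?_
      ring
  have hcadd : ∀ (f g : SingCochain N R) p q (I : Fin (p + 1) → Fin (N + 1)) (s : Simplex N q),
      cechD (fun p q I (s : Simplex N q) => f p q I s + g p q I s) p q I s =
      cechD f p q I s + cechD g p q I s := by
    intro f g p q I s
    match p, I with
    | 0, _ => simp [cechD]
    | p + 1, I => simp only [cechD, mul_add, Finset.sum_add_distrib]
  have hsadd : ∀ (f g : SingCochain N R) p q (I : Fin (p + 1) → Fin (N + 1)) (s : Simplex N q),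
      singD (fun p q I (s : Simplex N q) => f p q I s + g p q I s) p q I s =
      singD f p q I s + singD g p q I s := by
    intro f g p q I s
    match q, s with
    | 0, _ => simp [singD]
    | q + 1, s => simp only [singD, mul_add, Finset.sum_add_distrib]
  have hssign : ∀ (f : SingCochain N R) p q (I : Fin (p + 1) → Fin (N + 1)) (s : Simplex N q),
      singD (fun p q I (s : Simplex N q) => (-1) ^ p * f p q I s) p q I s =
      (-1) ^ p * singD f p q I s := by
    intro f p q I s
    match q, s with
    | 0, _ => simp [singD]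
    | q + 1, s =>
      simp only [singD, Finset.mul_sum]
      refine Finset.sum_congr rfl fun a _ => ?_
      ring
  have hcsign : ∀ (f : SingCochain N R) p q (I : Fin (p + 1) → Fin (N + 1)) (s : Simplex N q),
      cechD (fun p q I (s : Simplex N q) => (-1) ^ p * f p q I s) p q I s =
      -((-1) ^ p * cechD f p q I s) := by
    intro f p q I s
    match p, I with
    | 0, _ => simp [cechD]
    | p + 1, I =>
      simp only [cechD, Finset.mul_sum, ← Finset.sum_neg_distrib]
      refine Finset.sum_congr rfl fun a _ => ?_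
      rw [pow_succ]
      ring
  unfold totD
  rw [hcadd, hsadd, hcc, hcsign, hssign, hss, hcs]
  ring

/-- generators of the chain complex -/
abbrev Gen (N : ℕ) : Type := Σ p : ℕ, Σ q : ℕ, (Fin (p + 1) → Fin (N + 1)) × Simplex N q

/-- a cochain as a function of the generators -/
def cg {R : Type} (b : SingCochain N R) : Gen N → R := fun x => b x.1 x.2.1 x.2.2.1 x.2.2.2

/-- the Čech boundary -/
noncomputable def bdC : Gen N → (Gen N →₀ ℤ)
  | ⟨0, _, _, _⟩ => 0
  | ⟨p + 1, q, I, s⟩ => ∑ a : Fin (p + 2),
      Finsupp.single (⟨p, q, I ∘ a.succAbove, s⟩ : Gen N) ((-1) ^ (a : ℕ))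

/-- the singular boundary -/
noncomputable def bdS : Gen N → (Gen N →₀ ℤ)
  | ⟨_, 0, _, _⟩ => 0
  | ⟨p, q + 1, I, s⟩ => ∑ i : Fin (q + 2),
      Finsupp.single (⟨p, q, I, s ∘ face i⟩ : Gen N) ((-1) ^ (i : ℕ))

/-- the total boundary -/
noncomputable def bd (x : Gen N) : Gen N →₀ ℤ := bdC x + (-1 : ℤ) ^ x.1 • bdS x

/-- evaluation of a function on a chain -/
noncomputable def evc {R : Type} [CommRing R] (f : Gen N → R) : (Gen N →₀ ℤ) →ₗ[ℤ] R :=
  Finsupp.linearCombination ℤ f

theorem evc_single {R : Type} [CommRing R] (f : Gen N → R) (x : Gen N) (c : ℤ) :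
    evc f (Finsupp.single x c) = c * f x := by
  unfold evc
  rw [Finsupp.linearCombination_single, zsmul_eq_mul]

theorem evc_bd {R : Type} [CommRing R] (b : SingCochain N R) (x : Gen N) :
    evc (cg b) (bd x) = totD b x.1 x.2.1 x.2.2.1 x.2.2.2 := by
  obtain ⟨p, q, I, s⟩ := x
  unfold bd totD
  rw [map_add, map_zsmul]
  congr 1
  · cases p with
    | zero => simp [bdC, cechD]
    | succ p =>
      simp only [bdC, cechD, map_sum, evc_single]
      refine Finset.sum_congr rfl fun a _ => ?_
      push_cast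
      rfl
  · rw [zsmul_eq_mul]
    push_cast
    congr 1
    cases q with
    | zero => simp [bdS, singD]
    | succ q =>
      simp only [bdS, singD, map_sum, evc_single]
      refine Finset.sum_congr rfl fun a _ => ?_
      push_cast
      rfl

/-- moving the simplices by a map of projective space -/
def push (Φ : ℙ ℂ (Fin (N + 1) → ℂ) → ℙ ℂ (Fin (N + 1) → ℂ)) (x : Gen N) : Gen N :=
  ⟨x.1, x.2.1, x.2.2.1, fun t => Φ (x.2.2.2 t)⟩

theorem bd_push (Φ : ℙ ℂ (Fin (N + 1) → ℂ) → ℙ ℂ (Fin (N + 1) → ℂ)) (x : Gen N) :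
    bd (push Φ x) = Finsupp.mapDomain (push Φ) (bd x) := by
  obtain ⟨p, q, I, s⟩ := x
  unfold bd
  rw [Finsupp.mapDomain_add, Finsupp.mapDomain_smul]
  congr 1
  · cases p with
    | zero => simp [bdC, push]
    | succ p =>
      simp only [bdC, push, Finsupp.mapDomain_finsetSum, Finsupp.mapDomain_single]
  · congr 1
    cases q with
    | zero => simp [bdS, push]
    | succ q =>
      simp only [bdS, push, Finsupp.mapDomain_finsetSum, Finsupp.mapDomain_single]
      rfl

/-- **universal coefficients**: if a complex function takes integral values on the cycles, it is an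
integral function plus a coboundary -/
theorem duality {ι κ : Type} (d : ι → (κ →₀ ℤ)) (φ : ι → ℂ)
    (h : ∀ z : ι →₀ ℤ, Finsupp.linearCombination ℤ d z = 0 →
      ∃ n : ℤ, Finsupp.linearCombination ℤ φ z = n) :
    ∃ b : κ → ℂ, ∀ i, ∃ n : ℤ, φ i = n + Finsupp.linearCombination ℤ b (d i) := by
  let Z : AddSubgroup ℂ := (Int.castAddHom ℂ).range
  let Q := ℂ ⧸ Z
  let π : ℂ →+ Q := QuotientAddGroup.mk' Z
  have hπ : Function.Surjective π := QuotientAddGroup.mk'_surjective Z
  have hdiv : DivisibleBy Q ℤ := Function.Surjective.divisibleBy π hπ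
    (fun a n => map_zsmul π n a)
  let D : (ι →₀ ℤ) →+ (κ →₀ ℤ) := (Finsupp.linearCombination ℤ d).toAddMonoidHom
  let φ' : (ι →₀ ℤ) →+ Q := π.comp (Finsupp.linearCombination ℤ φ).toAddMonoidHom
  have hker : D.ker ≤ φ'.ker := by
    intro z hz
    have hz' : Finsupp.linearCombination ℤ d z = 0 := hz
    obtain ⟨n, hn⟩ := h z hz'
    rw [AddMonoidHom.mem_ker]
    change π (Finsupp.linearCombination ℤ φ z) = 0
    rw [hn]
    exact (QuotientAddGroup.eq_zero_iff _).2 ⟨n, rfl⟩
  let ψ : (ι →₀ ℤ) ⧸ D.ker →+ Q := QuotientAddGroup.lift D.ker φ' hker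
  let D' : (ι →₀ ℤ) ⧸ D.ker →+ (κ →₀ ℤ) := QuotientAddGroup.kerLift D
  obtain ⟨ψ', hψ'⟩ := (Module.Baer.of_divisible Q).extension_property_addMonoidHom D'
    (QuotientAddGroup.kerLift_injective D) ψ
  choose b hb using fun k : κ => hπ (ψ' (Finsupp.single k 1))
  refine ⟨b, fun i => ?_⟩
  have h1 : ∀ y : κ →₀ ℤ, π (Finsupp.linearCombination ℤ b y) = ψ' y := by
    intro y
    induction y using Finsupp.induction_linear with
    | zero => simp
    | add x y hx hy => rw [map_add, map_add, map_add, hx, hy]
    | single k c =>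
      rw [Finsupp.linearCombination_single, map_zsmul, hb k]
      have : Finsupp.single k c = c • Finsupp.single k (1 : ℤ) := by simp
      rw [this, map_zsmul]
  have h2 : ψ' (d i) = π (φ i) := by
    have h3 := DFunLike.congr_fun hψ' (QuotientAddGroup.mk (Finsupp.single i (1 : ℤ)))
    have h4 : D' (QuotientAddGroup.mk (Finsupp.single i (1 : ℤ))) = d i := by
      change Finsupp.linearCombination ℤ d (Finsupp.single i (1 : ℤ)) = d i
      simp
    have h5 : ψ (QuotientAddGroup.mk (Finsupp.single i (1 : ℤ))) = π (φ i) := by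
      change π (Finsupp.linearCombination ℤ φ (Finsupp.single i (1 : ℤ))) = π (φ i)
      simp
    rw [AddMonoidHom.comp_apply, h4, h5] at h3
    exact h3
  have h6 : π (φ i - Finsupp.linearCombination ℤ b (d i)) = 0 := by
    rw [map_sub, h1, h2, sub_self]
  obtain ⟨n, hn⟩ := (QuotientAddGroup.eq_zero_iff _).1 h6
  refine ⟨n, ?_⟩
  have hn' : (n : ℂ) = φ i - Finsupp.linearCombination ℤ b (d i) := hn
  rw [hn']
  ring

end Pool.Agent.AHI
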