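import Mathlib
import Pool.Agent.AHC.CC
import Pool.Agent.AHC.Final

/-!
# The integral form of the de Rham part of the absolute Hodge conjecture
-/

namespace Pool.Agent.AHI

open MvPolynomial Pool.Agent.AHC
open scoped ContDiff LinearAlgebra.Projectivization ComplexConjugate

/-- **integrality**: the cochain of algebraic forms `w` of total degree `2k` is a cocycle, and `M`
times its class in `H^{2k}(Y^an, ℂ)` lies in `(2πi)^k H^{2k}(Y^an, ℤ)`: it is `(2πi)^k` times an
integral cocycle plus a coboundary -/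
def IsIntegralClass (M : ℕ) {N m : ℕ} (F : Fin m → CPoly N) (k : ℕ) (w : FormCochain N) : Prop :=
  ∃ (r : SingCochain N ℤ) (b : SingCochain N ℂ),
    (∀ p q, p + q = 2 * k + 1 → ∀ I s v, IsLift F I s v → totD r p q I s = 0) ∧
    ∀ p q, p + q = 2 * k → ∀ I s v, IsLift F I s v →
      M * formIntegral (w p q I) v =
        (2 * Real.pi * Complex.I) ^ k * (r p q I s : ℂ) + totD b p q I s

/-- `M` times the class of the datum is integral (up to the Tate twist) -/
def IsIntegral (M : ℕ) (d : Datum) : Prop := IsIntegralClass M d.F d.k d.w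

/-- the class of the datum is rational: a positive multiple of it is integral -/
def IsRat (d : Datum) : Prop := ∃ M : ℕ, 0 < M ∧ IsIntegral M d

/-- integrality of the conjugate depends only on finitely many values of the automorphism -/
theorem exists_finite (d : Datum) : ∃ A : Set ℂ, A.Finite ∧ ∀ M, ∀ σ τ : ℂ ≃+* ℂ,
    (∀ a ∈ A, σ a = τ a) → IsIntegral M (d.conj σ) → IsIntegral M (d.conj τ) := by
  let A1 : Set ℂ := ⋃ i, ((d.F i).coeffs : Set ℂ)
  let A2 : Set ℂ := ⋃ p ∈ Finset.range (2 * d.k + 1), ⋃ q ∈ Finset.range (2 * d.k + 1),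
    ⋃ I : Fin (p + 1) → Fin (d.N + 1), ⋃ y ∈ {y | y ∈ d.w p q I},
      ((y.1.num.coeffs : Set ℂ) ∪ ⋃ b, ((y.2 b).num.coeffs : Set ℂ))
  refine ⟨A1 ∪ A2, ?_, ?_⟩
  · refine Set.Finite.union (Set.finite_iUnion fun i => Finset.finite_toSet _) ?_
    refine Set.Finite.biUnion (Finset.finite_toSet _) fun p _ => ?_
    refine Set.Finite.biUnion (Finset.finite_toSet _) fun q _ => ?_
    refine Set.finite_iUnion fun I => ?_
    refine Set.Finite.biUnion (List.finite_toSet _) fun y _ => ?_
    exact (Finset.finite_toSet _).union (Set.finite_iUnion fun b => Finset.finite_toSet _)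
  · intro M σ τ h hr
    have h1 : conjEqs σ d.F = conjEqs τ d.F := by
      funext i
      refine map_congr_coeffs fun c hc => h c (Or.inl ?_)
      exact Set.mem_iUnion.2 ⟨i, hc⟩
    have h2 : ∀ p q, p + q = 2 * d.k → ∀ I, d.w.conj σ p q I = d.w.conj τ p q I := by
      intro p q hpq I
      simp only [FormCochain.conj]
      refine List.map_congr_left fun y hy => ?_
      have hmem : ∀ c, c ∈ ((y.1.num.coeffs : Set ℂ) ∪ ⋃ b, ((y.2 b).num.coeffs : Set ℂ)) →
          σ c = τ c := by
        intro c hc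
        refine h c (Or.inr ?_)
        simp only [A2, Set.mem_iUnion]
        exact ⟨p, Finset.mem_range.2 (by omega), q, Finset.mem_range.2 (by omega), I, y, hy, hc⟩
      have h3 : y.1.conj σ = y.1.conj τ := by
        simp only [RatFun.conj]
        rw [map_congr_coeffs fun c hc => hmem c (Or.inl hc)]
      have h4 : ∀ b, (y.2 b).conj σ = (y.2 b).conj τ := by
        intro b
        simp only [RatFun.conj]
        rw [map_congr_coeffs fun c hc => hmem c (Or.inr (Set.mem_iUnion.2 ⟨b, hc⟩))]
      rw [h3]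
      simp only [h4]
    obtain ⟨r, b, hr1, hr2⟩ := hr
    change IsIntegralClass M (conjEqs τ d.F) d.k (d.w.conj τ)
    have hr1' : ∀ p q, p + q = 2 * d.k + 1 → ∀ I s v, IsLift (conjEqs σ d.F) I s v →
      totD r p q I s = 0 := hr1
    have hr2' : ∀ p q, p + q = 2 * d.k → ∀ I s v, IsLift (conjEqs σ d.F) I s v →
      M * formIntegral (d.w.conj σ p q I) v =
        (2 * Real.pi * Complex.I) ^ d.k * (r p q I s : ℂ) + totD b p q I s := hr2
    rw [h1] at hr1' hr2'
    refine ⟨r, b, hr1', fun p q hpq I s v hv => ?_⟩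
    rw [← h2 p q hpq I]
    exact hr2' p q hpq I s v hv

/-- complex conjugation preserves integral classes -/
theorem IsIntegral.conj_cc {M : ℕ} {d : Datum} (h : IsIntegral M d) : IsIntegral M (d.conj cc) := by
  obtain ⟨r, b, h1, h2⟩ := h
  refine ⟨fun p q I s => (-1) ^ d.k * (RingHom.id ℤ) (r p q I fun t => cproj d.N (s t)),
    fun p q I s => 1 * (starRingEnd ℂ) (b p q I fun t => cproj d.N (s t)), ?_, ?_⟩
  · intro p q hpq I s v hv
    have hv' : IsLift d.F I (fun t => cproj d.N (s t)) (fun t => cvec (d.N + 1) (v t)) :=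
      IsLift.cc (F := d.F) hv
    change totD (fun p q I (s : Simplex d.N q) =>
      (-1) ^ d.k * (RingHom.id ℤ) (r p q I fun t => cproj d.N (s t))) p q I s = 0
    rw [totD_cc, h1 p q hpq I _ _ hv', map_zero, mul_zero]
  · intro p q hpq I s v hv
    have hv' : IsLift d.F I (fun t => cproj d.N (s t)) (fun t => cvec (d.N + 1) (v t)) :=
      IsLift.cc (F := d.F) hv
    change (M : ℂ) * formIntegral ((d.w.conj cc) p q I) v =
      (2 * Real.pi * Complex.I) ^ d.k *
        (((-1) ^ d.k * (RingHom.id ℤ) (r p q I fun t => cproj d.N (s t)) : ℤ) : ℂ) +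
      totD (fun p q I (s : Simplex d.N q) =>
        1 * (starRingEnd ℂ) (b p q I fun t => cproj d.N (s t))) p q I s
    rw [totD_cc]
    simp only [FormCochain.conj]
    rw [formIntegral_cc]
    have h4 := congrArg (starRingEnd ℂ) (h2 p q hpq I _ _ hv')
    rw [map_mul, map_natCast] at h4
    rw [h4, map_add, map_mul, map_pow]
    congr 1
    · have h3 : (starRingEnd ℂ) (2 * (Real.pi : ℂ) * Complex.I) =
          -1 * (2 * (Real.pi : ℂ) * Complex.I) := by
        rw [map_mul, map_mul, Complex.conj_I, Complex.conj_ofReal, map_ofNat]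
        ring
      rw [h3, mul_pow]
      simp only [RingHom.id_apply]
      push_cast
      simp only [map_intCast]
      ring
    · rw [one_mul]

/-- **the integral form of Q1 (de Rham part) for the automorphism `σ` and the class `C`**: if `M`
times a class in `F^k H^{2k}_dR` is integral, then so is `M` times its conjugate -/
def IntegralPart (C : Set Datum) (σ : ℂ ≃+* ℂ) : Prop :=
  ∀ M : ℕ, 0 < M → ∀ d ∈ C, IsIntegral M d → IsIntegral M (d.conj σ)

/-- **Q1 (de Rham part)** for the automorphism `σ` and the class `C` -/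
def RationalPart (C : Set Datum) (σ : ℂ ≃+* ℂ) : Prop :=
  ∀ d ∈ C, IsRat d → IsRat (d.conj σ)

theorem IntegralPart.rational {C : Set Datum} {σ : ℂ ≃+* ℂ} (h : IntegralPart C σ) :
    RationalPart C σ := by
  rintro d hd ⟨M, hM, h1⟩
  exact ⟨M, hM, h M hM d hd h1⟩

theorem isClosedMonoid_integralPart {C : Set Datum} (hC : Stable C) :
    IsClosedMonoid {σ | IntegralPart C σ} where
  one_mem := fun M _ d _ h => by rwa [Datum.conj_refl]
  mul_mem := fun σ hσ τ hτ M hM d hd h => by
    rw [← Datum.conj_conj]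
    exact hτ M hM _ (hC σ d hd) (hσ M hM d hd h)
  closed := fun σ h M hM d hd hr => by
    obtain ⟨A, hA, hAd⟩ := exists_finite d
    obtain ⟨τ, hτ, hτσ⟩ := h A hA
    exact hAd M τ σ hτσ (hτ M hM d hd hr)

theorem cc_mem_integralPart (C : Set Datum) : cc ∈ {σ | IntegralPart C σ} :=
  fun _ _ _ _ h => h.conj_cc

end Pool.Agent.AHI
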