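import Mathlib
import Pool.Agent.AHI.Conv
import Pool.Agent.AHI.Cpx
import Pool.Agent.AHI.Int

/-!
# Integrality is a closed condition in the usual topology
-/

namespace Pool.Agent.AHI

open MvPolynomial Pool.Agent.AHC Filter
open scoped ContDiff ComplexConjugate Topology LinearAlgebra.Projectivization

variable {N m : ℕ}

theorem isClosed_range_intCast : IsClosed (Set.range ((↑) : ℤ → ℂ)) := by
  have h1 : Set.range ((↑) : ℤ → ℂ) = ((↑) : ℝ → ℂ) '' Set.range ((↑) : ℤ → ℝ) := by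
    rw [← Set.range_comp]
    congr 1
  rw [h1]
  exact Complex.isometry_ofReal.isClosedEmbedding.isClosedMap _
    Int.isClosedEmbedding_coe_real.isClosed_range

/-- a simplex which lies in the open set, with a smooth lift -/
def Liftable (F : Fin m → CPoly N) (x : Gen N) : Prop := ∃ v, IsLift F x.2.2.1 x.2.2.2 v

theorem IsLift.cech {F : Fin m → CPoly N} {p : ℕ} {I : Fin (p + 2) → Fin (N + 1)} {q : ℕ}
    {s : Simplex N q} {v : (Fin (q + 1) → ℝ) → (Fin (N + 1) → ℂ)} (h : IsLift F I s v)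
    (a : Fin (p + 2)) : IsLift F (I ∘ a.succAbove) s v :=
  ⟨h.smooth, h.onCone, fun t ht _ => h.inOpen t ht _, h.lifts⟩

theorem IsLift.face {F : Fin m → CPoly N} {p : ℕ} {I : Fin (p + 1) → Fin (N + 1)} {q : ℕ}
    {s : Simplex N (q + 1)} {v : (Fin (q + 2) → ℝ) → (Fin (N + 1) → ℂ)} (h : IsLift F I s v)
    (i : Fin (q + 2)) :
    IsLift F I (s ∘ AHC.face i) (fun t => v (i.insertNth (0 : ℝ) t)) where
  smooth := by
    refine h.smooth.comp ?_
    rw [contDiff_pi]
    intro k
    refine i.succAboveCases ?_ (fun l => ?_) k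
    · simp only [Fin.insertNth_apply_same]
      exact contDiff_const
    · simp only [Fin.insertNth_apply_succAbove]
      exact contDiff_apply ℝ ℝ l
  onCone := fun t ht => h.onCone _ (AHC.face i ⟨t, ht⟩).2
  inOpen := fun t ht a => h.inOpen _ (AHC.face i ⟨t, ht⟩).2 a
  lifts := fun t => h.lifts (AHC.face i t)

theorem mem_bd {P : Gen N → Prop} (x : Gen N)
    (hC : ∀ p q (I : Fin (p + 2) → Fin (N + 1)) (s : Simplex N q) (a : Fin (p + 2)),
      x = ⟨p + 1, q, I, s⟩ → P ⟨p, q, I ∘ a.succAbove, s⟩)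
    (hS : ∀ p q (I : Fin (p + 1) → Fin (N + 1)) (s : Simplex N (q + 1)) (i : Fin (q + 2)),
      x = ⟨p, q + 1, I, s⟩ → P ⟨p, q, I, s ∘ face i⟩) :
    ∀ y ∈ (bd x).support, P y := by
  have key : bd x ∈ Finsupp.supported ℤ ℤ {y | P y} := by
    obtain ⟨p, q, I, s⟩ := x
    unfold bd
    refine Submodule.add_mem _ ?_ (Submodule.smul_mem _ _ ?_)
    · cases p with
      | zero => exact Submodule.zero_mem _
      | succ p =>
        simp only [bdC]
        refine Submodule.sum_mem _ fun a _ => ?_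
        exact Finsupp.single_mem_supported ℤ _ (hC p q I s a rfl)
    · cases q with
      | zero => exact Submodule.zero_mem _
      | succ q =>
        simp only [bdS]
        refine Submodule.sum_mem _ fun a _ => ?_
        exact Finsupp.single_mem_supported ℤ _ (hS p q I s a rfl)
  intro y hy
  exact (Finsupp.mem_supported ℤ _).1 key hy

theorem Liftable.bd {F : Fin m → CPoly N} {x : Gen N} (hx : Liftable F x) {d : ℕ}
    (hd : x.1 + x.2.1 = d + 1) :
    ∀ y ∈ (bd x).support, Liftable F y ∧ y.1 + y.2.1 = d := by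
  refine mem_bd x ?_ ?_
  · rintro p q I s a rfl
    obtain ⟨v, hv⟩ := hx
    refine ⟨⟨v, IsLift.cech hv a⟩, ?_⟩
    simp only [] at hd ⊢
    omega
  · rintro p q I s a rfl
    obtain ⟨v, hv⟩ := hx
    refine ⟨⟨_, IsLift.face hv a⟩, ?_⟩
    simp only [] at hd ⊢
    omega

theorem evc_eq_sum {R : Type} [CommRing R] (f : Gen N → R) (c : Gen N →₀ ℤ) :
    evc f c = ∑ y ∈ c.support, (c y : R) * f y := by
  unfold evc
  rw [Finsupp.linearCombination_apply, Finsupp.sum]
  exact Finset.sum_congr rfl fun y _ => zsmul_eq_mul _ _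

theorem evc_congr {R : Type} [CommRing R] {f g : Gen N → R} {c : Gen N →₀ ℤ}
    (h : ∀ y ∈ c.support, f y = g y) : evc f c = evc g c := by
  rw [evc_eq_sum, evc_eq_sum]
  exact Finset.sum_congr rfl fun y hy => by rw [h y hy]

theorem evc_mapDomain {R : Type} [CommRing R] (f : Gen N → R) (g : Gen N → Gen N)
    (c : Gen N →₀ ℤ) : evc f (Finsupp.mapDomain g c) = evc (f ∘ g) c := by
  unfold evc
  rw [Finsupp.linearCombination_mapDomain]

/-- **Lemma A**: if conjugates by automorphisms arbitrarily close to the identity are integral,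
then so is the class itself -/
theorem integral_of_frequently {M : ℕ} {d : Datum} (h : ∃ᶠ β in nearId, IsIntegral M (d.conj β)) :
    IsIntegral M d := by
  classical
  obtain ⟨N, m, F, k, w, hsm, hhod⟩ := d
  -- the coefficients of the forms
  let A2 : Set ℂ := ⋃ p ∈ Finset.range (2 * k + 1), ⋃ q ∈ Finset.range (2 * k + 1),
    ⋃ I : Fin (p + 1) → Fin (N + 1), ⋃ y ∈ {y | y ∈ w p q I},
      ((y.1.num.coeffs : Set ℂ) ∪ ⋃ b, ((y.2 b).num.coeffs : Set ℂ))
  have hA2 : A2.Finite := by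
    refine Set.Finite.biUnion (Finset.finite_toSet _) fun p _ => ?_
    refine Set.Finite.biUnion (Finset.finite_toSet _) fun q _ => ?_
    refine Set.finite_iUnion fun I => ?_
    refine Set.Finite.biUnion (List.finite_toSet _) fun y _ => ?_
    exact (Finset.finite_toSet _).union (Set.finite_iUnion fun b => Finset.finite_toSet _)
  obtain ⟨X, ρ, hYX, hG⟩ := exists_good hsm hA2.toFinset
  have hX : ∀ z ∈ A2, z ∈ X := fun z hz => hYX (hA2.mem_toFinset.2 hz)
  have hcoef : ∀ p q, p + q = 2 * k → ∀ I, ∀ x ∈ w p q I,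
      x.1.num.coeffs ⊆ X ∧ ∀ b, (x.2 b).num.coeffs ⊆ X := by
    intro p q hpq I x hx
    constructor
    · intro c hc
      refine hX c ?_
      simp only [A2, Set.mem_iUnion]
      exact ⟨p, Finset.mem_range.2 (by omega), q, Finset.mem_range.2 (by omega), I, x, hx,
        Or.inl hc⟩
    · intro b c hc
      refine hX c ?_
      simp only [A2, Set.mem_iUnion]
      exact ⟨p, Finset.mem_range.2 (by omega), q, Finset.mem_range.2 (by omega), I, x, hx,
        Or.inr (Set.mem_iUnion.2 ⟨b, hc⟩)⟩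
  let Φ : (ℂ ≃+* ℂ) → ℙ ℂ (Fin (N + 1) → ℂ) → ℙ ℂ (Fin (N + 1) → ℂ) := fun β => Phi F ρ β
  -- the moved simplices and the convergence of the integrals
  have fam : ∀ (x : Gen N) (v : _), IsLift F x.2.2.1 x.2.2.2 v → x.1 + x.2.1 = 2 * k →
      ∃ J : (ℂ ≃+* ℂ) → ℂ, Tendsto J nearId (𝓝 (formIntegral (w x.1 x.2.1 x.2.2.1) v)) ∧
        ∀ᶠ β in nearId, ∃ v', IsLift (conjEqs β F) x.2.2.1 (push (Φ β) x).2.2.2 v' ∧
          J β = formIntegral ((w.conj β) x.1 x.2.1 x.2.2.1) v' := by
    rintro ⟨p, q, I, s⟩ v hv hpq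
    obtain ⟨V, hV, hVv, hev⟩ := exists_family hG hv
    refine ⟨fun β => formIntegral ((w.conj β) p q I) fun t => V (res X β, t), ?_, ?_⟩
    · exact tendsto_formIntegral (hhod.1 p q hpq I) (hcoef p q hpq I) hV hVv hv.inOpen
    · have h1 := (tendsto_res X).eventually hev
      filter_upwards [h1] with β hβ
      exact ⟨_, hβ β rfl, rfl⟩
  have famlift : ∀ (x : Gen N), Liftable F x →
      ∀ᶠ β in nearId, Liftable (conjEqs β F) (push (Φ β) x) := by
    rintro ⟨p, q, I, s⟩ ⟨v, hv⟩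
    obtain ⟨V, hV, hVv, hev⟩ := exists_family hG hv
    have h1 := (tendsto_res X).eventually hev
    filter_upwards [h1] with β hβ
    exact ⟨_, hβ β rfl⟩
  have hpi : (2 * (Real.pi : ℂ) * Complex.I) ^ k ≠ 0 :=
    pow_ne_zero _ (by simp [Real.pi_ne_zero])
  set c := (2 * (Real.pi : ℂ) * Complex.I) ^ k with hc
  -- the relations for the conjugates
  have hfreq : ∃ᶠ β in nearId, ∃ (r : SingCochain N ℤ) (b : SingCochain N ℂ),
      (∀ x : Gen N, x.1 + x.2.1 = 2 * k + 1 → Liftable (conjEqs β F) x →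
        totD r x.1 x.2.1 x.2.2.1 x.2.2.2 = 0) ∧
      ∀ x : Gen N, x.1 + x.2.1 = 2 * k → ∀ v, IsLift (conjEqs β F) x.2.2.1 x.2.2.2 v →
        M * formIntegral ((w.conj β) x.1 x.2.1 x.2.2.1) v =
          c * ((cg r x : ℤ) : ℂ) + evc (cg b) (bd x) := by
    refine h.mono ?_
    rintro β ⟨r, b, h1, h2⟩
    refine ⟨r, b, ?_, ?_⟩
    · rintro ⟨p, q, I, s⟩ hpq ⟨v, hv⟩
      exact h1 p q hpq I s v hv
    · rintro ⟨p, q, I, s⟩ hpq v hv
      rw [evc_bd]
      exact h2 p q hpq I s v hv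
  -- independence of the lift
  have hindep : ∀ (x : Gen N) (v v' : _), IsLift F x.2.2.1 x.2.2.2 v →
      IsLift F x.2.2.1 x.2.2.2 v' → x.1 + x.2.1 = 2 * k →
      (M : ℂ) * formIntegral (w x.1 x.2.1 x.2.2.1) v =
        M * formIntegral (w x.1 x.2.1 x.2.2.1) v' := by
    intro x v v' hv hv' hpq
    obtain ⟨J, hJ, hJe⟩ := fam x v hv hpq
    obtain ⟨J', hJ', hJe'⟩ := fam x v' hv' hpq
    have h1 : Tendsto (fun β => (M : ℂ) * J β - M * J' β) nearId
        (𝓝 ((M : ℂ) * formIntegral (w x.1 x.2.1 x.2.2.1) v -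
          M * formIntegral (w x.1 x.2.1 x.2.2.1) v')) :=
      (hJ.const_mul _).sub (hJ'.const_mul _)
    have h2 : ∃ᶠ β in nearId, (M : ℂ) * J β - M * J' β ∈ ({0} : Set ℂ) := by
      refine ((hfreq.and_eventually hJe).and_eventually hJe').mono ?_
      rintro β ⟨⟨⟨r, b, -, h3⟩, v1, h4, h5⟩, v2, h6, h7⟩
      rw [h5, h7]
      have h8 := h3 (push (Φ β) x) hpq v1 h4
      have h9 := h3 (push (Φ β) x) hpq v2 h6
      change (M : ℂ) * formIntegral ((w.conj β) x.1 x.2.1 x.2.2.1) v1 = _ at h8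
      change (M : ℂ) * formIntegral ((w.conj β) x.1 x.2.1 x.2.2.1) v2 = _ at h9
      rw [h8, h9, sub_self]
      rfl
    have h3 := isClosed_singleton.mem_of_frequently_of_tendsto h2 h1
    exact sub_eq_zero.1 h3
  -- the chosen lifts
  let ι := {x : Gen N // Liftable F x ∧ x.1 + x.2.1 = 2 * k}
  choose vι hvι using fun x : ι => x.2.1
  let W : Gen N → ℂ := fun x => if hx : Liftable F x ∧ x.1 + x.2.1 = 2 * k then
    M * formIntegral (w x.1 x.2.1 x.2.2.1) (vι ⟨x, hx⟩) else 0
  choose J hJ hJe using fun x : ι => fam x.1 (vι x) (hvι x) x.2.2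
  let Wb : (ℂ ≃+* ℂ) → Gen N → ℂ := fun β x =>
    if hx : Liftable F x ∧ x.1 + x.2.1 = 2 * k then M * J ⟨x, hx⟩ β else 0
  have hWtend : ∀ z : Gen N →₀ ℤ, Tendsto (fun β => evc (Wb β) z) nearId (𝓝 (evc W z)) := by
    intro z
    simp only [evc_eq_sum]
    refine tendsto_finsetSum _ fun y _ => ?_
    refine Tendsto.const_mul _ ?_
    by_cases hy : Liftable F y ∧ y.1 + y.2.1 = 2 * k
    · simp only [Wb, W, dif_pos hy]
      exact (hJ ⟨y, hy⟩).const_mul _
    · simp only [Wb, W, dif_neg hy]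
      exact tendsto_const_nhds
  -- for a chain in degree `2k` the relation holds for frequently many automorphisms
  have hWfreq : ∀ z : Gen N →₀ ℤ, (∀ y ∈ z.support, Liftable F y ∧ y.1 + y.2.1 = 2 * k) →
      ∀ P : (ℂ ≃+* ℂ) → Prop, (∀ᶠ β in nearId, P β) → ∃ᶠ β in nearId, P β ∧
        ∃ (r : SingCochain N ℤ) (b : SingCochain N ℂ),
        (∀ x : Gen N, x.1 + x.2.1 = 2 * k + 1 → Liftable (conjEqs β F) x →
          totD r x.1 x.2.1 x.2.2.1 x.2.2.2 = 0) ∧
        evc (Wb β) z = c * (evc (cg r ∘ push (Φ β)) z : ℤ) +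
          evc (fun y => evc (cg b) (bd (push (Φ β) y))) z := by
    intro z hz P hP
    have h1 : ∀ᶠ β in nearId, ∀ y ∈ z.support, ∀ hy : Liftable F y ∧ y.1 + y.2.1 = 2 * k,
        ∃ v', IsLift (conjEqs β F) y.2.2.1 (push (Φ β) y).2.2.2 v' ∧
          J ⟨y, hy⟩ β = formIntegral ((w.conj β) y.1 y.2.1 y.2.2.1) v' := by
      rw [Filter.eventually_all_finset]
      intro y hy
      have hy' := hz y hy
      filter_upwards [hJe ⟨y, hy'⟩] with β hβ _
      exact hβ
    refine ((hfreq.and_eventually h1).and_eventually hP).mono ?_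
    rintro β ⟨⟨⟨r, b, h2, h3⟩, h4⟩, h5⟩
    refine ⟨h5, r, b, h2, ?_⟩
    have h6 : ∀ y ∈ z.support, Wb β y =
        c * ((cg r (push (Φ β) y) : ℤ) : ℂ) + evc (cg b) (bd (push (Φ β) y)) := by
      intro y hy
      have hy' := hz y hy
      obtain ⟨v', h7, h8⟩ := h4 y hy hy'
      simp only [Wb, dif_pos hy']
      rw [h8]
      exact h3 (push (Φ β) y) hy'.2 v' h7
    rw [evc_congr h6, evc_eq_sum, evc_eq_sum, evc_eq_sum]
    push_cast
    rw [Finset.mul_sum, ← Finset.sum_add_distrib]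
    refine Finset.sum_congr rfl fun y _ => ?_
    simp only [Function.comp_apply]
    ring
  -- the integrals vanish on boundaries
  have hbound : ∀ x : Gen N, Liftable F x → x.1 + x.2.1 = 2 * k + 1 → evc W (bd x) = 0 := by
    intro x hx hpq
    have h1 := hWfreq (bd x) (hx.bd hpq) _ (famlift x hx)
    have h2 : ∃ᶠ β in nearId, evc (Wb β) (bd x) ∈ ({0} : Set ℂ) := by
      refine h1.mono ?_
      rintro β ⟨h3, r, b, h4, h5⟩
      rw [h5]
      have h6 : evc (cg r ∘ push (Φ β)) (bd x) = 0 := by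
        rw [← evc_mapDomain, ← bd_push, evc_bd]
        exact h4 (push (Φ β) x) hpq h3
      have h7 : evc (fun y => evc (cg b) (bd (push (Φ β) y))) (bd x) = 0 := by
        have h8 : (fun y => evc (cg b) (bd (push (Φ β) y))) =
            (fun y => evc (cg b) (bd y)) ∘ push (Φ β) := rfl
        rw [h8, ← evc_mapDomain, ← bd_push]
        have h9 : (fun y : Gen N => evc (cg b) (bd y)) =
            cg (fun p q I (s : Simplex N q) => totD b p q I s) := by
          funext y
          rw [evc_bd]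
          rfl
        rw [h9, evc_bd]
        exact totD_totD b _ _ _ _
      rw [h6, h7]
      simp
    exact isClosed_singleton.mem_of_frequently_of_tendsto h2 (hWtend (bd x))
  -- the integrals are integral multiples on cycles
  have hcyc : ∀ z : Gen N →₀ ℤ, (∀ y ∈ z.support, Liftable F y ∧ y.1 + y.2.1 = 2 * k) →
      Finsupp.linearCombination ℤ (bd : Gen N → (Gen N →₀ ℤ)) z = 0 →
      ∃ n : ℤ, evc W z = c * n := by
    intro z hz hz0
    have h1 := hWfreq z hz (fun _ => True) (Eventually.of_forall fun _ => trivial)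
    have h2 : ∃ᶠ β in nearId, c⁻¹ * evc (Wb β) z ∈ Set.range ((↑) : ℤ → ℂ) := by
      refine h1.mono ?_
      rintro β ⟨-, r, b, -, h5⟩
      refine ⟨evc (cg r ∘ push (Φ β)) z, ?_⟩
      rw [h5]
      have h7 : evc (fun y => evc (cg b) (bd (push (Φ β) y))) z = 0 := by
        have h8 : ∀ z : Gen N →₀ ℤ, evc (fun y => evc (cg b) (bd (push (Φ β) y))) z =
            evc (cg b) (Finsupp.mapDomain (push (Φ β))
              (Finsupp.linearCombination ℤ (bd : Gen N → (Gen N →₀ ℤ)) z)) := by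
          intro z
          induction z using Finsupp.induction_linear with
          | zero => simp
          | add x y hx hy => rw [map_add, hx, hy, map_add, Finsupp.mapDomain_add, map_add]
          | single y n =>
            rw [evc_single, Finsupp.linearCombination_single, Finsupp.mapDomain_smul,
              map_zsmul, bd_push, zsmul_eq_mul]
        rw [h8, hz0, Finsupp.mapDomain_zero, map_zero]
      rw [h7, add_zero, ← mul_assoc, inv_mul_cancel₀ hpi, one_mul]
    obtain ⟨n, hn⟩ := isClosed_range_intCast.mem_of_frequently_of_tendsto h2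
      ((hWtend z).const_mul c⁻¹)
    refine ⟨n, ?_⟩
    rw [hn, ← mul_assoc, mul_inv_cancel₀ hpi, one_mul]
  -- universal coefficients
  obtain ⟨b0, hb0⟩ := duality (fun x : ι => bd x.1) (fun x : ι => c⁻¹ * W x.1) (by
    intro z hz
    have h1 : Finsupp.linearCombination ℤ (bd : Gen N → (Gen N →₀ ℤ))
        (Finsupp.mapDomain Subtype.val z) = 0 := by
      rw [Finsupp.linearCombination_mapDomain]
      exact hz
    obtain ⟨n, hn⟩ := hcyc (Finsupp.mapDomain Subtype.val z) (by
      intro y hy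
      obtain ⟨x, -, rfl⟩ := Finset.mem_image.1 (Finsupp.mapDomain_support hy)
      exact x.2) h1
    refine ⟨n, ?_⟩
    have h2 : Finsupp.linearCombination ℤ (fun x : ι => c⁻¹ * W x.1) z =
        c⁻¹ * evc W (Finsupp.mapDomain Subtype.val z) := by
      unfold evc
      rw [Finsupp.linearCombination_mapDomain, Finsupp.linearCombination_apply,
        Finsupp.linearCombination_apply, Finsupp.sum, Finsupp.sum, Finset.mul_sum]
      refine Finset.sum_congr rfl fun x _ => ?_
      simp only [zsmul_eq_mul, Function.comp_apply]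
      ring
    rw [h2, hn, ← mul_assoc, inv_mul_cancel₀ hpi, one_mul])
  choose nι hnι using hb0
  let r : SingCochain N ℤ := fun p q I s =>
    if hx : Liftable F (⟨p, q, I, s⟩ : Gen N) ∧ p + q = 2 * k then nι ⟨⟨p, q, I, s⟩, hx⟩ else 0
  let b : SingCochain N ℂ := fun p q I s => c * b0 ⟨p, q, I, s⟩
  have hcgb : ∀ z : Gen N →₀ ℤ, evc (cg b) z = c * evc b0 z := by
    intro z
    rw [evc_eq_sum, evc_eq_sum, Finset.mul_sum]
    refine Finset.sum_congr rfl fun y _ => ?_
    simp only [cg, b]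
    ring
  have hrel : ∀ x : Gen N, Liftable F x ∧ x.1 + x.2.1 = 2 * k →
      ((cg r x : ℤ) : ℂ) = c⁻¹ * W x - evc b0 (bd x) := by
    intro x hx
    have h1 : cg r x = nι ⟨x, hx⟩ := dif_pos hx
    rw [h1]
    have h2 := hnι ⟨x, hx⟩
    simp only [] at h2
    rw [h2]
    unfold evc
    ring
  refine ⟨r, b, ?_, ?_⟩
  · intro p q hpq I s v hv
    let x : Gen N := ⟨p, q, I, s⟩
    have hx : Liftable F x := ⟨v, hv⟩
    have h1 : (((totD r p q I s : ℤ)) : ℂ) = 0 := by
      have h2 : totD r p q I s = evc (cg r) (bd x) := (evc_bd r x).symm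
      rw [h2, evc_eq_sum]
      push_cast
      have h3 : ∑ y ∈ (bd x).support, ((bd x) y : ℂ) * ((cg r y : ℤ) : ℂ) =
          ∑ y ∈ (bd x).support, ((bd x) y : ℂ) * (c⁻¹ * W y - evc b0 (bd y)) := by
        refine Finset.sum_congr rfl fun y hy => ?_
        rw [hrel y (hx.bd hpq y hy)]
      rw [h3]
      simp only [mul_sub, Finset.sum_sub_distrib]
      have h4 : ∑ y ∈ (bd x).support, ((bd x) y : ℂ) * (c⁻¹ * W y) = c⁻¹ * evc W (bd x) := by
        rw [evc_eq_sum, Finset.mul_sum]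
        refine Finset.sum_congr rfl fun y _ => ?_
        ring
      have h5 : ∑ y ∈ (bd x).support, ((bd x) y : ℂ) * evc b0 (bd y) = 0 := by
        rw [← evc_eq_sum (fun y => evc b0 (bd y))]
        have h6 : (fun y : Gen N => evc b0 (bd y)) =
            cg (fun p q I (s : Simplex N q) =>
              totD (fun p q I (s : Simplex N q) => b0 ⟨p, q, I, s⟩) p q I s) := by
          funext y
          exact evc_bd (fun p q I (s : Simplex N q) => b0 ⟨p, q, I, s⟩) y
        rw [h6, evc_bd]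
        exact totD_totD _ _ _ _ _
      rw [h4, h5, hbound x hx hpq]
      simp
    exact_mod_cast h1
  · intro p q hpq I s v hv
    let x : Gen N := ⟨p, q, I, s⟩
    have hx : Liftable F x ∧ x.1 + x.2.1 = 2 * k := ⟨⟨v, hv⟩, hpq⟩
    have h1 : totD b p q I s = evc (cg b) (bd x) := (evc_bd b x).symm
    have h2 : (r p q I s : ℂ) = c⁻¹ * W x - evc b0 (bd x) := hrel x hx
    have h3 : W x = M * formIntegral (w p q I) (vι ⟨x, hx⟩) := dif_pos hx
    have h4 := hindep x v (vι ⟨x, hx⟩) hv (hvι ⟨x, hx⟩) hpq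
    change (M : ℂ) * formIntegral (w p q I) v = M * formIntegral (w p q I) (vι ⟨x, hx⟩) at h4
    change (M : ℂ) * formIntegral (w p q I) v = c * (r p q I s : ℂ) + totD b p q I s
    rw [h1, h2, hcgb, h4, h3]
    field_simp
    ring

/-- **the automorphisms for which the conjugate of a given class is integral are closed for
pointwise convergence in the usual topology of `ℂ`** -/
theorem isIntegral_conj_closed {M : ℕ} (d : Datum) (σ : ℂ ≃+* ℂ)
    (h : ∀ A : Finset ℂ, ∀ ε > 0, ∃ τ : ℂ ≃+* ℂ, IsIntegral M (d.conj τ) ∧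
      ∀ a ∈ A, ‖τ a - σ a‖ < ε) : IsIntegral M (d.conj σ) := by
  refine integral_of_frequently ?_
  rw [nearId, Filter.frequently_comap, nhds_pi]
  intro hcon
  rw [Filter.Eventually, Filter.mem_pi] at hcon
  obtain ⟨S, hS, t, ht, hsub⟩ := hcon
  have h1 : ∀ x ∈ S, ∃ ε > 0, Metric.ball x ε ⊆ t x := fun x _ =>
    Metric.mem_nhds_iff.1 (ht x)
  choose! ε hε hεt using h1
  obtain ⟨δ, hδ, hδε⟩ : ∃ δ > 0, ∀ x ∈ S, δ ≤ ε x := by
    rcases S.eq_empty_or_nonempty with rfl | hne
    · exact ⟨1, one_pos, by simp⟩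
    · obtain ⟨x0, hx0, hmin⟩ := hS.exists_minimalFor ε S hne
      refine ⟨ε x0, hε x0 hx0, fun x hx => ?_⟩
      rcases le_total (ε x0) (ε x) with h2 | h2
      · exact h2
      · exact hmin hx h2
  obtain ⟨τ, hτ, hτσ⟩ := h (hS.toFinset.image σ.symm) δ hδ
  have h2 : ((σ.symm.trans τ : ℂ ≃+* ℂ) : ℂ → ℂ) ∈ S.pi t := by
    intro x hx
    refine hεt x hx ?_
    rw [Metric.mem_ball, dist_eq_norm]
    have h3 := hτσ (σ.symm x) (Finset.mem_image_of_mem _ (hS.mem_toFinset.2 hx))
    rw [σ.apply_symm_apply] at h3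
    exact lt_of_lt_of_le h3 (hδε x hx)
  refine hsub h2 ⟨σ.symm.trans τ, rfl, ?_⟩
  have h4 : (d.conj σ).conj (σ.symm.trans τ) = d.conj τ := by
    rw [Datum.conj_conj]
    congr 1
    ext x
    simp
  rw [h4]
  exact hτ

/-- the automorphisms with the integral form of Q1 are closed for pointwise convergence in the
usual topology of `ℂ` -/
theorem integralPart_closed {C : Set Datum} (σ : ℂ ≃+* ℂ)
    (h : ∀ A : Finset ℂ, ∀ ε > 0, ∃ τ : ℂ ≃+* ℂ, IntegralPart C τ ∧ ∀ a ∈ A, ‖τ a - σ a‖ < ε) :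
    IntegralPart C σ := by
  intro M hM d hd hr
  refine isIntegral_conj_closed d σ fun A ε hε => ?_
  obtain ⟨τ, hτ, h1⟩ := h A ε hε
  exact ⟨τ, hτ M hM d hd hr, h1⟩

end Pool.Agent.AHI
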