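import Mathlib
import Pool.Agent.AHC.Glue

/-!
# Gluing automorphisms over a common algebraically closed subfield
-/

namespace Pool.Agent.AHI

open Pool.Agent.AHC TensorProduct Cardinal

/-- an element of `cl (D ∪ B)` outside `cl D` is moved by an automorphism fixing `cl X` and
preserving `cl (D ∪ B)`, if `B` is independent over `X ⊇ D` -/
theorem exists_stab_moveD {D X B : Set ℂ} (hDX : D ⊆ X) (hB : IndOver X B) {m : ℂ}
    (hm : m ∈ cl (D ∪ B)) (hm0 : m ∉ cl D) :
    ∃ γ : ℂ ≃+* ℂ, (∀ z ∈ cl X, γ z = z) ∧ (∀ z ∈ cl (D ∪ B), γ z ∈ cl (D ∪ B)) ∧ γ m ≠ m := by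
  have key : ∀ I : Finset ℂ, (I : Set ℂ) ⊆ B → m ∈ cl (D ∪ I) →
      ∃ J : Set ℂ, J ⊆ B ∧ ∃ b ∈ J, m ∈ cl (D ∪ J) ∧ m ∉ cl (D ∪ (J \ {b})) := by
    intro I
    induction I using Finset.strongInduction with
    | H I ih =>
      intro hI hmI
      by_cases h : ∃ b ∈ I, m ∈ cl (D ∪ ((I : Set ℂ) \ {b}))
      · obtain ⟨b, hb, hmb⟩ := h
        refine ih (I.erase b) (Finset.erase_ssubset hb) ?_ ?_
        · rw [Finset.coe_erase]
          exact Set.sdiff_subset.trans hI
        · rw [Finset.coe_erase]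
          exact hmb
      · push Not at h
        have hne : I.Nonempty := by
          rw [Finset.nonempty_iff_ne_empty]
          rintro rfl
          rw [Finset.coe_empty, Set.union_empty] at hmI
          exact hm0 hmI
        obtain ⟨b, hb⟩ := hne
        exact ⟨I, hI, b, hb, hmI, h b hb⟩
  obtain ⟨I, hIB, hIf, -, hmI⟩ := exists_finite_of_mem_cl hm
  have hIBf : (I ∩ B).Finite := hIf.subset Set.inter_subset_left
  obtain ⟨J, hJ, b, hb, h1, h2⟩ := key hIBf.toFinset (by simp) (by
    refine cl_mono ?_ hmI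
    intro z hz
    rw [Set.Finite.coe_toFinset]
    rcases hIB hz with h | h
    · exact Or.inl h
    · exact Or.inr ⟨hz, h⟩)
  have h3 : D ∪ J = insert b (D ∪ (J \ {b})) := by
    rw [← Set.union_insert, Set.insert_sdiff_singleton, Set.insert_eq_of_mem hb]
  have h4 : b ∈ cl (insert m (D ∪ (J \ {b}))) := cl_exchange (by rwa [← h3]) h2
  have hJB : J \ {b} ⊆ B \ {b} := Set.sdiff_subset_sdiff_left hJ
  have h5 : m ∉ cl (X ∪ (B \ {b})) := by
    intro h
    refine hB b (hJ hb) ?_
    refine (cl_subset_iff.2 ?_) h4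
    rintro z (rfl | hz | hz)
    · exact h
    · exact subset_cl _ (Or.inl (hDX hz))
    · exact subset_cl _ (Or.inr (hJB hz))
  have h6 : m + 1 ∉ cl (X ∪ (B \ {b})) := by
    intro h
    have h' : m + 1 - 1 ∈ clF (X ∪ (B \ {b})) := (clF _).sub_mem h (clF _).one_mem
    rw [add_sub_cancel_right] at h'
    exact h5 h'
  obtain ⟨γ, hγ, hγm⟩ := exists_move h5 h6
  have hfix : ∀ z ∈ D ∪ (B \ {b}), γ z = z := by
    rintro z (hz | hz)
    · exact hγ z (subset_cl _ (Or.inl (hDX hz)))
    · exact hγ z (subset_cl _ (Or.inr hz))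
  refine ⟨γ, fun z hz => hγ z (cl_mono Set.subset_union_left hz), fun z hz => ?_, ?_⟩
  · have h7 : z ∈ cl (insert m (D ∪ (B \ {b}))) := by
      refine (cl_subset_iff.2 ?_) hz
      rintro y (hy | hy)
      · exact subset_cl _ (Or.inr (Or.inl hy))
      · by_cases hyb : y = b
        · rw [hyb]
          exact cl_mono (Set.insert_subset_insert (Set.union_subset_union_right _ hJB)) h4
        · exact subset_cl _ (Or.inr (Or.inr ⟨hy, hyb⟩))
    have h8 := map_mem_cl γ h7
    refine (cl_subset_iff.2 ?_) h8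
    rintro _ ⟨y, (rfl | hy), rfl⟩
    · rw [hγm]
      exact (clF (D ∪ B)).add_mem hm (clF (D ∪ B)).one_mem
    · rw [hfix y hy]
      refine subset_cl _ ?_
      rcases hy with hy | hy
      · exact Or.inl hy
      · exact Or.inr hy.1
  · rw [hγm]
    simp

/-- linear disjointness of `cl X` and `cl (D ∪ B)` over `cl D` -/
theorem linDisjD {D X B : Set ℂ} (hDX : D ⊆ X) (hB : IndOver X B) {ι : Type} (d : ι → ℂ)
    (hd : ∀ i, d i ∈ cl X) (hli : LinearIndependent (clF D) d) (s : Finset ι) :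
    ∀ m : ι → ℂ, (∀ i, m i ∈ cl (D ∪ B)) → ∑ i ∈ s, d i * m i = 0 → ∀ i ∈ s, m i = 0 := by
  classical
  induction s using Finset.induction_on with
  | empty => intro m _ _ i hi; simp at hi
  | insert j s hj ih =>
    intro m hm h
    by_cases hmj : m j = 0
    · rw [Finset.sum_insert hj, hmj, mul_zero, zero_add] at h
      intro i hi
      rcases Finset.mem_insert.1 hi with rfl | hi
      · exact hmj
      · exact ih m hm h i hi
    · exfalso
      let m' : ι → ℂ := fun i => m i * (m j)⁻¹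
      have hm' : ∀ i, m' i ∈ cl (D ∪ B) := fun i => (clF (D ∪ B)).mul_mem (hm i)
        (clF_inv_mem (hm j))
      have hm'j : m' j = 1 := mul_inv_cancel₀ hmj
      have h' : ∑ i ∈ insert j s, d i * m' i = 0 := by
        have h1 : ∑ i ∈ insert j s, d i * m' i = (∑ i ∈ insert j s, d i * m i) * (m j)⁻¹ := by
          rw [Finset.sum_mul]
          exact Finset.sum_congr rfl fun i _ => (mul_assoc _ _ _).symm
        rw [h1, h, zero_mul]
      have hk : ∀ i ∈ s, m' i ∈ cl D := by
        intro i hi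
        by_contra hcon
        obtain ⟨γ, h1, h2, h3⟩ := exists_stab_moveD hDX hB (hm' i) hcon
        have h4 : ∑ i ∈ s, d i * (γ (m' i) - m' i) = 0 := by
          have h5 := congrArg γ h'
          rw [map_sum, map_zero] at h5
          have h6 : ∑ i ∈ insert j s, d i * (γ (m' i) - m' i) = 0 := by
            have : ∑ i ∈ insert j s, d i * (γ (m' i) - m' i) =
                ∑ i ∈ insert j s, γ (d i * m' i) - ∑ i ∈ insert j s, d i * m' i := by
              rw [← Finset.sum_sub_distrib]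
              refine Finset.sum_congr rfl fun i _ => ?_
              rw [map_mul γ (d i) (m' i), h1 _ (hd i)]
              ring
            rw [this, h5, h', sub_zero]
          rw [Finset.sum_insert hj, hm'j, map_one, sub_self, mul_zero, zero_add] at h6
          exact h6
        have h7 := ih (fun i => γ (m' i) - m' i)
          (fun i => (clF (D ∪ B)).sub_mem (h2 _ (hm' i)) (hm' i)) h4 i hi
        exact h3 (sub_eq_zero.1 h7)
      have hk' : ∀ i ∈ insert j s, m' i ∈ clF D := by
        intro i hi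
        rcases Finset.mem_insert.1 hi with rfl | hi
        · rw [hm'j]
          exact (clF D).one_mem
        · exact hk i hi
      rw [linearIndependent_iff'] at hli
      let g : ι → clF D := fun i => if hi : i ∈ insert j s then ⟨m' i, hk' i hi⟩ else 0
      have h8 : ∑ i ∈ insert j s, g i • d i = 0 := by
        rw [← h']
        refine Finset.sum_congr rfl fun i hi => ?_
        simp only [g, dif_pos hi]
        rw [IntermediateField.smul_def, smul_eq_mul, mul_comm]
      have h9 := hli (insert j s) g h8 j (Finset.mem_insert_self j s)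
      simp only [g, dif_pos (Finset.mem_insert_self j s)] at h9
      have h10 := congrArg Subtype.val h9
      simp only [hm'j] at h10
      exact one_ne_zero h10

/-- `cl X` as a subalgebra over `cl D` -/
noncomputable def clKD (D X : Set ℂ) (h : D ⊆ X) : Subalgebra (clF D) ℂ where
  carrier := cl X
  mul_mem' := fun ha hb => (clF X).mul_mem ha hb
  one_mem' := (clF X).one_mem
  add_mem' := fun ha hb => (clF X).add_mem ha hb
  zero_mem' := (clF X).zero_mem
  algebraMap_mem' := fun r => clF_mono h r.2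

/-- injectivity of the map from the tensor product -/
theorem productMapD_injective {D X B : Set ℂ} (hDX : D ⊆ X) (hB : IndOver X B) {P : Type}
    [CommRing P] [Algebra (clF D) P] (g : P →ₐ[clF D] ℂ) (hg : Function.Injective g)
    (hgB : ∀ p, g p ∈ cl (D ∪ B)) :
    Function.Injective (Algebra.TensorProduct.productMap (clKD D X hDX).val g) := by
  rw [injective_iff_map_eq_zero]
  intro x hx
  let b := Module.Basis.ofVectorSpace (clF D) (clKD D X hDX)
  let e := TensorProduct.equivFinsuppOfBasisLeft (N := P) b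
  obtain ⟨y, rfl⟩ := e.symm.surjective x
  have h1 : e.symm y = y.sum fun i p => b i ⊗ₜ[clF D] p := by
    simp only [e]
    exact TensorProduct.equivFinsuppOfBasisLeft_symm_apply b y
  rw [h1, Finsupp.sum, map_sum] at hx
  have h2 : ∑ i ∈ y.support, (b i : ℂ) * g (y i) = 0 := by
    rw [← hx]
    refine Finset.sum_congr rfl fun i _ => ?_
    rw [Algebra.TensorProduct.productMap_apply_tmul]
    rfl
  have hli : LinearIndependent (clF D) (fun i => (b i : ℂ)) := by
    have h3 := b.linearIndependent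
    exact h3.map' (clKD D X hDX).val.toLinearMap (LinearMap.ker_eq_bot.2 Subtype.val_injective)
  have h4 := linDisjD hDX hB (fun i => (b i : ℂ)) (fun i => (b i).2) hli y.support
    (fun i => g (y i)) (fun i => hgB _) h2
  have h5 : y = 0 := by
    ext i
    by_cases hi : i ∈ y.support
    · have := h4 i hi
      have h6 : g (y i) = g 0 := by rw [this, map_zero]
      exact hg h6
    · exact Finsupp.notMem_support_iff.1 hi
  rw [h5, map_zero]

/-- if the image of a ring contains a set generating `ℂ` up to algebraic elements, then `ℂ` is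
algebraic over the ring -/
theorem isAlgebraic_of_range {S : Type} [CommRing S] [Algebra ℚ S] (φ : S →+* ℂ)
    (hφ : Function.Injective φ) {Z : Set ℂ} (hZ : Z ⊆ Set.range φ) (hZ' : cl Z = Set.univ) :
    @Algebra.IsAlgebraic S ℂ _ _ φ.toAlgebra := by
  let i1 : Algebra S ℂ := φ.toAlgebra
  let φ' : S →ₐ[ℚ] ℂ := φ.toRatAlgHom
  have h1 : Algebra.adjoin ℚ Z ≤ φ'.range := Algebra.adjoin_le fun z hz => hZ hz
  let e := AlgEquiv.ofInjective φ' hφ
  let j : Algebra.adjoin ℚ Z →ₐ[ℚ] S := e.symm.toAlgHom.comp (Subalgebra.inclusion h1)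
  have hj : ∀ x, φ (j x) = x := by
    intro x
    have h2 := congrArg Subtype.val (e.apply_symm_apply (Subalgebra.inclusion h1 x))
    exact h2
  have hji : Function.Injective j := by
    intro x y hxy
    apply Subtype.ext
    rw [← hj x, ← hj y, hxy]
  refine ⟨fun z => ?_⟩
  have hz : IsAlgebraic (Algebra.adjoin ℚ Z) z := by
    have : z ∈ cl Z := by
      rw [hZ']
      exact Set.mem_univ z
    exact this
  refine IsAlgebraic.ringHom_of_comp_eq (S := S) j (RingHom.id ℂ) hz hji ?_
  ext x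
  exact hj x

/-- two embeddings of a ring with large image differ by an automorphism of `ℂ` -/
theorem exists_aut_of_range {S : Type} [CommRing S] [Algebra ℚ S] (φ ψ : S →+* ℂ)
    (hφ : Function.Injective φ) (hψ : Function.Injective ψ) {Z Z' : Set ℂ}
    (hZ : Z ⊆ Set.range φ) (hcZ : cl Z = Set.univ) (hZ' : Z' ⊆ Set.range ψ)
    (hcZ' : cl Z' = Set.univ) : ∃ α : ℂ ≃+* ℂ, ∀ t, α (φ t) = ψ t := by
  have h1 := isAlgebraic_of_range φ hφ hZ hcZ
  have h2 := isAlgebraic_of_range ψ hψ hZ' hcZ'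
  have h3 : @Algebra.trdeg S ℂ _ _ φ.toAlgebra = @Algebra.trdeg S ℂ _ _ ψ.toAlgebra := by
    rw [@trdeg_eq_zero S ℂ _ _ φ.toAlgebra h1, @trdeg_eq_zero S ℂ _ _ ψ.toAlgebra h2]
  exact @exists_ringEquiv S ℂ ℂ _ _ _ _ _ φ.toAlgebra ψ.toAlgebra
    ((@faithfulSMul_iff_algebraMap_injective S ℂ _ _ φ.toAlgebra).2 hφ)
    ((@faithfulSMul_iff_algebraMap_injective S ℂ _ _ ψ.toAlgebra).2 hψ) h3

/-- the two maps from the tensor product -/
theorem exists_tensor {D X Y : Set ℂ} (hDX : D ⊆ X) (hY : IndOver X Y)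
    (Ψ : ℂ ≃+* ℂ) (hΨ : ∀ z ∈ cl D, Ψ z = z) (hΨY : ∀ y ∈ Y, Ψ y = y) :
    ∃ (S : Type) (_ : CommRing S) (_ : Algebra ℚ S) (φ ψ : S →+* ℂ),
      Function.Injective φ ∧ Function.Injective ψ ∧
      (∀ z ∈ cl X, ∃ s, φ s = z ∧ ψ s = z) ∧ (∀ z ∈ cl (D ∪ Y), ∃ s, φ s = z ∧ ψ s = Ψ z) := by
  let P : Subalgebra (clF D) ℂ := clKD D (D ∪ Y) Set.subset_union_left
  let Ψ' : ℂ →ₐ[clF D] ℂ := AlgHom.mk (Ψ : ℂ →+* ℂ) (fun r => hΨ r.1 r.2)
  have hΨcl : ∀ z ∈ cl (D ∪ Y), Ψ z ∈ cl (D ∪ Y) := by
    intro z hz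
    have h1 := map_mem_cl Ψ hz
    have h2 : Ψ '' (D ∪ Y) = D ∪ Y := by
      ext w
      constructor
      · rintro ⟨y, hy, rfl⟩
        rcases hy with hy | hy
        · rw [hΨ y (subset_cl _ hy)]
          exact Or.inl hy
        · rw [hΨY y hy]
          exact Or.inr hy
      · intro hw
        refine ⟨w, hw, ?_⟩
        rcases hw with hw | hw
        · exact hΨ w (subset_cl _ hw)
        · exact hΨY w hw
    rwa [h2] at h1
  refine ⟨clKD D X hDX ⊗[clF D] P, inferInstance,
    ((algebraMap (clF D) (clKD D X hDX ⊗[clF D] P)).comp (algebraMap ℚ (clF D))).toAlgebra,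
    (Algebra.TensorProduct.productMap (clKD D X hDX).val P.val).toRingHom,
    (Algebra.TensorProduct.productMap (clKD D X hDX).val (Ψ'.comp P.val)).toRingHom,
    ?_, ?_, ?_, ?_⟩
  · exact productMapD_injective hDX hY P.val Subtype.val_injective (fun p => p.2)
  · refine productMapD_injective hDX hY (Ψ'.comp P.val) ?_ (fun p => hΨcl _ p.2)
    intro x y hxy
    exact Subtype.ext (Ψ.injective hxy)
  · intro z hz
    refine ⟨(⟨z, hz⟩ : clKD D X hDX) ⊗ₜ 1, ?_, ?_⟩
    · change Algebra.TensorProduct.productMap _ _ _ = _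
      rw [Algebra.TensorProduct.productMap_apply_tmul, map_one, mul_one]
      rfl
    · change Algebra.TensorProduct.productMap _ _ _ = _
      rw [Algebra.TensorProduct.productMap_apply_tmul, map_one, mul_one]
      rfl
  · intro z hz
    refine ⟨1 ⊗ₜ (⟨z, hz⟩ : P), ?_, ?_⟩
    · change Algebra.TensorProduct.productMap _ _ _ = _
      rw [Algebra.TensorProduct.productMap_apply_tmul, map_one, one_mul]
      rfl
    · change Algebra.TensorProduct.productMap _ _ _ = _
      rw [Algebra.TensorProduct.productMap_apply_tmul, map_one, one_mul]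
      rfl

/-- **gluing over a common algebraically closed subfield** -/
theorem glueD {D X Y : Set ℂ} (hDX : D ⊆ X) (hY : IndOver X Y) (hXY : cl (X ∪ Y) = Set.univ)
    (Ψ : ℂ ≃+* ℂ) (hΨ : ∀ z ∈ cl D, Ψ z = z) (hΨY : ∀ y ∈ Y, Ψ y = y) :
    ∃ h : ℂ ≃+* ℂ, (∀ z ∈ cl X, h z = z) ∧ ∀ z ∈ cl (D ∪ Y), h z = Ψ z := by
  obtain ⟨S, i1, i2, φ, ψ, hφ, hψ, h1, h2⟩ := exists_tensor hDX hY Ψ hΨ hΨY
  obtain ⟨α, hα⟩ := exists_aut_of_range (Z := X ∪ Y) (Z' := X ∪ Y) φ ψ hφ hψ (by
    rintro z (hz | hz)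
    · obtain ⟨s, hs, -⟩ := h1 z (subset_cl _ hz)
      exact ⟨s, hs⟩
    · obtain ⟨s, hs, -⟩ := h2 z (subset_cl _ (Or.inr hz))
      exact ⟨s, hs⟩) hXY (by
    rintro z (hz | hz)
    · obtain ⟨s, -, hs⟩ := h1 z (subset_cl _ hz)
      exact ⟨s, hs⟩
    · obtain ⟨s, -, hs⟩ := h2 z (subset_cl _ (Or.inr hz))
      exact ⟨s, hs.trans (hΨY z hz)⟩) hXY
  refine ⟨α, fun z hz => ?_, fun z hz => ?_⟩
  · obtain ⟨s, hs, hs'⟩ := h1 z hz
    have h := hα s
    rwa [hs, hs'] at h
  · obtain ⟨s, hs, hs'⟩ := h2 z hz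
    have h := hα s
    rwa [hs, hs'] at h

end Pool.Agent.AHI
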