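import Mathlib
import Pool.Agent.AHI.GlueD
import Pool.Agent.AHC.Abs

/-!
# Transcendence bases of `ℂ` indexed by `ℤ × ℂ` and adapted to complex conjugation
-/

namespace Pool.Agent.AHI

open Pool.Agent.AHC Cardinal

/-- `b` is a transcendence basis of `ℂ` -/
structure IsB {ι : Type} (b : ι → ℂ) : Prop where
  ind : AlgebraicIndependent ℚ b
  gen : cl (Set.range b) = Set.univ

instance isAlgebraic_clF_empty : Algebra.IsAlgebraic ℚ (clF ∅) := by
  refine ⟨fun x => ?_⟩
  have h1 : IsAlgebraic ℚ (x : ℂ) := isAlgebraic_of_mem_cl_empty x.2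
  exact (isAlgebraic_algebraMap_iff (algebraMap (clF ∅) ℂ).injective).1 h1

/-- two transcendence bases differ by an automorphism over the algebraic numbers -/
theorem extB {ι : Type} {b b' : ι → ℂ} (hb : IsB b) (hb' : IsB b') :
    ∃ g : ℂ ≃+* ℂ, (∀ z ∈ cl ∅, g z = z) ∧ ∀ i, g (b i) = b' i := by
  have h1 : AlgebraicIndependent (clF ∅) b := hb.ind.extendScalars _
  have h2 : AlgebraicIndependent (clF ∅) b' := hb'.ind.extendScalars _
  obtain ⟨α, hα⟩ := exists_aut_of_range (S := MvPolynomial ι (clF ∅)) (Z := Set.range b)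
    (Z' := Set.range b') (MvPolynomial.aeval b : MvPolynomial ι (clF ∅) →ₐ[clF ∅] ℂ).toRingHom
    (MvPolynomial.aeval b' : MvPolynomial ι (clF ∅) →ₐ[clF ∅] ℂ).toRingHom h1 h2 (by
      rintro _ ⟨i, rfl⟩
      exact ⟨MvPolynomial.X i, MvPolynomial.aeval_X _ _⟩) hb.gen (by
      rintro _ ⟨i, rfl⟩
      exact ⟨MvPolynomial.X i, MvPolynomial.aeval_X _ _⟩) hb'.gen
  refine ⟨α, fun z hz => ?_, fun i => ?_⟩
  · have h := hα (MvPolynomial.C ⟨z, hz⟩)
    change α (MvPolynomial.aeval _ (MvPolynomial.C _)) =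
      MvPolynomial.aeval _ (MvPolynomial.C _) at h
    rw [MvPolynomial.algHom_C, MvPolynomial.algHom_C] at h
    exact h
  · have h := hα (MvPolynomial.X i)
    change α (MvPolynomial.aeval _ (MvPolynomial.X _)) =
      MvPolynomial.aeval _ (MvPolynomial.X _) at h
    rw [MvPolynomial.aeval_X, MvPolynomial.aeval_X] at h
    exact h

/-- affine changes of the elements of a transcendence basis -/
theorem IsB.affine {ι : Type} {b : ι → ℂ} (hb : IsB b) (q : ι → ℚ) (w : ι → ℂ)
    (hq : ∀ i, q i ≠ 0) (hw : ∀ i, w i ∈ cl ∅) : IsB (fun i => (q i : ℂ) * b i + w i) := by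
  constructor
  · have h1 : AlgebraicIndependent (clF ∅) b := hb.ind.extendScalars _
    let q' : ι → clF ∅ := fun i => algebraMap ℚ (clF ∅) (q i)
    have hq' : ∀ i, q' i ≠ 0 := fun i h => hq i (by
      have h2 : algebraMap ℚ (clF ∅) (q i) = algebraMap ℚ (clF ∅) 0 := by rw [map_zero]; exact h
      exact (algebraMap ℚ (clF ∅)).injective h2)
    let f : ι → Polynomial (clF ∅) := fun i =>
      Polynomial.C (q' i) * Polynomial.X + Polynomial.C ⟨w i, hw i⟩
    have hdeg : ∀ i, (f i).natDegree = 1 := fun i => Polynomial.natDegree_linear (hq' i)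
    have hf : ∀ i, Transcendental (clF ∅) (f i) := by
      intro i
      refine Polynomial.transcendental (f i) (by rw [hdeg i]; exact one_ne_zero) ?_
      rw [mem_nonZeroDivisors_iff_ne_zero]
      intro h
      rw [Polynomial.leadingCoeff_eq_zero] at h
      have h3 := hdeg i
      rw [h] at h3
      simp at h3
    have h2 := (h1.polynomial_aeval_of_transcendental hf).restrictScalars (R := ℚ)
      (algebraMap ℚ (clF ∅)).injective
    have h3 : (fun i => Polynomial.aeval (b i) (f i)) = fun i => (q i : ℂ) * b i + w i := by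
      funext i
      simp only [f, q', map_add, map_mul, Polynomial.aeval_C, Polynomial.aeval_X]
      rfl
    rwa [h3] at h2
  · apply Set.eq_univ_of_univ_subset
    rw [← hb.gen, cl_subset_iff]
    rintro _ ⟨i, rfl⟩
    have h1 : (q i : ℂ) * b i + w i ∈ clF (Set.range fun i => (q i : ℂ) * b i + w i) :=
      subset_cl _ ⟨i, rfl⟩
    have h2 : w i ∈ clF (Set.range fun i => (q i : ℂ) * b i + w i) :=
      cl_mono (Set.empty_subset _) (hw i)
    have h3 : ((q i : ℂ))⁻¹ ∈ clF (Set.range fun i => (q i : ℂ) * b i + w i) := by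
      have := (clF (Set.range fun i => (q i : ℂ) * b i + w i)).algebraMap_mem ((q i)⁻¹)
      simp
    have h4 := (clF _).mul_mem h3 ((clF _).sub_mem h1 h2)
    have h5 : (q i : ℂ)⁻¹ * ((q i : ℂ) * b i + w i - w i) = b i := by
      have : (q i : ℂ) ≠ 0 := Rat.cast_ne_zero.2 (hq i)
      rw [add_sub_cancel_right, inv_mul_cancel_left₀ this]
    rw [h5] at h4
    exact h4

/-- a transcendence basis of `ℂ` indexed by `ℤ × ℂ` on which complex conjugation acts by
`(L, j) ↦ (1 - L, j)` -/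
theorem exists_base0 : ∃ b : ℤ × ℂ → ℂ, IsB b ∧ ∀ L j, cc (b (L, j)) = b (1 - L, j) := by
  obtain ⟨T, hTi, hd, hB⟩ := exists_T
  have h1 : #(ℕ × ℂ) = #T := by
    have h2 : #(T ∪ cc '' T : Set ℂ) = #ℂ := base_mk hB
    rw [Cardinal.mk_union_of_disjoint hd] at h2
    have h3 : #(cc '' T) = #T := Cardinal.mk_image_eq cc.injective
    rw [h3] at h2
    have h4 : ℵ₀ ≤ #T := Cardinal.infinite_iff.1 hTi.to_subtype
    rw [Cardinal.add_eq_self h4] at h2
    rw [h2, Cardinal.mk_prod]
    simp only [Cardinal.lift_id, Cardinal.mk_complex, Cardinal.mk_nat]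
    exact Cardinal.aleph0_mul_continuum
  obtain ⟨t⟩ := Cardinal.eq.1 h1
  let F : ℤ × ℂ → ℂ := fun p =>
    if 1 ≤ p.1 then (t ((p.1 - 1).toNat, p.2) : ℂ) else cc (t ((-p.1).toNat, p.2))
  have hF1 : ∀ L j, 1 ≤ L → F (L, j) = t ((L - 1).toNat, j) := fun L j h => if_pos h
  have hF2 : ∀ L j, ¬ (1 ≤ L) → F (L, j) = cc (t ((-L).toNat, j)) := fun L j h => if_neg h
  have hFT : ∀ p, F p ∈ T ∪ cc '' T := by
    rintro ⟨L, j⟩
    by_cases h : 1 ≤ L
    · rw [hF1 L j h]
      exact Or.inl (t _).2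
    · rw [hF2 L j h]
      exact Or.inr ⟨_, (t _).2, rfl⟩
  have hinj : Function.Injective F := by
    rintro ⟨L, j⟩ ⟨L', j'⟩ h
    by_cases h1 : 1 ≤ L <;> by_cases h2 : 1 ≤ L'
    · rw [hF1 L j h1, hF1 L' j' h2] at h
      have h3 := t.injective (Subtype.ext h)
      rw [Prod.mk.injEq] at h3
      obtain ⟨h4, h5⟩ := h3
      rw [Prod.mk.injEq]
      exact ⟨by omega, h5⟩
    · rw [hF1 L j h1, hF2 L' j' h2] at h
      exact absurd ⟨_, (t _).2, h.symm⟩ (Set.disjoint_left.1 hd (t ((L - 1).toNat, j)).2)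
    · rw [hF2 L j h1, hF1 L' j' h2] at h
      exact absurd ⟨_, (t _).2, h⟩ (Set.disjoint_left.1 hd (t ((L' - 1).toNat, j')).2)
    · rw [hF2 L j h1, hF2 L' j' h2] at h
      have h3 := t.injective (Subtype.ext (cc.injective h))
      rw [Prod.mk.injEq] at h3
      obtain ⟨h4, h5⟩ := h3
      rw [Prod.mk.injEq]
      exact ⟨by omega, h5⟩
  refine ⟨F, ⟨?_, ?_⟩, ?_⟩
  · have h2 : AlgebraicIndependent ℚ (Subtype.val : (T ∪ cc '' T : Set ℂ) → ℂ) := hB.indep
    exact h2.comp (fun p => (⟨F p, hFT p⟩ : (T ∪ cc '' T : Set ℂ))) (fun p p' h => by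
      exact hinj (congrArg Subtype.val h))
  · have h3 : cl (T ∪ cc '' T) = Set.univ := by
      rw [← closure_eq, hB.closure_eq]
      simp
    apply Set.eq_univ_of_univ_subset
    rw [← h3, cl_subset_iff]
    rintro z (hz | ⟨y, hz, rfl⟩)
    · obtain ⟨⟨n, j⟩, h⟩ := t.surjective ⟨z, hz⟩
      refine subset_cl _ ⟨((n : ℤ) + 1, j), ?_⟩
      rw [hF1 _ _ (by omega)]
      have h4 : ((n : ℤ) + 1 - 1).toNat = n := by omega
      rw [h4, h]
    · obtain ⟨⟨n, j⟩, h⟩ := t.surjective ⟨y, hz⟩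
      refine subset_cl _ ⟨(-(n : ℤ), j), ?_⟩
      rw [hF2 _ _ (by omega)]
      have h4 : (-(-(n : ℤ))).toNat = n := by omega
      rw [h4, h]
  · intro L j
    by_cases h : 1 ≤ L
    · rw [hF1 L j h, hF2 (1 - L) j (by omega)]
      have h4 : (-(1 - L)).toNat = (L - 1).toNat := by omega
      rw [h4]
    · rw [hF2 L j h, hF1 (1 - L) j (by omega), cc_cc]
      have h4 : (1 - L - 1).toNat = (-L).toNat := by omega
      rw [h4]

/-- Gaussian rationals are dense -/
theorem exists_gauss (z : ℂ) {ε : ℝ} (hε : 0 < ε) : ∃ w ∈ cl ∅, ‖w - z‖ < ε := by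
  obtain ⟨r, hr1, hr2⟩ := exists_rat_btwn (show z.re < z.re + ε / 2 by linarith)
  obtain ⟨s, hs1, hs2⟩ := exists_rat_btwn (show z.im < z.im + ε / 2 by linarith)
  refine ⟨(r : ℂ) + s * Complex.I, ?_, ?_⟩
  · have h1 : ∀ q : ℚ, (q : ℂ) ∈ clF ∅ := fun q => by
      exact (clF ∅).algebraMap_mem q
    exact (clF ∅).add_mem (h1 r) ((clF ∅).mul_mem (h1 s) (I_mem_cl _))
  · refine lt_of_le_of_lt (Complex.norm_le_abs_re_add_abs_im _) ?_
    have h1 : ((r : ℂ) + s * Complex.I - z).re = r - z.re := by simp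
    have h2 : ((r : ℂ) + s * Complex.I - z).im = s - z.im := by simp
    rw [h1, h2, abs_of_pos (by linarith), abs_of_pos (by linarith)]
    linarith

/-- a transcendence basis adapted to conjugation and close to given complex numbers -/
theorem exists_base1 (z : ℤ → ℂ → ℂ) : ∃ b : ℤ × ℂ → ℂ, IsB b ∧
    (∀ L j, cc (b (L, j)) = b (1 - L, j)) ∧
    ∀ L j, 1 ≤ L → ‖b (L, j) - z L j‖ < 1 / (L : ℝ) := by
  obtain ⟨t, ht, htc⟩ := exists_base0
  have h1 : ∀ L : ℤ, ∀ j : ℂ, ∃ (q : ℚ) (w : ℂ), q ≠ 0 ∧ w ∈ cl ∅ ∧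
      (1 ≤ L → ‖(q : ℂ) * t (L, j) + w - z L j‖ < 1 / (L : ℝ)) := by
    intro L j
    by_cases hL : 1 ≤ L
    · have hL' : (0 : ℝ) < L := by exact_mod_cast hL
      obtain ⟨w, hw, hwz⟩ := exists_gauss (z L j) (show 0 < 1 / (2 * (L : ℝ)) by positivity)
      obtain ⟨q, hq1, hq2⟩ := exists_rat_btwn
        (show 0 < 1 / (2 * (L : ℝ)) / (‖t (L, j)‖ + 1) by positivity)
      refine ⟨q, w, ?_, hw, fun _ => ?_⟩
      · rintro rfl
        simp at hq1
      · have h2 : (q : ℂ) * t (L, j) + w - z L j = (q : ℂ) * t (L, j) + (w - z L j) := by ring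
        rw [h2]
        refine lt_of_le_of_lt (norm_add_le _ _) ?_
        have h3 : ‖(q : ℂ) * t (L, j)‖ ≤ 1 / (2 * (L : ℝ)) := by
          rw [norm_mul]
          have h4 : ‖(q : ℂ)‖ = (q : ℝ) := by
            have : (q : ℂ) = ((q : ℝ) : ℂ) := by simp
            rw [this, Complex.norm_real, Real.norm_of_nonneg hq1.le]
          rw [h4]
          have h5 : (q : ℝ) * (‖t (L, j)‖ + 1) ≤ 1 / (2 * (L : ℝ)) := by
            rw [lt_div_iff₀ (by positivity)] at hq2
            exact hq2.le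
          refine le_trans ?_ h5
          exact mul_le_mul_of_nonneg_left (by linarith) hq1.le
        have h6 : 1 / (L : ℝ) = 1 / (2 * (L : ℝ)) + 1 / (2 * (L : ℝ)) := by
          field_simp
          norm_num
        rw [h6]
        exact add_lt_add_of_le_of_lt h3 hwz
    · exact ⟨1, 0, one_ne_zero, (clF ∅).zero_mem, fun h => absurd h hL⟩
  choose q w hq hw hqw using h1
  let Q : ℤ × ℂ → ℚ := fun p => if 1 ≤ p.1 then q p.1 p.2 else q (1 - p.1) p.2
  let W : ℤ × ℂ → ℂ := fun p => if 1 ≤ p.1 then w p.1 p.2 else cc (w (1 - p.1) p.2)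
  refine ⟨fun p => (Q p : ℂ) * t p + W p, ht.affine Q W ?_ ?_, ?_, ?_⟩
  · rintro ⟨L, j⟩
    by_cases h : 1 ≤ L
    · simp only [Q, if_pos h]
      exact hq _ _
    · simp only [Q, if_neg h]
      exact hq _ _
  · rintro ⟨L, j⟩
    by_cases h : 1 ≤ L
    · simp only [W, if_pos h]
      exact hw _ _
    · simp only [W, if_neg h]
      exact map_cl_empty cc (hw _ _)
  · intro L j
    simp only [map_add, map_mul, htc, map_ratCast]
    by_cases h : 1 ≤ L
    · have h' : ¬ (1 ≤ 1 - L) := by omega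
      simp only [Q, W, if_pos h, if_neg h', sub_sub_cancel]
    · have h' : 1 ≤ 1 - L := by omega
      simp only [Q, W, if_neg h, if_pos h', cc_cc]
  · intro L j hL
    simp only [Q, W, if_pos hL]
    exact hqw L j hL

theorem IsB.comp_equiv {ι ι' : Type} {b : ι → ℂ} (hb : IsB b) (e : ι' ≃ ι) :
    IsB (fun i => b (e i)) := by
  constructor
  · exact hb.ind.comp e e.injective
  · rw [← hb.gen]
    congr 1
    exact e.surjective.range_comp b

/-- the index set of the fibres -/
abbrev Kap : Type := Bool × ℂ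

/-- the flip of the index set of the fibres -/
def flip (k : Kap) : Kap := (!k.1, k.2)

/-- the reindexing -/
def reidx (c : ℤ) : ℤ × Kap ≃ ℤ × ℂ where
  toFun := fun p => (2 * p.1 + (if p.2.1 then 1 else 0) + c, p.2.2)
  invFun := fun p => ((p.1 - c) / 2, (decide ((p.1 - c) % 2 = 1), p.2))
  left_inv := by
    rintro ⟨n, ε, j⟩
    cases ε
    · simp only [Bool.false_eq_true, if_false, Prod.mk.injEq, and_true, decide_eq_false_iff_not]
      constructor <;> omega
    · simp only [if_true, Prod.mk.injEq, and_true, decide_eq_true_eq]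
      constructor <;> omega
  right_inv := by
    rintro ⟨L, j⟩
    by_cases h : (L - c) % 2 = 1
    · simp only [h, decide_true, if_true, Prod.mk.injEq, and_true]
      omega
    · simp only [h, decide_false, Bool.false_eq_true, if_false, Prod.mk.injEq, and_true]
      omega

/-- the basis adapted to complex conjugation -/
theorem exists_baseA (z : ℤ → Kap → ℂ) : ∃ b : ℤ × Kap → ℂ, IsB b ∧
    (∀ n k, cc (b (n, k)) = b (-n, flip k)) ∧
    ∀ n k, 1 ≤ n → ‖b (n, k) - z n k‖ < 1 / (n : ℝ) := by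
  obtain ⟨a, ha, hac, haz⟩ := exists_base1
    (fun L j => z ((reidx 0).symm (L, j)).1 ((reidx 0).symm (L, j)).2)
  refine ⟨fun p => a (reidx 0 p), ha.comp_equiv _, ?_, ?_⟩
  · rintro n ⟨ε, j⟩
    cases ε
    · simp only [reidx, flip, Equiv.coe_fn_mk, hac, Bool.not_false, Bool.false_eq_true, if_false,
        if_true]
      congr 2
      ring
    · simp only [reidx, flip, Equiv.coe_fn_mk, hac, Bool.not_true, Bool.false_eq_true, if_false,
        if_true]
      congr 2
      ring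
  · intro n k hn
    have h1 : 1 ≤ (reidx 0 (n, k)).1 := by
      rcases k with ⟨ε, j⟩
      cases ε
      · simp only [reidx, Equiv.coe_fn_mk, Bool.false_eq_true, if_false]
        omega
      · simp only [reidx, Equiv.coe_fn_mk, if_true]
        omega
    have h2 : n ≤ (reidx 0 (n, k)).1 := by
      rcases k with ⟨ε, j⟩
      cases ε
      · simp only [reidx, Equiv.coe_fn_mk, Bool.false_eq_true, if_false]
        omega
      · simp only [reidx, Equiv.coe_fn_mk, if_true]
        omega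
    have h3 := haz (reidx 0 (n, k)).1 (reidx 0 (n, k)).2 h1
    simp only [Prod.mk.eta, Equiv.symm_apply_apply] at h3
    refine lt_of_lt_of_le h3 ?_
    have h4 : (0 : ℝ) < n := by exact_mod_cast hn
    have h5 : (n : ℝ) ≤ (reidx 0 (n, k)).1 := by exact_mod_cast h2
    exact one_div_le_one_div_of_le h4 h5

/-- the basis adapted to the shifted involution -/
theorem exists_baseB : ∃ b : ℤ × Kap → ℂ, IsB b ∧
    (∀ n k, cc (b (n, k)) = b (-n - 1, flip k)) := by
  obtain ⟨a, ha, hac⟩ := exists_base0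
  refine ⟨fun p => a (reidx 1 p), ha.comp_equiv _, ?_⟩
  rintro n ⟨ε, j⟩
  cases ε
  · simp only [reidx, flip, Equiv.coe_fn_mk, hac, Bool.not_false, Bool.false_eq_true, if_false,
      if_true]
    congr 2
    ring
  · simp only [reidx, flip, Equiv.coe_fn_mk, hac, Bool.not_true, Bool.false_eq_true, if_false,
      if_true]
    congr 2
    ring

end Pool.Agent.AHI
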