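import Mathlib
import Pool.Agent.AHI.Bas

/-!
# Automorphisms of `ℂ` choosing the nearest conjugate
-/

namespace Pool.Agent.AHI

open Pool.Agent.AHC Polynomial Filter Topology

/-- if all roots are far away, then the value is large -/
theorem pow_le_norm_eval (P : ℂ[X]) (hP : P.Monic) (z : ℂ) {δ : ℝ} (hδ : 0 ≤ δ)
    (h : ∀ r, P.IsRoot r → δ ≤ ‖z - r‖) : δ ^ P.natDegree ≤ ‖P.eval z‖ := by
  have key : ∀ s : Multiset ℂ, (∀ r ∈ s, δ ≤ ‖z - r‖) →
      δ ^ (Multiset.card s) ≤ ‖(s.map fun r => z - r).prod‖ := by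
    intro s
    induction s using Multiset.induction_on with
    | empty => intro _; simp
    | cons a s ih =>
      intro hs
      rw [Multiset.card_cons, Multiset.map_cons, Multiset.prod_cons, norm_mul, pow_succ']
      exact mul_le_mul (hs a (Multiset.mem_cons_self _ _))
        (ih fun r hr => hs r (Multiset.mem_cons_of_mem hr)) (pow_nonneg hδ _) (norm_nonneg _)
  have hs : P.Splits := IsAlgClosed.splits P
  have h1 : P = (P.roots.map fun r => X - C r).prod := hs.eq_prod_roots_of_monic hP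
  have h2 : P.eval z = (P.roots.map fun r => z - r).prod := by
    conv_lhs => rw [h1]
    rw [eval_multiset_prod, Multiset.map_map]
    congr 1
    refine Multiset.map_congr rfl fun r _ => ?_
    simp
  rw [h2, hs.natDegree_eq_card_roots]
  exact key _ fun r hr => h r (isRoot_of_mem_roots hr)

variable {ι : Type} [LinearOrder ι]

/-- the field generated over `K0` by the elements before `i` -/
noncomputable def Kx (K0 : IntermediateField ℚ ℂ) (e : ι → ℂ) (i : ι) : IntermediateField K0 ℂ :=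
  IntermediateField.adjoin K0 (e '' Set.Iio i)

/-- `Θ (e i)` is the nearest to `φ i` among the images of the conjugates of `e i` over `Kx i` -/
def Near (K0 : IntermediateField ℚ ℂ) (e : ι → ℂ) (Θ : ℂ ≃+* ℂ) (φ : ι → ℂ) : Prop :=
  ∀ i, ∀ x' : ℂ, aeval x' (minpoly (Kx K0 e i) (e i)) = 0 → ‖Θ (e i) - φ i‖ ≤ ‖Θ x' - φ i‖

/-- the elements on which a family of automorphisms converges to `σ` -/
def limField {α : Type} (l : Filter α) (Θ : α → ℂ ≃+* ℂ) (σ : ℂ ≃+* ℂ)
    (K0 : IntermediateField ℚ ℂ) (h0 : ∀ y ∈ K0, Tendsto (fun a => Θ a y) l (𝓝 (σ y))) :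
    IntermediateField K0 ℂ where
  carrier := {y | Tendsto (fun a => Θ a y) l (𝓝 (σ y))}
  mul_mem' := by
    intro x y hx hy
    simp only [Set.mem_ofPred_eq, map_mul] at *
    exact hx.mul hy
  one_mem' := by
    simp only [Set.mem_ofPred_eq, map_one]
    exact tendsto_const_nhds
  add_mem' := by
    intro x y hx hy
    simp only [Set.mem_ofPred_eq, map_add] at *
    exact hx.add hy
  zero_mem' := by
    simp only [Set.mem_ofPred_eq, map_zero]
    exact tendsto_const_nhds
  algebraMap_mem' := fun r => h0 r.1 r.2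
  inv_mem' := by
    intro x hx
    by_cases h : x = 0
    · subst h
      rw [inv_zero]
      exact hx
    · simp only [Set.mem_ofPred_eq, map_inv₀] at *
      exact hx.inv₀ (by rwa [Ne, map_eq_zero])

/-- **convergence of the nearest automorphisms** -/
theorem near_tendsto [WellFoundedLT ι] {α : Type} {l : Filter α} {K0 : IntermediateField ℚ ℂ}
    [Algebra.IsAlgebraic K0 ℂ] {e : ι → ℂ} (Θ : α → ℂ ≃+* ℂ) (φ : α → ι → ℂ)
    (hN : ∀ a, Near K0 e (Θ a) (φ a)) (σ : ℂ ≃+* ℂ)
    (h0 : ∀ y ∈ K0, Tendsto (fun a => Θ a y) l (𝓝 (σ y)))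
    (hφ : ∀ i, Tendsto (fun a => φ a i) l (𝓝 (σ (e i)))) :
    ∀ i, Tendsto (fun a => Θ a (e i)) l (𝓝 (σ (e i))) := by
  intro i
  induction i using WellFoundedLT.induction with
  | ind i ih =>
    have hK : Kx K0 e i ≤ limField l Θ σ K0 h0 := by
      refine IntermediateField.adjoin_le_iff.2 ?_
      rintro _ ⟨j, hj, rfl⟩
      exact ih j hj
    have halg : Algebra.IsAlgebraic (Kx K0 e i) ℂ := Algebra.IsAlgebraic.tower_top (K := K0) _
    have hint : IsIntegral (Kx K0 e i) (e i) := (Algebra.IsAlgebraic.isAlgebraic _).isIntegral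
    set p := minpoly (Kx K0 e i) (e i) with hp
    have hpm : p.Monic := minpoly.monic hint
    have hd : p.natDegree ≠ 0 := (minpoly.natDegree_pos hint).ne'
    let f : α → (Kx K0 e i) →+* ℂ := fun a => (Θ a : ℂ →+* ℂ).comp (algebraMap (Kx K0 e i) ℂ)
    have hev : Tendsto (fun a => eval₂ (f a) (σ (e i)) p) l (𝓝 0) := by
      have h1 : eval₂ ((σ : ℂ →+* ℂ).comp (algebraMap (Kx K0 e i) ℂ)) (σ (e i)) p = 0 := by
        have h2 := Polynomial.hom_eval₂ p (algebraMap (Kx K0 e i) ℂ) (σ : ℂ →+* ℂ) (e i)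
        have h3 : eval₂ (algebraMap (Kx K0 e i) ℂ) (e i) p = 0 := minpoly.aeval _ _
        rw [h3, map_zero] at h2
        exact h2.symm
      rw [← h1]
      simp only [eval₂_eq_sum_range]
      refine tendsto_finsetSum _ fun k _ => ?_
      have h2 : Tendsto (fun a => Θ a (p.coeff k : ℂ)) l (𝓝 (σ (p.coeff k : ℂ))) :=
        hK (p.coeff k).2
      exact h2.mul_const _
    rw [Metric.tendsto_nhds]
    intro ε hε
    have h1 : ∀ᶠ a in l, ‖eval₂ (f a) (σ (e i)) p‖ < (ε / 2) ^ p.natDegree := by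
      have h2 := (tendsto_norm_zero.comp hev)
      have h3 : (0 : ℝ) < (ε / 2) ^ p.natDegree := by positivity
      exact h2.eventually (gt_mem_nhds h3)
    have h2 : ∀ᶠ a in l, dist (φ a i) (σ (e i)) < ε / 4 :=
      Metric.tendsto_nhds.1 (hφ i) _ (by positivity)
    filter_upwards [h1, h2] with a h3 h4
    have h5 : ∃ r, (p.map (f a)).IsRoot r ∧ ‖σ (e i) - r‖ < ε / 2 := by
      by_contra hcon
      push Not at hcon
      have h6 := pow_le_norm_eval (p.map (f a)) (hpm.map _) (σ (e i))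
        (by positivity : 0 ≤ ε / 2) hcon
      rw [hpm.natDegree_map, eval_map] at h6
      linarith
    obtain ⟨r, hr1, hr2⟩ := h5
    have h6 : aeval ((Θ a).symm r) p = 0 := by
      have h7 := Polynomial.hom_eval₂ p (algebraMap (Kx K0 e i) ℂ) (Θ a : ℂ →+* ℂ) ((Θ a).symm r)
      have h8 : ((Θ a : ℂ →+* ℂ)) ((Θ a).symm r) = r := (Θ a).apply_symm_apply r
      rw [h8] at h7
      have h9 : eval₂ (f a) r p = 0 := by
        rw [← eval_map]
        exact hr1
      rw [h9] at h7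
      exact (map_eq_zero (Θ a)).1 h7
    have h7 := hN a i _ h6
    rw [RingEquiv.apply_symm_apply] at h7
    rw [dist_eq_norm] at h4 ⊢
    have h8 : ‖r - φ a i‖ ≤ ‖σ (e i) - r‖ + ‖φ a i - σ (e i)‖ := by
      have : r - φ a i = -(σ (e i) - r) - (φ a i - σ (e i)) := by ring
      rw [this]
      refine (norm_sub_le _ _).trans ?_
      rw [norm_neg]
    have h9 : ‖Θ a (e i) - σ (e i)‖ ≤ ‖Θ a (e i) - φ a i‖ + ‖φ a i - σ (e i)‖ := by
      have : Θ a (e i) - σ (e i) = (Θ a (e i) - φ a i) + (φ a i - σ (e i)) := by ring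
      rw [this]
      exact norm_add_le _ _
    linarith

omit [LinearOrder ι] in
theorem isOpen_eval {K0 : IntermediateField ℚ ℂ} [Algebra.IsAlgebraic K0 ℂ]
    (h : ℂ ≃ₐ[K0] ℂ) (x : ℂ) : IsOpen {h' : ℂ ≃ₐ[K0] ℂ | h' x = h x} := by
  have h1 : IsOpen ((MulAction.stabilizer (ℂ ≃ₐ[K0] ℂ) x : Set (ℂ ≃ₐ[K0] ℂ))) :=
    stabilizer_isOpen_of_isIntegral x
  have h2 : {h' : ℂ ≃ₐ[K0] ℂ | h' x = h x} =
      (fun h' => h⁻¹ * h') ⁻¹' (MulAction.stabilizer (ℂ ≃ₐ[K0] ℂ) x : Set (ℂ ≃ₐ[K0] ℂ)) := by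
    ext h'
    simp only [Set.mem_ofPred_eq, Set.mem_preimage, SetLike.mem_coe, MulAction.mem_stabilizer_iff]
    constructor
    · intro h3
      change h.symm (h' x) = x
      rw [h3, AlgEquiv.symm_apply_apply]
    · intro h3
      change h.symm (h' x) = x at h3
      rw [← h3, AlgEquiv.apply_symm_apply, h3]
  rw [h2]
  exact h1.preimage (continuous_const_mul h⁻¹)

/-- **existence of nearest automorphisms** -/
theorem exists_near {K0 : IntermediateField ℚ ℂ} [Algebra.IsAlgebraic K0 ℂ] (e : ι → ℂ)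
    (Θ0 : ℂ ≃+* ℂ) (φ : ι → ℂ) :
    ∃ h : ℂ ≃ₐ[K0] ℂ, Near K0 e ((h : ℂ ≃+* ℂ).trans Θ0) φ := by
  have hcl : IsAlgClosure K0 ℂ := ⟨inferInstance, inferInstance⟩
  have hn : Normal K0 ℂ := IsAlgClosure.normal _ _
  have hg : IsGalois K0 ℂ := {}
  let C : ι → Set (ℂ ≃ₐ[K0] ℂ) := fun i => {h | ∀ x' : ℂ,
    aeval x' (minpoly (Kx K0 e i) (e i)) = 0 → ‖Θ0 (h (e i)) - φ i‖ ≤ ‖Θ0 (h x') - φ i‖}
  have hC : ∀ i, IsClosed (C i) := by
    intro i
    rw [← isOpen_compl_iff, isOpen_iff_mem_nhds]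
    intro h hh
    simp only [C, Set.mem_compl_iff, Set.mem_ofPred_eq, not_forall, not_le] at hh
    obtain ⟨x', h1, h2⟩ := hh
    filter_upwards [(isOpen_eval h (e i)).mem_nhds rfl, (isOpen_eval h x').mem_nhds rfl]
      with h' h3 h4
    simp only [C, Set.mem_compl_iff, Set.mem_ofPred_eq, not_forall, not_le]
    refine ⟨x', h1, ?_⟩
    have h3' : h' (e i) = h (e i) := h3
    have h4' : h' x' = h x' := h4
    rwa [h3', h4']
  have hfin : ∀ F : Finset ι, (Set.univ ∩ ⋂ i ∈ F, C i).Nonempty := by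
    intro F
    induction F using Finset.induction_on_max with
    | empty => exact ⟨AlgEquiv.refl, by simp⟩
    | insert i F hi ih =>
      obtain ⟨h, -, hh⟩ := ih
      rw [Set.mem_iInter₂] at hh
      have halg : Algebra.IsAlgebraic (Kx K0 e i) ℂ := Algebra.IsAlgebraic.tower_top (K := K0) _
      have hcl' : IsAlgClosure (Kx K0 e i) ℂ := ⟨inferInstance, inferInstance⟩
      have hn' : Normal (Kx K0 e i) ℂ := IsAlgClosure.normal _ _
      have hal : IsAlgebraic (Kx K0 e i) (e i) := Algebra.IsAlgebraic.isAlgebraic _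
      have hne : minpoly (Kx K0 e i) (e i) ≠ 0 := minpoly.ne_zero hal.isIntegral
      obtain ⟨x', hx', hmin⟩ := Finset.exists_min_image
        ((minpoly (Kx K0 e i) (e i)).rootSet_finite ℂ).toFinset
        (fun x' => ‖Θ0 (h x') - φ i‖) ⟨e i, by
          rw [Set.Finite.mem_toFinset, mem_rootSet]
          exact ⟨hne, minpoly.aeval _ _⟩⟩
      rw [Set.Finite.mem_toFinset, mem_rootSet] at hx'
      obtain ⟨γ, hγ⟩ := minpoly.exists_algEquiv_of_root' hal hx'.2
      have hroot : ∀ j ≤ i, ∀ y : ℂ, aeval y (minpoly (Kx K0 e j) (e j)) = 0 →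
          aeval (γ y) (minpoly (Kx K0 e j) (e j)) = 0 := by
        intro j hj y hy
        have h1 := Polynomial.hom_eval₂ (minpoly (Kx K0 e j) (e j)) (algebraMap (Kx K0 e j) ℂ)
          (γ : ℂ →+* ℂ) y
        have h2 : eval₂ (algebraMap (Kx K0 e j) ℂ) y (minpoly (Kx K0 e j) (e j)) = 0 := hy
        rw [h2, map_zero] at h1
        have h3 : (γ : ℂ →+* ℂ).comp (algebraMap (Kx K0 e j) ℂ) = algebraMap (Kx K0 e j) ℂ := by
          ext z
          have h4 : (z : ℂ) ∈ Kx K0 e i := by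
            refine IntermediateField.adjoin.mono K0 _ _ (Set.image_mono ?_) z.2
            exact Set.Iio_subset_Iio hj
          exact γ.commutes ⟨z, h4⟩
        rw [h3] at h1
        exact h1.symm
      have hfix : ∀ j < i, γ (e j) = e j := by
        intro j hj
        exact γ.commutes ⟨e j, IntermediateField.subset_adjoin K0 _ ⟨j, hj, rfl⟩⟩
      refine ⟨(γ.restrictScalars K0).trans h, Set.mem_univ _, ?_⟩
      rw [Set.mem_iInter₂]
      intro j hj
      intro y hy
      change ‖Θ0 (h (γ (e j))) - φ j‖ ≤ ‖Θ0 (h (γ y)) - φ j‖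
      rcases Finset.mem_insert.1 hj with rfl | hj
      · rw [hγ]
        refine hmin (γ y) ?_
        rw [Set.Finite.mem_toFinset, mem_rootSet]
        exact ⟨hne, hroot _ le_rfl y hy⟩
      · rw [hfix j (hi j hj)]
        exact hh j hj (γ y) (hroot j (hi j hj).le y hy)
  obtain ⟨h, -, hh⟩ := isCompact_univ.inter_iInter_nonempty C hC hfin
  rw [Set.mem_iInter] at hh
  exact ⟨h, fun i x' hx' => hh i x' hx'⟩

end Pool.Agent.AHI
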