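import Mathlib

/-!
# A sequence of functions which approximates every function on every finite set
-/

namespace Pool.Agent.AHI

open Polynomial Filter Topology

/-- the polynomial functions with Gaussian rational coefficients -/
noncomputable def gp (p : ℚ[X] × ℚ[X]) (x : ℂ) : ℂ := aeval x p.1 + Complex.I * aeval x p.2

theorem exists_gauss' (z : ℂ) {ε : ℝ} (hε : 0 < ε) : ∃ r s : ℚ, ‖(r : ℂ) + s * Complex.I - z‖ < ε := by
  obtain ⟨r, hr1, hr2⟩ := exists_rat_btwn (show z.re < z.re + ε / 2 by linarith)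
  obtain ⟨s, hs1, hs2⟩ := exists_rat_btwn (show z.im < z.im + ε / 2 by linarith)
  refine ⟨r, s, ?_⟩
  refine lt_of_le_of_lt (Complex.norm_le_abs_re_add_abs_im _) ?_
  have h1 : ((r : ℂ) + s * Complex.I - z).re = r - z.re := by simp
  have h2 : ((r : ℂ) + s * Complex.I - z).im = s - z.im := by simp
  rw [h1, h2, abs_of_pos (by linarith), abs_of_pos (by linarith)]
  linarith

/-- every polynomial is approximated on bounded sets -/
theorem exists_gp (P : ℂ[X]) (M : ℝ) : ∀ ε : ℝ, 0 < ε →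
    ∃ p : ℚ[X] × ℚ[X], ∀ x : ℂ, ‖x‖ ≤ M → ‖gp p x - P.eval x‖ < ε := by
  induction P using Polynomial.induction_on' with
  | add P Q hP hQ =>
    intro ε hε
    obtain ⟨p, hp⟩ := hP (ε / 2) (by linarith)
    obtain ⟨q, hq⟩ := hQ (ε / 2) (by linarith)
    refine ⟨p + q, fun x hx => ?_⟩
    have h1 : gp (p + q) x - (P + Q).eval x = (gp p x - P.eval x) + (gp q x - Q.eval x) := by
      simp only [gp, Prod.fst_add, Prod.snd_add, map_add, eval_add]
      ring
    rw [h1]
    refine lt_of_le_of_lt (norm_add_le _ _) ?_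
    linarith [hp x hx, hq x hx]
  | monomial n a =>
    intro ε hε
    obtain ⟨r, s, hrs⟩ := exists_gauss' a
      (show 0 < ε / (|M| ^ n + 1) by positivity)
    refine ⟨(monomial n r, monomial n s), fun x hx => ?_⟩
    have h1 : gp (monomial n r, monomial n s) x - (monomial n a).eval x =
        ((r : ℂ) + s * Complex.I - a) * x ^ n := by
      simp only [gp, aeval_monomial, eval_monomial, eq_ratCast]
      ring
    rw [h1, norm_mul, norm_pow]
    have h2 : ‖x‖ ^ n ≤ |M| ^ n := pow_le_pow_left₀ (norm_nonneg _) (hx.trans (le_abs_self _)) n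
    have h3 : ‖(r : ℂ) + s * Complex.I - a‖ * ‖x‖ ^ n ≤
        ‖(r : ℂ) + s * Complex.I - a‖ * |M| ^ n := mul_le_mul_of_nonneg_left h2 (norm_nonneg _)
    refine lt_of_le_of_lt h3 ?_
    rw [lt_div_iff₀ (by positivity)] at hrs
    have h4 : ‖(r : ℂ) + s * Complex.I - a‖ * |M| ^ n ≤
        ‖(r : ℂ) + s * Complex.I - a‖ * (|M| ^ n + 1) :=
      mul_le_mul_of_nonneg_left (by linarith) (norm_nonneg _)
    linarith

/-- **density** -/
theorem exists_filter {J : Type} (e : J → ℂ) (he : Function.Injective e) :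
    ∃ u : ℕ → J → ℂ, ∀ t : J → ℂ, ∃ l : Filter ℕ, l.NeBot ∧ l ≤ atTop ∧
      ∀ j, Tendsto (fun i => u i j) l (𝓝 (t j)) := by
  classical
  have hc0 : Countable ℚ[X] := by
    rw [← Cardinal.mk_le_aleph0_iff]
    refine Polynomial.cardinalMk_le_max.trans ?_
    simp
  have hc : Countable (ℚ[X] × ℚ[X]) := inferInstance
  obtain ⟨f, hf⟩ := exists_surjective_nat (ℚ[X] × ℚ[X])
  have key : ∀ (F : Finset J) (t : J → ℂ) (ε : ℝ), 0 < ε →
      ∃ k, ∀ j ∈ F, ‖gp (f k) (e j) - t j‖ < ε := by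
    intro F t ε hε
    let P : ℂ[X] := Lagrange.interpolate F e t
    obtain ⟨M, hM⟩ : ∃ M : ℝ, ∀ j ∈ F, ‖e j‖ ≤ M := by
      refine ⟨∑ j ∈ F, ‖e j‖, fun j hj => ?_⟩
      exact Finset.single_le_sum (f := fun j => ‖e j‖) (fun j _ => norm_nonneg _) hj
    obtain ⟨p, hp⟩ := exists_gp P M ε hε
    obtain ⟨k, rfl⟩ := hf p
    refine ⟨k, fun j hj => ?_⟩
    have h1 := hp (e j) (hM j hj)
    have h2 : P.eval (e j) = t j := Lagrange.eval_interpolate_at_node t he.injOn hj
    rwa [h2] at h1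
  refine ⟨fun i j => gp (f (Nat.unpair i).1) (e j), fun t => ?_⟩
  let l : Filter ℕ := ⨅ p : Finset J × ℕ, 𝓟 {i : ℕ | p.2 ≤ i ∧
    ∀ j ∈ p.1, ‖gp (f (Nat.unpair i).1) (e j) - t j‖ < 1 / ((p.2 : ℝ) + 1)}
  have hmem : ∀ p : Finset J × ℕ, {i : ℕ | p.2 ≤ i ∧
    ∀ j ∈ p.1, ‖gp (f (Nat.unpair i).1) (e j) - t j‖ < 1 / ((p.2 : ℝ) + 1)} ∈ l :=
    fun p => mem_iInf_of_mem p (mem_principal_self _)
  refine ⟨l, ?_, ?_, ?_⟩
  · refine Filter.iInf_neBot_of_directed' ?_ ?_
    · rintro ⟨F, n⟩ ⟨F', n'⟩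
      refine ⟨(F ∪ F', n + n'), ?_, ?_⟩
      · refine principal_mono.2 ?_
        rintro i ⟨h1, h2⟩
        have h1' : n + n' ≤ i := h1
        refine ⟨by change n ≤ i; omega, fun j hj => (h2 j (Finset.mem_union_left _ hj)).trans_le ?_⟩
        refine one_div_le_one_div_of_le (by positivity) ?_
        push_cast
        have : (0 : ℝ) ≤ n' := by positivity
        linarith
      · refine principal_mono.2 ?_
        rintro i ⟨h1, h2⟩
        have h1' : n + n' ≤ i := h1
        refine ⟨by change n' ≤ i; omega, fun j hj => (h2 j (Finset.mem_union_right _ hj)).trans_le ?_⟩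
        refine one_div_le_one_div_of_le (by positivity) ?_
        push_cast
        have : (0 : ℝ) ≤ n := by positivity
        linarith
    · rintro ⟨F, n⟩
      rw [principal_neBot_iff]
      obtain ⟨k, hk⟩ := key F t (1 / ((n : ℝ) + 1)) (by positivity)
      refine ⟨Nat.pair k n, Nat.right_le_pair k n, fun j hj => ?_⟩
      rw [Nat.unpair_pair]
      exact hk j hj
  · rw [Filter.le_def]
    intro s hs
    rw [mem_atTop_sets] at hs
    obtain ⟨n, hn⟩ := hs
    filter_upwards [hmem (∅, n)] with i hi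
    exact hn i hi.1
  · intro j
    rw [Metric.tendsto_nhds]
    intro ε hε
    obtain ⟨n, hn⟩ := exists_nat_one_div_lt hε
    filter_upwards [hmem ({j}, n)] with i hi
    rw [dist_eq_norm]
    exact (hi.2 j (Finset.mem_singleton_self j)).trans hn

end Pool.Agent.AHI
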