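import Mathlib
import Pool.Agent.AHI.Bas

/-!
# A shift of a transcendence basis with prescribed powers
-/

namespace Pool.Agent.AHI

open Pool.Agent.AHC

variable {κ : Type}

/-- the elements of the basis with first index in `S` -/
def BS (b : ℤ × κ → ℂ) (S : Set ℤ) : Set ℂ := b '' {p | p.1 ∈ S}

/-- automorphisms over the algebraic numbers which shift the basis by `m` -/
structure Sh (b : ℤ × κ → ℂ) (m : ℤ) (g : ℂ ≃+* ℂ) : Prop where
  alg : ∀ z ∈ cl ∅, g z = z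
  sh : ∀ n k, g (b (n, k)) = b (n + m, k)

variable {b : ℤ × κ → ℂ}

theorem BS_mono {S S' : Set ℤ} (h : S ⊆ S') : BS b S ⊆ BS b S' := by
  rintro _ ⟨p, hp, rfl⟩
  exact ⟨p, h hp, rfl⟩

theorem mem_BS {S : Set ℤ} {n : ℤ} (k : κ) (h : n ∈ S) : b (n, k) ∈ BS b S := ⟨(n, k), h, rfl⟩

theorem Sh.map_cl {m : ℤ} {g : ℂ ≃+* ℂ} (hg : Sh b m g) {S S' : Set ℤ}
    (h : ∀ n ∈ S, n + m ∈ S') {x : ℂ} (hx : x ∈ cl (BS b S)) : g x ∈ cl (BS b S') := by
  refine cl_mono ?_ (map_mem_cl g hx)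
  rintro _ ⟨_, ⟨⟨n, k⟩, hn, rfl⟩, rfl⟩
  rw [hg.sh]
  exact mem_BS k (h n hn)

theorem Sh.symm {m : ℤ} {g : ℂ ≃+* ℂ} (hg : Sh b m g) : Sh b (-m) g.symm := by
  constructor
  · intro z hz
    rw [RingEquiv.symm_apply_eq, hg.alg z hz]
  · intro n k
    rw [RingEquiv.symm_apply_eq, hg.sh]
    congr 2
    ring

theorem Sh.trans {m m' : ℤ} {g g' : ℂ ≃+* ℂ} (hg : Sh b m g) (hg' : Sh b m' g') :
    Sh b (m + m') (g.trans g') := by
  constructor
  · intro z hz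
    rw [RingEquiv.trans_apply, hg.alg z hz, hg'.alg z hz]
  · intro n k
    rw [RingEquiv.trans_apply, hg.sh, hg'.sh]
    congr 2
    ring

/-- the powers of an automorphism -/
noncomputable def pw (g : ℂ ≃+* ℂ) : ℕ → (ℂ ≃+* ℂ)
  | 0 => RingEquiv.refl ℂ
  | n + 1 => (pw g n).trans g

theorem pw_apply (g : ℂ ≃+* ℂ) (n : ℕ) (x : ℂ) : pw g n x = g^[n] x := by
  induction n with
  | zero => rfl
  | succ n ih =>
    rw [Function.iterate_succ_apply', ← ih]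
    rfl

theorem Sh.pw {m : ℤ} {g : ℂ ≃+* ℂ} (hg : Sh b m g) (n : ℕ) : Sh b (n * m) (pw g n) := by
  induction n with
  | zero =>
    constructor
    · intro z _
      rfl
    · intro n k
      change b (n, k) = _
      simp
  | succ n ih =>
    have h := ih.trans hg
    have h1 : (n : ℤ) * m + m = ((n + 1 : ℕ) : ℤ) * m := by
      push_cast
      ring
    rw [h1] at h
    exact h

theorem indOver_BS (hb : IsB b) (S : Set ℤ) : IndOver (BS b S) (BS b Sᶜ) := by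
  have hinj : Function.Injective b := hb.ind.injective
  have hI : MC.Indep (Set.range b) := hb.ind.coe_range
  rintro _ ⟨p, hp, rfl⟩ h
  have h1 := hI.notMem_closure_sdiff_of_mem (⟨p, rfl⟩ : b p ∈ Set.range b)
  rw [closure_eq] at h1
  refine h1 (cl_mono ?_ h)
  rintro z (⟨q, hq, rfl⟩ | ⟨⟨q, hq, rfl⟩, hqp⟩)
  · refine ⟨⟨q, rfl⟩, fun h2 => ?_⟩
    have h3 : q = p := hinj h2
    exact hp (h3 ▸ hq)
  · exact ⟨⟨q, rfl⟩, hqp⟩

theorem cl_BS_union (hb : IsB b) (S : Set ℤ) : cl (BS b S ∪ BS b Sᶜ) = Set.univ := by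
  rw [← hb.gen]
  congr 1
  ext z
  constructor
  · rintro (⟨q, -, rfl⟩ | ⟨q, -, rfl⟩) <;> exact ⟨q, rfl⟩
  · rintro ⟨q, rfl⟩
    by_cases h : q.1 ∈ S
    · exact Or.inl ⟨q, h, rfl⟩
    · exact Or.inr ⟨q, h, rfl⟩

theorem exists_mem_BS (hb : IsB b) (x : ℂ) : ∃ R : ℕ, x ∈ cl (BS b (Set.Icc (-(R : ℤ)) R)) := by
  classical
  have hx : x ∈ cl (Set.range b) := by
    rw [hb.gen]
    exact Set.mem_univ x
  obtain ⟨I, hI, hIf, -, hxI⟩ := exists_finite_of_mem_cl hx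
  have h1 : ∀ z : ℂ, ∃ R : ℕ, z ∈ I → z ∈ BS b (Set.Icc (-(R : ℤ)) R) := by
    intro z
    by_cases hz : z ∈ I
    · obtain ⟨⟨n, k⟩, rfl⟩ := hI hz
      refine ⟨n.natAbs, fun _ => mem_BS k ?_⟩
      rw [Set.mem_Icc]
      constructor <;> omega
    · exact ⟨0, fun h => absurd h hz⟩
  choose f hf using h1
  refine ⟨hIf.toFinset.sup f, cl_mono ?_ hxI⟩
  intro z hz
  refine BS_mono ?_ (hf z hz)
  have h2 : f z ≤ hIf.toFinset.sup f := Finset.le_sup (by simpa using hz)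
  refine Set.Icc_subset_Icc ?_ ?_ <;> omega

theorem iter_mem {g : ℂ ≃+* ℂ} (hg : Sh b 1 g) (m : ℕ) {a c a' c' : ℤ} {x : ℂ}
    (hx : x ∈ cl (BS b (Set.Icc a c))) (ha : a' ≤ a + m) (hc : c + m ≤ c') :
    g^[m] x ∈ cl (BS b (Set.Icc a' c')) := by
  rw [← pw_apply]
  refine (hg.pw m).map_cl (fun n hn => ?_) hx
  rw [Set.mem_Icc] at *
  constructor <;> omega

theorem iter_agree {g g' : ℂ ≃+* ℂ} (hg : Sh b 1 g) {a c : ℤ}
    (h : ∀ x ∈ cl (BS b (Set.Icc a c)), g' x = g x) : ∀ (m : ℕ) {a' c' : ℤ}, a ≤ a' →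
      c' + m ≤ c + 1 → ∀ x ∈ cl (BS b (Set.Icc a' c')), g'^[m] x = g^[m] x := by
  intro m
  induction m with
  | zero => intro a' c' _ _ x _; rfl
  | succ m ih =>
    intro a' c' h1 h2 x hx
    rw [Function.iterate_succ_apply', Function.iterate_succ_apply', ih h1 (by push_cast at h2; omega) x hx]
    exact h _ (iter_mem hg m hx (by omega) (by push_cast at h2; omega))

/-- one step of the construction -/
theorem step (hb : IsB b) {g : ℂ ≃+* ℂ} (hg : Sh b 1 g) {m : ℕ} {R r : ℤ} {Θ : ℂ ≃+* ℂ}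
    (hΘ : Sh b m Θ) {n : ℤ} (hR0 : 0 ≤ R) (hm : 2 * R + 2 ≤ m) (hR : -R ≤ r)
    (hrn : m + r = n + 2)
    (hP : ∀ x ∈ cl (BS b (Set.Icc (-R) (r - 1))), g^[m] x = Θ x) :
    ∃ g' : ℂ ≃+* ℂ, Sh b 1 g' ∧ (∀ x ∈ cl (BS b (Set.Icc (-n) n)), g' x = g x) ∧
      ∀ x ∈ cl (BS b (Set.Icc (-R) r)), g'^[m] x = Θ x := by
  obtain ⟨m', rfl⟩ : ∃ m', m = m' + 1 := ⟨m - 1, by omega⟩
  push_cast at hm hrn
  let Ψ : ℂ ≃+* ℂ := ((pw g m').symm.trans Θ).trans g.symm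
  have hΨs : Sh b 0 Ψ := by
    have h1 := (((hg.pw m').symm.trans hΘ).trans hg.symm)
    have h2 : -((m' : ℤ) * 1) + ((m' + 1 : ℕ) : ℤ) + -1 = 0 := by push_cast; ring
    rw [h2] at h1
    exact h1
  have hΨb : ∀ n k, Ψ (b (n, k)) = b (n, k) := fun n k => by
    rw [hΨs.sh, add_zero]
  have hmem : ∀ {y : ℂ} {a c : ℤ}, y ∈ cl (BS b (Set.Icc a c)) →
      (pw g m').symm y ∈ cl (BS b (Set.Icc (a - m') (c - m'))) := by
    intro y a c hy
    refine (hg.pw m').symm.map_cl (fun n hn => ?_) hy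
    rw [Set.mem_Icc] at *
    constructor <;> omega
  obtain ⟨h, h1, h2⟩ := glueD (D := BS b (Set.Icc (m' - R) n)) (X := BS b (Set.Icc (-n) n))
    (Y := BS b (Set.Icc (-n) n)ᶜ)
    (BS_mono (Set.Icc_subset_Icc (by omega) le_rfl)) (indOver_BS hb _) (cl_BS_union hb _) Ψ
    (by
      intro y hy
      change g.symm (Θ ((pw g m').symm y)) = y
      have h3 := hmem hy
      have h4 : (m' : ℤ) - R - m' = -R := by ring
      have h5 : n - (m' : ℤ) = r - 1 := by omega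
      rw [h4, h5] at h3
      rw [← hP _ h3, Function.iterate_succ_apply', ← pw_apply, RingEquiv.apply_symm_apply,
        RingEquiv.symm_apply_apply])
    (by
      rintro _ ⟨⟨N, k⟩, -, rfl⟩
      exact hΨb N k)
  have hhb : ∀ N k, h (b (N, k)) = b (N, k) := by
    intro N k
    by_cases hN : N ∈ Set.Icc (-n) n
    · exact h1 _ (subset_cl _ (mem_BS k hN))
    · rw [h2 _ (subset_cl _ (Or.inr (mem_BS k hN)))]
      exact hΨb N k
  have hg' : Sh b 1 (h.trans g) := by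
    constructor
    · intro z hz
      rw [RingEquiv.trans_apply, h1 z (cl_mono (Set.empty_subset _) hz), hg.alg z hz]
    · intro N k
      rw [RingEquiv.trans_apply, hhb, hg.sh]
  have hagree : ∀ x ∈ cl (BS b (Set.Icc (-n) n)), (h.trans g) x = g x := by
    intro x hx
    rw [RingEquiv.trans_apply, h1 x hx]
  refine ⟨h.trans g, hg', hagree, fun x hx => ?_⟩
  rw [Function.iterate_succ_apply', iter_agree hg hagree m' (by omega) (by omega) x hx,
    RingEquiv.trans_apply]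
  have h3 : g^[m'] x ∈ cl (BS b (Set.Icc (m' - R) n) ∪ BS b (Set.Icc (-n) n)ᶜ) := by
    have h4 := iter_mem hg m' hx (a' := m' - R) (c' := n + 1) (by omega) (by omega)
    refine cl_mono ?_ h4
    rintro _ ⟨⟨N, k⟩, hN, rfl⟩
    have hN' : (m' : ℤ) - R ≤ N ∧ N ≤ n + 1 := hN
    by_cases h5 : N ≤ n
    · exact Or.inl (mem_BS k ⟨hN'.1, h5⟩)
    · refine Or.inr (mem_BS k ?_)
      rw [Set.mem_compl_iff, Set.mem_Icc]
      omega
  rw [h2 _ h3]
  change g (g.symm (Θ ((pw g m').symm (g^[m'] x)))) = Θ x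
  rw [RingEquiv.apply_symm_apply, ← pw_apply, RingEquiv.symm_apply_apply]

/-- the property of the `n`-th approximation -/
def PP (b : ℤ × κ → ℂ) (m : ℕ → ℕ) (Θ : ℕ → ℂ ≃+* ℂ) (n : ℕ) (g : ℂ ≃+* ℂ) : Prop :=
  Sh b 1 g ∧ ∀ (i : ℕ) (r : ℤ), -(i : ℤ) ≤ r → r ≤ i → (m i : ℤ) + r ≤ n + 1 →
    ∀ x ∈ cl (BS b (Set.Icc (-(i : ℤ)) r)), g^[m i] x = Θ i x

variable {m : ℕ → ℕ} {Θ : ℕ → ℂ ≃+* ℂ}

theorem sep (hsep : ∀ i, m i + 2 * i + 2 < m (i + 1)) : ∀ i j, i < j → m i + i + j < m j := by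
  intro i j hij
  obtain ⟨d, rfl⟩ : ∃ d, j = i + 1 + d := ⟨j - (i + 1), by omega⟩
  induction d with
  | zero =>
    have := hsep i
    simp only [add_zero]
    omega
  | succ d ih =>
    have h1 := ih (by omega)
    have h2 := hsep (i + 1 + d)
    have h3 : i + 1 + (d + 1) = i + 1 + d + 1 := by ring
    rw [h3]
    omega

theorem exists_step (hb : IsB b) (hm : ∀ i, 2 * i + 2 ≤ m i)
    (hsep : ∀ i, m i + 2 * i + 2 < m (i + 1)) (hΘ : ∀ i, Sh b (m i) (Θ i)) {n : ℕ}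
    {g : ℂ ≃+* ℂ} (hP : PP b m Θ n g) : ∃ g' : ℂ ≃+* ℂ, PP b m Θ (n + 1) g' ∧
      ∀ x ∈ cl (BS b (Set.Icc (-(n : ℤ)) n)), g' x = g x := by
  have hold : ∀ g' : ℂ ≃+* ℂ, (∀ x ∈ cl (BS b (Set.Icc (-(n : ℤ)) n)), g' x = g x) →
      ∀ (i : ℕ) (r : ℤ), -(i : ℤ) ≤ r → r ≤ i → (m i : ℤ) + r ≤ n + 1 →
        ∀ x ∈ cl (BS b (Set.Icc (-(i : ℤ)) r)), g'^[m i] x = Θ i x := by
    intro g' hg' i r h1 h2 h3 x hx
    have h4 := hm i
    rw [← hP.2 i r h1 h2 h3 x hx]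
    exact iter_agree hP.1 hg' (m i) (by omega) (by omega) x hx
  by_cases h : ∃ (i : ℕ) (r : ℤ), -(i : ℤ) ≤ r ∧ r ≤ i ∧ (m i : ℤ) + r = n + 2
  · obtain ⟨i, r, h1, h2, h3⟩ := h
    obtain ⟨g', h4, h5, h6⟩ := step hb hP.1 (hΘ i) (R := i) (r := r) (n := n) (by omega)
      (by have := hm i; omega) h1 h3 (by
        by_cases h4 : -(i : ℤ) ≤ r - 1
        · exact hP.2 i (r - 1) h4 (by omega) (by omega)
        · intro x hx
          have h5 : BS b (Set.Icc (-(i : ℤ)) (r - 1)) = ∅ := by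
            rw [Set.Icc_eq_empty h4]
            simp [BS]
          rw [h5] at hx
          rw [(hΘ i).alg x hx, ← pw_apply]
          exact (hP.1.pw _).alg x hx)
    refine ⟨g', ⟨h4, fun j s hs1 hs2 hs3 => ?_⟩, h5⟩
    by_cases h7 : (m j : ℤ) + s ≤ n + 1
    · exact hold g' h5 j s hs1 hs2 h7
    · have h8 : (m j : ℤ) + s = n + 2 := by push_cast at hs3; omega
      have h9 : i = j := by
        rcases lt_trichotomy i j with h | h | h
        · have := sep hsep i j h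
          omega
        · exact h
        · have := sep hsep j i h
          omega
      subst h9
      have h10 : s = r := by omega
      subst h10
      exact h6
  · push Not at h
    refine ⟨g, ⟨hP.1, fun j s hs1 hs2 hs3 => ?_⟩, fun x _ => rfl⟩
    have h1 := h j s hs1 hs2
    push_cast at hs3
    exact hP.2 j s hs1 hs2 (by omega)

theorem exists_seq (hb : IsB b) (hm : ∀ i, 2 * i + 2 ≤ m i)
    (hsep : ∀ i, m i + 2 * i + 2 < m (i + 1)) (hΘ : ∀ i, Sh b (m i) (Θ i)) :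
    ∃ G : ℕ → ℂ ≃+* ℂ, (∀ n, PP b m Θ n (G n)) ∧ ∀ n : ℕ,
      ∀ x ∈ cl (BS b (Set.Icc (-(n : ℤ)) n)), G (n + 1) x = G n x := by
  obtain ⟨g0, hg0, hg0'⟩ := extB hb
    (hb.comp_equiv ((Equiv.addRight (1 : ℤ)).prodCongr (Equiv.refl κ)))
  have hP0 : PP b m Θ 0 g0 := by
    refine ⟨⟨hg0, fun n k => hg0' (n, k)⟩, fun i r h1 h2 h3 => ?_⟩
    have := hm i
    push_cast at h3
    omega
  have hst : ∀ n : ℕ, ∀ g : {g : ℂ ≃+* ℂ // PP b m Θ n g},
      ∃ g' : {g : ℂ ≃+* ℂ // PP b m Θ (n + 1) g},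
        ∀ x ∈ cl (BS b (Set.Icc (-(n : ℤ)) n)), g'.1 x = g.1 x := by
    rintro n ⟨g, hg⟩
    obtain ⟨g', h1, h2⟩ := exists_step hb hm hsep hΘ hg
    exact ⟨⟨g', h1⟩, h2⟩
  choose nx hnx using hst
  let G : ∀ n : ℕ, {g : ℂ ≃+* ℂ // PP b m Θ n g} := fun n => Nat.rec ⟨g0, hP0⟩ nx n
  exact ⟨fun n => (G n).1, fun n => (G n).2, fun n => hnx n (G n)⟩

/-- the limit of a sequence of automorphisms which stabilizes -/
theorem exists_lim {G : ℕ → ℂ ≃+* ℂ} {N : ℂ → ℕ} (h : ∀ x, ∀ n, N x ≤ n → G n x = G (N x) x)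
    (hs : ∀ y, ∃ x, ∃ n, N x ≤ n ∧ G n x = y) :
    ∃ g : ℂ ≃+* ℂ, ∀ x n, N x ≤ n → g x = G n x := by
  let F' : ℂ →+* ℂ :=
    { toFun := fun x => G (N x) x
      map_one' := by
        rw [map_one]
      map_zero' := by
        rw [map_zero]
      map_mul' := by
        intro x y
        rw [← h x (N x + N y + N (x * y)) (by omega), ← h y (N x + N y + N (x * y)) (by omega),
          ← h (x * y) (N x + N y + N (x * y)) (by omega), map_mul]
      map_add' := by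
        intro x y
        rw [← h x (N x + N y + N (x + y)) (by omega), ← h y (N x + N y + N (x + y)) (by omega),
          ← h (x + y) (N x + N y + N (x + y)) (by omega), map_add] }
  have hF' : ∀ x, F' x = G (N x) x := fun _ => rfl
  have hbij : Function.Bijective F' := by
    refine ⟨F'.injective, fun y => ?_⟩
    obtain ⟨x, n, h1, h2⟩ := hs y
    refine ⟨x, ?_⟩
    rw [hF', ← h x n h1, h2]
  refine ⟨RingEquiv.ofBijective F' hbij, fun x n hn => ?_⟩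
  rw [h x n hn]
  rfl

/-- **a shift with prescribed powers** -/
theorem exists_shift (hb : IsB b) (hm : ∀ i, 2 * i + 2 ≤ m i)
    (hsep : ∀ i, m i + 2 * i + 2 < m (i + 1)) (hΘ : ∀ i, Sh b (m i) (Θ i)) :
    ∃ g : ℂ ≃+* ℂ, Sh b 1 g ∧ ∀ (i : ℕ), ∀ x ∈ cl (BS b (Set.Icc (-(i : ℤ)) i)),
      g^[m i] x = Θ i x := by
  obtain ⟨G, hGP, hG⟩ := exists_seq hb hm hsep hΘ
  have hGN : ∀ n d : ℕ, ∀ x ∈ cl (BS b (Set.Icc (-(n : ℤ)) n)), G (n + d) x = G n x := by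
    intro n d
    induction d with
    | zero => intro x _; rfl
    | succ d ih =>
      intro x hx
      rw [← ih x hx]
      refine hG (n + d) x (cl_mono (BS_mono (Set.Icc_subset_Icc ?_ ?_)) hx) <;> push_cast <;> omega
  choose N hN using exists_mem_BS hb
  have hF : ∀ x, ∀ n, N x ≤ n → G n x = G (N x) x := by
    intro x n hn
    obtain ⟨d, rfl⟩ : ∃ d, n = N x + d := ⟨n - N x, by omega⟩
    exact hGN (N x) d x (hN x)
  have hF2 : ∀ n : ℕ, ∀ x ∈ cl (BS b (Set.Icc (-(n : ℤ)) n)), G n x = G (N x) x := by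
    intro n x hx
    rw [← hF x (n + N x) (by omega)]
    exact (hGN n (N x) x hx).symm
  obtain ⟨g, hg⟩ := exists_lim (G := G) (N := N) hF (by
    intro y
    have h1 := (hGP (N y + 1)).1.symm.map_cl (S' := Set.Icc (-((N y + 1 : ℕ) : ℤ)) (N y + 1 : ℕ))
      (fun n hn => by
        rw [Set.mem_Icc] at *
        push_cast
        constructor <;> omega) (hN y)
    refine ⟨(G (N y + 1)).symm y, (N ((G (N y + 1)).symm y)) + (N y + 1), by omega, ?_⟩
    have h2 := hF ((G (N y + 1)).symm y) (N ((G (N y + 1)).symm y) + (N y + 1)) (by omega)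
    rw [h2, ← hF2 _ _ h1, RingEquiv.apply_symm_apply])
  have hF3 : ∀ n : ℕ, ∀ x ∈ cl (BS b (Set.Icc (-(n : ℤ)) n)), g x = G n x := by
    intro n x hx
    rw [hg x (N x) le_rfl, hF2 n x hx]
  have hgs : Sh b 1 g := by
    constructor
    · intro z hz
      rw [hg z _ le_rfl]
      exact (hGP _).1.alg z hz
    · intro n k
      rw [hg _ _ le_rfl]
      exact (hGP _).1.sh n k
  refine ⟨g, hgs, fun i x hx => ?_⟩
  rw [← (hGP (m i + i)).2 i i (by omega) le_rfl (by push_cast; omega) x hx]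
  refine iter_agree (hGP (m i + i)).1 (a := -((m i + i : ℕ) : ℤ)) (c := (m i + i : ℕ))
    (fun y hy => hF3 _ y hy) (m i) ?_ ?_ x hx <;> push_cast <;> omega

end Pool.Agent.AHI
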