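import Mathlib
import Pool.Agent.AHI.Near
import Pool.Agent.AHI.Shift
import Pool.Agent.AHI.Dns

/-!
# A conjugate of complex conjugation whose product with complex conjugation has dense powers
-/

namespace Pool.Agent.AHI

open Pool.Agent.AHC Filter Topology Cardinal

theorem flip_flip (k : Kap) : flip (flip k) = k := by
  simp [flip]

/-- an involution conjugate to complex conjugation whose product with complex conjugation is a
given shift on the positive part -/
theorem exists_involution {b bs : ℤ × Kap → ℂ} (hb : IsB b) (hbs : IsB bs)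
    (hc : ∀ n k, cc (b (n, k)) = b (-n, flip k)) (hcs : ∀ n k, cc (bs (n, k)) = bs (-n - 1, flip k))
    {g : ℂ ≃+* ℂ} (hg : Sh b 1 g) :
    ∃ ρ : ℂ ≃+* ℂ, (∀ z ∈ cl ∅, ρ z = z) ∧ Sh b 1 ((conjBy ρ).trans cc) ∧
      ∀ x ∈ cl (BS b (Set.Ici 0)), ((conjBy ρ).trans cc) x = g x := by
  obtain ⟨ρp, hρ0, hρb⟩ := extB hb hbs
  let ρm : ℂ ≃+* ℂ := ((cc.trans g.symm).trans ρp).trans cc
  have hρm : ∀ x, ρm x = cc (ρp (g.symm (cc x))) := fun _ => rfl
  let Ψ : ℂ ≃+* ℂ := ρm.trans ρp.symm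
  have hgs := hg.symm
  have hρmb : ∀ n k, ρm (b (n, k)) = bs (n, k) := by
    intro n k
    rw [hρm, hc, hgs.sh, hρb, hcs, flip_flip]
    congr 2
    ring
  have hρm0 : ∀ z ∈ cl ∅, ρm z = z := by
    intro z hz
    rw [hρm, hgs.alg _ (map_cl_empty cc hz), hρ0 _ (map_cl_empty cc hz), cc_cc]
  have hΨb : ∀ n k, Ψ (b (n, k)) = b (n, k) := by
    intro n k
    change ρp.symm (ρm _) = _
    rw [hρmb, RingEquiv.symm_apply_eq, hρb]
  have hΨ0 : ∀ z ∈ cl ∅, Ψ z = z := by
    intro z hz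
    change ρp.symm (ρm _) = _
    rw [hρm0 z hz, RingEquiv.symm_apply_eq, hρ0 z hz]
  obtain ⟨h, h1, h2⟩ := glueD (D := ∅) (X := BS b (Set.Ici 0)) (Y := BS b (Set.Ici 0)ᶜ)
    (Set.empty_subset _) (indOver_BS hb _) (cl_BS_union hb _) Ψ hΨ0 (by
      rintro _ ⟨⟨n, k⟩, -, rfl⟩
      exact hΨb n k)
  rw [Set.empty_union] at h2
  have hhb : ∀ n k, h (b (n, k)) = b (n, k) := by
    intro n k
    by_cases hn : n ∈ Set.Ici (0 : ℤ)
    · exact h1 _ (subset_cl _ (mem_BS k hn))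
    · rw [h2 _ (subset_cl _ (mem_BS k hn))]
      exact hΨb n k
  let ρ : ℂ ≃+* ℂ := h.trans ρp
  have hρp : ∀ x ∈ cl (BS b (Set.Ici 0)), ρ x = ρp x := by
    intro x hx
    change ρp (h x) = _
    rw [h1 x hx]
  have hρm' : ∀ x ∈ cl (BS b (Set.Ici 0)ᶜ), ρ x = ρm x := by
    intro x hx
    change ρp (h x) = _
    rw [h2 x hx]
    exact ρp.apply_symm_apply _
  have hρ0' : ∀ z ∈ cl ∅, ρ z = z := by
    intro z hz
    rw [hρp z (cl_mono (Set.empty_subset _) hz), hρ0 z hz]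
  have hρb' : ∀ n k, ρ (b (n, k)) = bs (n, k) := by
    intro n k
    change ρp (h _) = _
    rw [hhb, hρb]
  have hτ : ∀ x, ((conjBy ρ).trans cc) x = cc (ρ.symm (cc (ρ x))) := fun _ => rfl
  refine ⟨ρ, hρ0', ⟨?_, ?_⟩, ?_⟩
  · intro z hz
    have h3 : ρ.symm (cc z) = cc z := by
      rw [RingEquiv.symm_apply_eq, hρ0' _ (map_cl_empty cc hz)]
    rw [hτ, hρ0' z hz, h3, cc_cc]
  · intro n k
    have h3 : ρ.symm (bs (-n - 1, flip k)) = b (-n - 1, flip k) := by
      rw [RingEquiv.symm_apply_eq, hρb']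
    rw [hτ, hρb', hcs, h3, hc, flip_flip]
    congr 2
    ring
  · intro x hx
    have h3 : cc (g x) ∈ cl (BS b (Set.Ici 0)ᶜ) := by
      have h4 : g x ∈ cl (BS b (Set.Ici 1)) := hg.map_cl (fun n hn => by
        rw [Set.mem_Ici] at *
        omega) hx
      refine cl_mono ?_ (map_mem_cl cc h4)
      rintro _ ⟨_, ⟨⟨n, k⟩, hn, rfl⟩, rfl⟩
      have hn' : (1 : ℤ) ≤ n := hn
      rw [hc]
      refine mem_BS _ ?_
      rw [Set.mem_compl_iff, Set.mem_Ici]
      omega
    have h4 : ρ.symm (cc (ρ x)) = cc (g x) := by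
      rw [RingEquiv.symm_apply_eq, hρm' _ h3, hρm, cc_cc, RingEquiv.symm_apply_apply, hρp x hx]
    rw [hτ, h4, cc_cc]

/-- the iterates agree on the positive part -/
theorem iter_pos {b : ℤ × Kap → ℂ} {g τ : ℂ ≃+* ℂ} (hg : Sh b 1 g)
    (h : ∀ x ∈ cl (BS b (Set.Ici 0)), τ x = g x) (m : ℕ) :
    ∀ x ∈ cl (BS b (Set.Ici 0)), τ^[m] x = g^[m] x := by
  induction m with
  | zero => intro x _; rfl
  | succ m ih =>
    intro x hx
    rw [Function.iterate_succ_apply, Function.iterate_succ_apply, h x hx]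
    refine ih _ (hg.map_cl (fun n hn => ?_) hx)
    rw [Set.mem_Ici] at *
    omega

/-- the field generated by the algebraic numbers and the basis -/
noncomputable def KB (b : ℤ × Kap → ℂ) : IntermediateField ℚ ℂ :=
  IntermediateField.adjoin ℚ (cl ∅ ∪ Set.range b)

theorem isAlgebraic_KB {b : ℤ × Kap → ℂ} (hb : IsB b) : Algebra.IsAlgebraic (KB b) ℂ := by
  have h1 : Algebra.adjoin ℚ (Set.range b) ≤ (KB b).toSubalgebra := by
    refine Algebra.adjoin_le ?_
    rintro _ ⟨p, rfl⟩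
    exact IntermediateField.subset_adjoin ℚ _ (Or.inr ⟨p, rfl⟩)
  refine ⟨fun z => ?_⟩
  have hz : z ∈ cl (Set.range b) := by
    rw [hb.gen]
    exact Set.mem_univ z
  have hz' : IsAlgebraic (Algebra.adjoin ℚ (Set.range b)) z := hz
  exact IsAlgebraic.ringHom_of_comp_eq (S := KB b)
    (Subalgebra.inclusion h1 : Algebra.adjoin ℚ (Set.range b) →ₐ[ℚ] (KB b).toSubalgebra)
    (RingHom.id ℂ) hz' (Subalgebra.inclusion_injective h1) rfl

/-- convergence on the base field -/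
theorem tendsto_KB {b : ℤ × Kap → ℂ} {l : Filter ℕ} {Θ : ℕ → ℂ ≃+* ℂ} {σ : ℂ ≃+* ℂ}
    (h0 : ∀ z ∈ cl ∅, σ z = z) (hΘ : ∀ i, ∀ z ∈ cl ∅, Θ i z = z)
    (hb : ∀ p, Tendsto (fun i => Θ i (b p)) l (𝓝 (σ (b p)))) :
    ∀ y ∈ KB b, Tendsto (fun i => Θ i y) l (𝓝 (σ y)) := by
  let L : IntermediateField ℚ ℂ :=
    { carrier := {y | Tendsto (fun i => Θ i y) l (𝓝 (σ y))}
      mul_mem' := by
        intro x y hx hy
        simp only [Set.mem_ofPred_eq, map_mul] at *
        exact hx.mul hy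
      one_mem' := by
        simp only [Set.mem_ofPred_eq, map_one]
        exact tendsto_const_nhds
      add_mem' := by
        intro x y hx hy
        simp only [Set.mem_ofPred_eq, map_add] at *
        exact hx.add hy
      zero_mem' := by
        simp only [Set.mem_ofPred_eq, map_zero]
        exact tendsto_const_nhds
      algebraMap_mem' := by
        intro r
        simp only [Set.mem_ofPred_eq, eq_ratCast, map_ratCast]
        exact tendsto_const_nhds
      inv_mem' := by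
        intro x hx
        by_cases h : x = 0
        · subst h
          rw [inv_zero]
          exact hx
        · simp only [Set.mem_ofPred_eq, map_inv₀] at *
          exact hx.inv₀ (by rwa [Ne, map_eq_zero]) }
  have h1 : KB b ≤ L := by
    refine IntermediateField.adjoin_le_iff.2 ?_
    rintro y (hy | ⟨p, rfl⟩)
    · change Tendsto (fun i => Θ i y) l (𝓝 (σ y))
      simp only [hΘ _ y hy, h0 y hy]
      exact tendsto_const_nhds
    · exact hb p
  exact fun y hy => h1 hy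

/-- a well ordered enumeration of `ℂ` -/
theorem exists_enum : ∃ (ι : Type) (_ : LinearOrder ι) (_ : WellFoundedLT ι), Nonempty (ι ≃ ℂ) := by
  refine ⟨(#ℂ).ord.ToType, inferInstance, inferInstance, ?_⟩
  exact Cardinal.eq.1 (Cardinal.mk_ord_toType _)

theorem exists_index {ι : Type} (e : ι ≃ ℂ) : ∃ f : ι ⊕ (ℤ × Kap) → ℂ, Function.Injective f := by
  have h1 : #(ι ⊕ (ℤ × Kap)) ≤ #ℂ := by
    rw [Cardinal.mk_sum, Cardinal.mk_prod, Cardinal.mk_prod]
    simp only [Cardinal.lift_id, Cardinal.mk_congr e, Cardinal.mk_complex, Cardinal.mk_int]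
    have h2 : #Bool * 𝔠 ≤ 𝔠 := by
      refine (Cardinal.mul_le_max _ _).trans ?_
      simp only [max_le_iff]
      refine ⟨⟨?_, le_rfl⟩, Cardinal.aleph0_le_continuum⟩
      exact (Cardinal.mk_le_aleph0).trans Cardinal.aleph0_le_continuum
    calc 𝔠 + ℵ₀ * (#Bool * 𝔠) ≤ 𝔠 + ℵ₀ * 𝔠 := by gcongr
      _ = 𝔠 := by rw [Cardinal.aleph0_mul_continuum, Cardinal.continuum_add_self]
  obtain ⟨f⟩ := (Cardinal.le_def _ _).1 h1
  exact ⟨f, f.injective⟩

end Pool.Agent.AHI
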