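import Mathlib
import Pool.Agent.AHI.Invol

/-!
# Density of the powers
-/

namespace Pool.Agent.AHI

open Pool.Agent.AHC Filter Topology Cardinal

/-- the centres of the blocks -/
def mc (i : ℕ) : ℕ := (i + 2) ^ 2

theorem mc_ge (i : ℕ) : 2 * i + 2 ≤ mc i := by
  unfold mc
  nlinarith

theorem mc_sep (i : ℕ) : mc i + 2 * i + 2 < mc (i + 1) := by
  unfold mc
  nlinarith

/-- targets prescribed on the blocks -/
theorem exists_targets {J : Type} (v : ℕ → ℤ → J → ℂ) :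
    ∃ z : ℤ → J → ℂ, ∀ (i : ℕ) (a : ℤ), -(i : ℤ) ≤ a → a ≤ i → ∀ k, z (mc i + a) k = v i a k := by
  classical
  let Q : ℤ → ℕ × ℤ → Prop := fun n p => -(p.1 : ℤ) ≤ p.2 ∧ p.2 ≤ p.1 ∧ n = mc p.1 + p.2
  have huniq : ∀ n p q, Q n p → Q n q → p = q := by
    rintro n ⟨i, a⟩ ⟨j, c⟩ ⟨h1, h2, h3⟩ ⟨h4, h5, h6⟩
    dsimp only at h1 h2 h3 h4 h5 h6
    have h7 : i = j := by
      rcases lt_trichotomy i j with h | h | h
      · have := sep mc_sep i j h
        omega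
      · exact h
      · have := sep mc_sep j i h
        omega
    subst h7
    rw [Prod.mk.injEq]
    exact ⟨rfl, by omega⟩
  refine ⟨fun n k => if h : ∃ p, Q n p then v h.choose.1 h.choose.2 k else 0, ?_⟩
  intro i a h1 h2 k
  have hex : ∃ p, Q (mc i + a) p := ⟨(i, a), h1, h2, rfl⟩
  have h4 : hex.choose = (i, a) := huniq _ _ _ hex.choose_spec ⟨h1, h2, rfl⟩
  change (if h : ∃ p, Q (mc i + a) p then v h.choose.1 h.choose.2 k else 0) = _
  rw [dif_pos hex, h4]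

/-- **there is a conjugate `ι` of complex conjugation by an automorphism over the algebraic numbers
such that the powers of the product of `ι` and complex conjugation approximate every automorphism
over the algebraic numbers** -/
theorem exists_rho : ∃ ρ : ℂ ≃+* ℂ, (∀ z ∈ cl ∅, ρ z = z) ∧
    ∀ σ : ℂ ≃+* ℂ, (∀ z ∈ cl ∅, σ z = z) → ∀ A : Finset ℂ, ∀ ε : ℝ, 0 < ε →
      ∃ n : ℕ, ∀ a ∈ A, ‖((conjBy ρ).trans cc)^[n] a - σ a‖ < ε := by
  obtain ⟨ι, i1, i2, ⟨e⟩⟩ := exists_enum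
  obtain ⟨f, hf⟩ := exists_index e
  obtain ⟨u, hu⟩ := exists_filter f hf
  obtain ⟨z, hz⟩ := exists_targets (J := Kap) (fun i a k => u i (Sum.inr (a, k)))
  obtain ⟨b, hb, hbc, hbz⟩ := exists_baseA z
  obtain ⟨bs, hbs, hbsc⟩ := exists_baseB
  have halg := isAlgebraic_KB hb
  have hΘex : ∀ i : ℕ, ∃ Θ : ℂ ≃+* ℂ, Sh b (mc i) Θ ∧
      Near (KB b) e Θ (fun x => u i (Sum.inl x)) := by
    intro i
    obtain ⟨Θ0, h1, h2⟩ := extB hb
      (hb.comp_equiv ((Equiv.addRight (mc i : ℤ)).prodCongr (Equiv.refl Kap)))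
    obtain ⟨h, hh⟩ := exists_near (K0 := KB b) e Θ0 (fun x => u i (Sum.inl x))
    have hfix : ∀ y ∈ KB b, h y = y := fun y hy => h.commutes ⟨y, hy⟩
    refine ⟨_, ⟨?_, ?_⟩, hh⟩
    · intro y hy
      change Θ0 (h y) = y
      rw [hfix y (IntermediateField.subset_adjoin ℚ _ (Or.inl hy)), h1 y hy]
    · intro n k
      change Θ0 (h _) = _
      rw [hfix _ (IntermediateField.subset_adjoin ℚ _ (Or.inr ⟨_, rfl⟩)), h2]
      rfl
  choose Θ hΘ hN using hΘex
  obtain ⟨g, hg, hgΘ⟩ := exists_shift hb mc_ge mc_sep hΘ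
  obtain ⟨ρ, hρ0, hτs, hτg⟩ := exists_involution hb hbs hbc hbsc hg
  refine ⟨ρ, hρ0, fun σ hσ A ε hε => ?_⟩
  set τ : ℂ ≃+* ℂ := (conjBy ρ).trans cc with hτ
  have hR : ∃ R : ℕ, ∀ a ∈ A, a ∈ cl (BS b (Set.Icc (-(R : ℤ)) R)) := by
    choose N hN using exists_mem_BS hb
    refine ⟨A.sup N, fun a ha => cl_mono (BS_mono ?_) (hN a)⟩
    have h2 : N a ≤ A.sup N := Finset.le_sup ha
    refine Set.Icc_subset_Icc ?_ ?_ <;> omega
  obtain ⟨R, hR⟩ := hR
  let σ' : ℂ ≃+* ℂ := (pw τ R).symm.trans σ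
  have hσ' : ∀ y ∈ cl ∅, σ' y = y := by
    intro y hy
    change σ ((pw τ R).symm y) = y
    rw [(hτs.pw R).symm.alg y hy, hσ y hy]
  obtain ⟨l, hl1, hl2, hl3⟩ := hu (Sum.elim (fun x => σ' (e x)) (fun p => σ' (b p)))
  have hbT : ∀ p, Tendsto (fun i => Θ i (b p)) l (𝓝 (σ' (b p))) := by
    rintro ⟨n, k⟩
    have h1 : Tendsto (fun i => u i (Sum.inr (n, k))) l (𝓝 (σ' (b (n, k)))) := hl3 (Sum.inr (n, k))
    refine h1.congr_dist ?_
    have h2 : Tendsto (fun i : ℕ => 1 / ((i : ℝ) + 1)) l (𝓝 0) :=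
      tendsto_one_div_add_atTop_nhds_zero_nat.mono_left hl2
    refine squeeze_zero' (Eventually.of_forall fun i => dist_nonneg) ?_ h2
    filter_upwards [hl2 (eventually_ge_atTop n.natAbs)] with i hi
    have hi' : n.natAbs ≤ i := hi
    have h3 := hz i n (by omega) (by omega) k
    have h4 : (i : ℤ) + 1 ≤ (mc i : ℤ) + n := by
      have h5 : (i : ℤ) + 1 + i ≤ mc i := by
        have := mc_ge i
        omega
      omega
    have h5 := hbz ((mc i : ℤ) + n) k (by omega)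
    rw [(hΘ i).sh, dist_comm, dist_eq_norm, add_comm n, ← h3]
    refine h5.le.trans ?_
    refine one_div_le_one_div_of_le (by positivity) ?_
    exact_mod_cast h4
  have hconv := near_tendsto Θ (fun i x => u i (Sum.inl x)) hN σ'
    (tendsto_KB hσ' (fun i y hy => (hΘ i).alg y hy) hbT) (fun x => hl3 (Sum.inl x))
  have hconv' : ∀ y, Tendsto (fun i => Θ i y) l (𝓝 (σ' y)) := by
    intro y
    obtain ⟨x, rfl⟩ := e.surjective y
    exact hconv x
  have hev : ∀ᶠ i in l, ∀ a ∈ A, ‖Θ i (τ^[R] a) - σ a‖ < ε := by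
    rw [Filter.eventually_all_finset]
    intro a ha
    have h1 := Metric.tendsto_nhds.1 (hconv' (τ^[R] a)) ε hε
    have h2 : σ' (τ^[R] a) = σ a := by
      change σ ((pw τ R).symm (τ^[R] a)) = _
      rw [← pw_apply, RingEquiv.symm_apply_apply]
    filter_upwards [h1] with i hi
    rwa [h2, dist_eq_norm] at hi
  obtain ⟨i, h1, h2⟩ := (hev.and (hl2 (eventually_ge_atTop (2 * R)))).exists
  have h2' : 2 * R ≤ i := h2
  refine ⟨mc i + R, fun a ha => ?_⟩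
  have h3 : τ^[R] a ∈ cl (BS b (Set.Icc 0 (2 * (R : ℤ)))) :=
    iter_mem hτs R (hR a ha) (by omega) (by omega)
  have h4 : τ^[R] a ∈ cl (BS b (Set.Ici 0)) :=
    cl_mono (BS_mono fun n hn => hn.1) h3
  have h5 : τ^[R] a ∈ cl (BS b (Set.Icc (-(i : ℤ)) i)) :=
    cl_mono (BS_mono (Set.Icc_subset_Icc (by omega) (by omega))) h3
  rw [Function.iterate_add_apply, iter_pos hg hτg (mc i) _ h4, hgΘ i _ h5]
  exact h1 a ha

end Pool.Agent.AHI
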