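import Mathlib
import Pool.Agent.AHI.Dense
import Pool.Agent.AHI.Closed

/-!
# One involution and a sequence of automorphisms suffice for the integral form
-/

namespace Pool.Agent.AHI

open Pool.Agent.AHC

/-- closed submonoids of `Aut ℂ` for the topology of pointwise convergence, where `ℂ` has its
usual topology -/
structure IsEuclidClosed (H : Set (ℂ ≃+* ℂ)) : Prop where
  mon : IsClosedMonoid H
  closed : ∀ σ : ℂ ≃+* ℂ, (∀ A : Finset ℂ, ∀ ε : ℝ, 0 < ε →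
    ∃ τ ∈ H, ∀ a ∈ A, ‖τ a - σ a‖ < ε) → σ ∈ H

theorem IsEuclidClosed.pw {H : Set (ℂ ≃+* ℂ)} (hH : IsEuclidClosed H) {τ : ℂ ≃+* ℂ} (h : τ ∈ H)
    (n : ℕ) : pw τ n ∈ H := by
  induction n with
  | zero => exact hH.mon.one_mem
  | succ n ih => exact hH.mon.mul_mem _ ih _ h

/-- a closed submonoid containing complex conjugation and the involution contains all
automorphisms which fix every real algebraic number fixed by the given elements of the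
submonoid -/
theorem over_fixed {ρ : ℂ ≃+* ℂ} (hρ : ∀ σ : ℂ ≃+* ℂ, (∀ z ∈ cl ∅, σ z = z) → ∀ A : Finset ℂ,
      ∀ ε : ℝ, 0 < ε → ∃ n : ℕ, ∀ a ∈ A, ‖((conjBy ρ).trans cc)^[n] a - σ a‖ < ε)
    {H : Set (ℂ ≃+* ℂ)} (hH : IsEuclidClosed H) (hc : cc ∈ H) (hι : conjBy ρ ∈ H)
    {T : Set (ℂ ≃+* ℂ)} (hT : ∀ τ ∈ T, τ ∈ H) (σ : ℂ ≃+* ℂ)
    (hσ : ∀ z, IsAlgebraic ℚ z → z.im = 0 → (∀ τ ∈ T, τ z = z) → σ z = z) : σ ∈ H := by
  have h1 : ∀ σ : ℂ ≃+* ℂ, (∀ z ∈ cl ∅, σ z = z) → σ ∈ H := by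
    intro σ hσ
    refine hH.closed σ fun A ε hε => ?_
    obtain ⟨n, hn⟩ := hρ σ hσ A ε hε
    refine ⟨_, hH.pw (hH.mon.mul_mem _ hι _ hc) n, fun a ha => ?_⟩
    rw [pw_apply]
    exact hn a ha
  exact galois_closed hH.mon h1 σ fun z hz hz' =>
    hσ z (isAlgebraic_of_mem_cl_empty hz) (cc_eq_self_iff.1 (hz' cc hc)) fun τ hτ => hz' τ (hT τ hτ)

theorem isEuclidClosed_integralPart {C : Set Datum} (hC : Stable C) :
    IsEuclidClosed {σ | IntegralPart C σ} :=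
  ⟨isClosedMonoid_integralPart hC, fun σ h => integralPart_closed σ h⟩

/-- **main theorem** -/
theorem main : ∃ ρ : ℂ ≃+* ℂ, (∀ z, IsAlgebraic ℚ z → ρ z = z) ∧
    ∀ C : Set Datum, Stable C → ∀ T : Set (ℂ ≃+* ℂ),
      ((IntegralPart C (conjBy ρ) ∧ ∀ τ ∈ T, IntegralPart C τ) ↔
        ∀ σ : ℂ ≃+* ℂ, (∀ z, IsAlgebraic ℚ z → z.im = 0 → (∀ τ ∈ T, τ z = z) → σ z = z) →
          IntegralPart C σ) := by
  obtain ⟨ρ, hρ0, hρ⟩ := exists_rho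
  refine ⟨ρ, fun z hz => hρ0 z (mem_cl_empty hz), fun C hC T => ⟨fun h σ hσ => ?_,
    fun h => ⟨h _ fun z hz hz' _ => ?_, fun τ hτ => h τ fun z _ _ hz => hz τ hτ⟩⟩⟩
  · exact over_fixed hρ (isEuclidClosed_integralPart hC) (cc_mem_integralPart C) h.1 h.2 σ hσ
  · rw [conjBy_apply, hρ0 z (mem_cl_empty hz), cc_eq_self_iff.2 hz', RingEquiv.symm_apply_eq,
      hρ0 z (mem_cl_empty hz)]

end Pool.Agent.AHI
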